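import Pool.Agent.X179.PI.Ell

/-!
The area curves of an ellipse are homothetic ellipses.
-/

set_option autoImplicit false

open Filter Topology Set

namespace Pool.Agent.X179.PI

/-- affine parametrisation of an oval by the angle `φ` -/
structure AffParam (x y ρ φ f : ℝ → ℝ) (u v l m n : ℝ) : Prop where
  oval : Oval x y ρ
  l0 : 0 < l
  n0 : 0 < n
  f0 : ∀ t, 0 < f t
  dφ : ∀ t, HasDerivAt φ (f t) t
  hx : ∀ t, x t = u + l * Real.cos (φ t)
  hy : ∀ t, y t = v + m * Real.cos (φ t) + n * Real.sin (φ t)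

namespace AffParam

variable {x y ρ φ f : ℝ → ℝ} {u v l m n : ℝ} (H : AffParam x y ρ φ f u v l m n)
include H

lemma esin (t : ℝ) : ρ t * Real.sin t = l * Real.sin (φ t) * f t := by
  have e1 := H.oval.dx t
  have e2 := (((H.dφ t).cos).const_mul l).const_add u
  have e3 := (e2.congr_of_eventuallyEq (Eventually.of_forall H.hx)).unique e1
  linarith

lemma ecos (t : ℝ) : ρ t * Real.cos t = (-m * Real.sin (φ t) + n * Real.cos (φ t)) * f t := by
  have e1 := H.oval.dy t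
  have e2 := ((((H.dφ t).cos).const_mul m).const_add v).add (((H.dφ t).sin).const_mul n)
  have e3 := (e2.congr_of_eventuallyEq (Eventually.of_forall H.hy)).unique e1
  linarith

lemma cont : Continuous φ := continuous_iff_continuousAt.mpr fun t => (H.dφ t).continuousAt

lemma mono : StrictMono φ := strictMono_of_deriv_pos fun t => by rw [(H.dφ t).deriv]; exact H.f0 t

lemma tan (t a : ℝ) : tanPt x y t a =
    (u + l * (Real.cos (φ t) - a * f t / ρ t * Real.sin (φ t)),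
      v + m * (Real.cos (φ t) - a * f t / ρ t * Real.sin (φ t))
        + n * (Real.sin (φ t) + a * f t / ρ t * Real.cos (φ t))) := by
  have h0 := (H.oval.pos t).ne'
  have e1 := H.esin t
  have e2 := H.ecos t
  refine Prod.ext ?_ ?_
  · simp only [tanPt]
    rw [H.hx]
    field_simp
    linear_combination (-a) * e1
  · simp only [tanPt]
    rw [H.hy]
    field_simp
    linear_combination a * e2

lemma sin_rel (t s : ℝ) : ρ t * ρ s * Real.sin (s - t)
    = l * n * f t * f s * Real.sin (φ s - φ t) := by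
  rw [Real.sin_sub, Real.sin_sub]
  have a1 := H.esin t
  have a2 := H.ecos t
  have b1 := H.esin s
  have b2 := H.ecos s
  have : ρ t * ρ s * (Real.sin s * Real.cos t - Real.cos s * Real.sin t)
      = (ρ s * Real.sin s) * (ρ t * Real.cos t) - (ρ s * Real.cos s) * (ρ t * Real.sin t) := by ring
  rw [this, a1, a2, b1, b2]
  ring

lemma sin_pos_iff (t s : ℝ) : 0 < Real.sin (s - t) ↔ 0 < Real.sin (φ s - φ t) := by
  have h1 : 0 < ρ t * ρ s := mul_pos (H.oval.pos t) (H.oval.pos s)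
  have h2 : 0 < l * n * f t * f s :=
    mul_pos (mul_pos (mul_pos H.l0 H.n0) (H.f0 t)) (H.f0 s)
  have e := H.sin_rel t s
  constructor
  · intro h
    have : 0 < l * n * f t * f s * Real.sin (φ s - φ t) := by rw [← e]; exact mul_pos h1 h
    exact (pos_iff_pos_of_mul_pos this).1 h2
  · intro h
    have : 0 < ρ t * ρ s * Real.sin (s - t) := by rw [e]; exact mul_pos h2 h
    exact (pos_iff_pos_of_mul_pos this).1 h1

lemma lt_pi {t s : ℝ} (hts : t < s) (h : s < t + Real.pi) :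
    0 < φ s - φ t ∧ φ s - φ t < Real.pi := by
  have h0 := H.mono hts
  refine ⟨by linarith, ?_⟩
  by_contra hcon
  push Not at hcon
  have hmem : φ t + Real.pi ∈ Icc (φ t) (φ s) := ⟨by linarith [Real.pi_pos], by linarith⟩
  obtain ⟨r, hr, hφ⟩ := intermediate_value_Icc hts.le H.cont.continuousOn hmem
  have hrt : t < r := by
    rcases eq_or_lt_of_le hr.1 with h1 | h1
    · rw [← h1] at hφ; linarith [Real.pi_pos]
    · exact h1
  have h2 : 0 < Real.sin (r - t) :=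
    Real.sin_pos_of_pos_of_lt_pi (by linarith) (by linarith [hr.2])
  rw [H.sin_pos_iff, hφ] at h2
  simp at h2

lemma lt_pi' {t s : ℝ} (_hts : t < s) (h : φ s - φ t < Real.pi) : s < t + Real.pi := by
  by_contra hcon
  push Not at hcon
  have h1 : φ (t + Real.pi) ≤ φ s := H.mono.monotone hcon
  have h2 : φ t < φ (t + Real.pi) := H.mono (by linarith [Real.pi_pos])
  have h3 : 0 < Real.sin (φ (t + Real.pi) - φ t) :=
    Real.sin_pos_of_pos_of_lt_pi (by linarith) (by linarith)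
  rw [← H.sin_pos_iff] at h3
  simp at h3

lemma add_pi (t : ℝ) : φ t + Real.pi ≤ φ (t + Real.pi) := by
  by_contra hcon
  push Not at hcon
  have := H.lt_pi' (t := t) (s := t + Real.pi) (by linarith [Real.pi_pos]) (by linarith)
  linarith

lemma add_nat (t : ℝ) (k : ℕ) : φ t + k * Real.pi ≤ φ (t + k * Real.pi) := by
  induction k with
  | zero => simp
  | succ k ih =>
    have := H.add_pi (t + k * Real.pi)
    push_cast
    have e : t + (k + 1) * Real.pi = t + k * Real.pi + Real.pi := by ring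
    rw [e]
    linarith

lemma surj (ψ : ℝ) : ∃ t, φ t = ψ := by
  obtain ⟨k, hk⟩ := exists_nat_gt (|ψ - φ 0| / Real.pi)
  rw [div_lt_iff₀ Real.pi_pos] at hk
  have h1 := H.add_nat 0 k
  have h2 := H.add_nat (-(k * Real.pi)) k
  rw [neg_add_cancel] at h2
  rw [zero_add] at h1
  have h3 := abs_lt.1 hk
  exact mem_range_of_exists_le_of_exists_ge H.cont ⟨-(k * Real.pi), by linarith [h3.1]⟩
    ⟨k * Real.pi, by linarith [h3.2]⟩

lemma integral (t s : ℝ) :
    ∫ θ in t..s, (x θ * (ρ θ * Real.cos θ) + y θ * (ρ θ * Real.sin θ))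
      = l * n * (φ s - φ t) + u * (y s - y t) - v * (x s - x t) := by
  have hρ : Continuous ρ := H.oval.smooth.continuous
  have hxc : Continuous x := continuous_iff_continuousAt.mpr fun t => (H.oval.dx t).continuousAt
  have hyc : Continuous y := continuous_iff_continuousAt.mpr fun t => (H.oval.dy t).continuousAt
  have hcont : Continuous fun θ => x θ * (ρ θ * Real.cos θ) + y θ * (ρ θ * Real.sin θ) :=
    (hxc.mul (hρ.mul Real.continuous_cos)).add (hyc.mul (hρ.mul Real.continuous_sin))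
  have hd : ∀ θ ∈ uIcc t s, HasDerivAt (fun θ => l * n * φ θ + u * y θ - v * x θ)
      (x θ * (ρ θ * Real.cos θ) + y θ * (ρ θ * Real.sin θ)) θ := by
    intro θ _
    refine ((((H.dφ θ).const_mul (l * n)).add ((H.oval.dy θ).const_mul u)).sub
      ((H.oval.dx θ).const_mul v)).congr_deriv ?_
    have e1 := H.esin θ
    have e2 := H.ecos θ
    have e3 := Real.sin_sq_add_cos_sq (φ θ)
    rw [H.hx, H.hy]
    linear_combination (-(l * Real.cos (φ θ))) * e2
      - (m * Real.cos (φ θ) + n * Real.sin (φ θ)) * e1 - (l * n * f θ) * e3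
  rw [intervalIntegral.integral_eq_sub_of_hasDerivAt hd (hcont.intervalIntegrable _ _)]
  ring

end AffParam

end Pool.Agent.X179.PI

namespace Pool.Agent.X179.PI

namespace AffParam

variable {x y ρ φ f : ℝ → ℝ} {u v l m n : ℝ} (H : AffParam x y ρ φ f u v l m n)
include H

lemma leaf {A : ℝ} (hA : 0 < A) : ∃ s : ℝ, 0 < s ∧ ∀ z : ℝ × ℝ, z ∈ areaCurve x y ρ A ↔
    ((z.1 - u) / l) ^ 2 + (((z.2 - v) - m * ((z.1 - u) / l)) / n) ^ 2 = 1 + s ^ 2 := by
  have hl := H.l0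
  have hn := H.n0
  obtain ⟨s, hs0, hs⟩ := excess_exists (a := A / (l * n)) (by positivity)
  have hA' : l * n * (s - Real.arctan s) = A := by rw [hs]; field_simp
  have hcc : ∀ θ : ℝ, Real.cos θ = 0 + 1 * Real.cos θ ∧ Real.sin θ = 0 + 1 * Real.sin θ :=
    fun θ => by simp
  have hsq : 0 < 1 + s ^ 2 := by positivity
  have hcos : ∀ τ : ℝ, Real.tan (τ / 2) = s → 0 < Real.cos (τ / 2) →
      1 / Real.cos (τ / 2) = Real.sqrt (1 + s ^ 2) := by
    intro τ h1 h2
    rw [← h1, Real.tan_eq_sin_div_cos]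
    rw [show (1 : ℝ) + (Real.sin (τ / 2) / Real.cos (τ / 2)) ^ 2 = (1 / Real.cos (τ / 2)) ^ 2 by
      have := Real.sin_sq_add_cos_sq (τ / 2)
      field_simp
      linarith]
    exact (Real.sqrt_sq (by positivity)).symm
  refine ⟨s, hs0, fun z => ?_⟩
  constructor
  · rintro ⟨θ₁, θ₂, a, a', h1, h2, hz, hz', hL⟩
    obtain ⟨hδ0, hδ⟩ := H.lt_pi h1 h2
    set δ := φ θ₂ - φ θ₁ with hδdef
    have hφ2 : φ θ₂ = φ θ₁ + δ := by rw [hδdef]; ring
    rw [H.tan] at hz hz'
    set m₁ := a * f θ₁ / ρ θ₁ with hm₁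
    set m₂ := a' * f θ₂ / ρ θ₂ with hm₂
    have hm₂' : -a' * f θ₂ / ρ θ₂ = -m₂ := by rw [hm₂]; ring
    rw [hm₂', hφ2] at hz'
    -- the point in the affine coordinates
    obtain ⟨ζ, hζ⟩ : ∃ ζ : ℝ × ℝ, ζ = tanPt Real.cos Real.sin (φ θ₁) m₁ := ⟨_, rfl⟩
    have hζ1 : ζ.1 = Real.cos (φ θ₁) - m₁ * Real.sin (φ θ₁) := by rw [hζ]; rfl
    have hζ2 : ζ.2 = Real.sin (φ θ₁) + m₁ * Real.cos (φ θ₁) := by rw [hζ]; rfl
    have z1 : z.1 = u + l * ζ.1 := by rw [hz, hζ1]
    have z2 : z.2 = v + m * ζ.1 + n * ζ.2 := by rw [hz, hζ1, hζ2]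
    have z1' : z.1 = u + l * (Real.cos (φ θ₁ + δ) - -m₂ * Real.sin (φ θ₁ + δ)) := by rw [hz']
    have z2' : z.2 = v + m * (Real.cos (φ θ₁ + δ) - -m₂ * Real.sin (φ θ₁ + δ))
        + n * (Real.sin (φ θ₁ + δ) + -m₂ * Real.cos (φ θ₁ + δ)) := by rw [hz']
    have k1 : ζ.1 = Real.cos (φ θ₁ + δ) - -m₂ * Real.sin (φ θ₁ + δ) := by
      have : l * ζ.1 = l * (Real.cos (φ θ₁ + δ) - -m₂ * Real.sin (φ θ₁ + δ)) := by linarith
      exact mul_left_cancel₀ hl.ne' this
    have k2 : ζ.2 = Real.sin (φ θ₁ + δ) + -m₂ * Real.cos (φ θ₁ + δ) := by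
      have : n * ζ.2 = n * (Real.sin (φ θ₁ + δ) + -m₂ * Real.cos (φ θ₁ + δ)) := by
        rw [← k1] at z2'; linarith
      exact mul_left_cancel₀ hn.ne' this
    have hζ' : ζ = tanPt Real.cos Real.sin (φ θ₁ + δ) (-m₂) := Prod.ext k1 k2
    obtain ⟨hm1, hm2, hzz⟩ := circ_uniq hcc hδ0 hδ hζ hζ'
    rw [one_mul] at hm1 hm2
    have hc0 : 0 < Real.cos (δ / 2) := Real.cos_pos_of_mem_Ioo ⟨by linarith, by linarith⟩
    have hat : Real.arctan (Real.tan (δ / 2)) = δ / 2 :=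
      Real.arctan_tan (by linarith) (by linarith)
    have htan0 : 0 < Real.tan (δ / 2) := Real.tan_pos_of_pos_of_lt_pi_div_two (by linarith)
      (by linarith)
    -- the area
    have harea : capArea x y ρ θ₁ θ₂ z = l * n * (Real.tan (δ / 2) - δ / 2) := by
      rw [capArea, H.integral, H.hx θ₁, H.hx θ₂, H.hy θ₁, H.hy θ₂, ← hδdef, hφ2, z1, z2]
      have c1 : Real.cos (φ θ₁) * ζ.2 - Real.sin (φ θ₁) * ζ.1 = Real.tan (δ / 2) := by
        rw [hζ1, hζ2, ← hm1]
        have := Real.sin_sq_add_cos_sq (φ θ₁)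
        linear_combination m₁ * this
      have c2 : ζ.1 * Real.sin (φ θ₁ + δ) - ζ.2 * Real.cos (φ θ₁ + δ) = Real.tan (δ / 2) := by
        rw [k1, k2, ← hm2]
        have := Real.sin_sq_add_cos_sq (φ θ₁ + δ)
        linear_combination m₂ * this
      linear_combination (l * n / 2) * c1 + (l * n / 2) * c2
    have hts : Real.tan (δ / 2) = s := by
      refine excess_mono.injOn (mem_Ici.2 htan0.le) (mem_Ici.2 hs0.le) ?_
      show Real.tan (δ / 2) - Real.arctan (Real.tan (δ / 2)) = s - Real.arctan s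
      rw [hs, hat, ← hL, harea]
      field_simp
    rw [z1, z2]
    have e1 : (u + l * ζ.1 - u) / l = ζ.1 := by field_simp; ring
    rw [e1]
    have e2 : (v + m * ζ.1 + n * ζ.2 - v - m * ζ.1) / n = ζ.2 := by field_simp; ring
    rw [e2, hzz, hcos δ hts hc0]
    show (0 + Real.sqrt (1 + s ^ 2) * Real.cos (φ θ₁ + δ / 2)) ^ 2
      + (0 + Real.sqrt (1 + s ^ 2) * Real.sin (φ θ₁ + δ / 2)) ^ 2 = 1 + s ^ 2
    have e3 := Real.sin_sq_add_cos_sq (φ θ₁ + δ / 2)
    have e4 := Real.sq_sqrt hsq.le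
    linear_combination Real.sqrt (1 + s ^ 2) ^ 2 * e3 + e4
  · intro hz
    set ζ1 := (z.1 - u) / l with hζ1
    set ζ2 := ((z.2 - v) - m * ζ1) / n with hζ2
    have z1 : z.1 = u + l * ζ1 := by rw [hζ1]; field_simp; ring
    have z2 : z.2 = v + m * ζ1 + n * ζ2 := by rw [hζ2]; field_simp; ring
    have hR : 0 < Real.sqrt (1 + s ^ 2) := Real.sqrt_pos.2 hsq
    obtain ⟨ψ, hψ⟩ := exists_angle' (u := 0) (v := 0) (z := (ζ1, ζ2)) hR (by
      show (ζ1 - 0) ^ 2 + (ζ2 - 0) ^ 2 = _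
      rw [Real.sq_sqrt hsq.le]; linarith)
    obtain ⟨hψ1, hψ2⟩ := Prod.mk.inj hψ
    set δ := 2 * Real.arctan s with hδdef
    have hδ0 : 0 < δ := by
      have := Real.arctan_pos.2 hs0
      linarith
    have hδ : δ < Real.pi := by
      have := Real.arctan_lt_pi_div_two s
      linarith
    have hhalf : δ / 2 = Real.arctan s := by rw [hδdef]; ring
    have hts : Real.tan (δ / 2) = s := by rw [hhalf, Real.tan_arctan]
    have hc0 : 0 < Real.cos (δ / 2) := by rw [hhalf]; exact Real.cos_arctan_pos s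
    obtain ⟨θ₁, hθ₁⟩ := H.surj (ψ - δ / 2)
    obtain ⟨θ₂, hθ₂⟩ := H.surj (ψ - δ / 2 + δ)
    have h12 : θ₁ < θ₂ := by
      rw [← H.mono.lt_iff_lt, hθ₁, hθ₂]; linarith
    have hpi : θ₂ < θ₁ + Real.pi := H.lt_pi' h12 (by rw [hθ₁, hθ₂]; linarith)
    have p1 := circ_pt hcc hδ0 hδ (ψ - δ / 2)
    have p2 := circ_pt' hcc hδ0 hδ (ψ - δ / 2)
    rw [one_mul, hts, hcos δ hts hc0, sub_add_cancel] at p1 p2
    obtain ⟨p11, p12⟩ := Prod.mk.inj p1
    obtain ⟨p21, p22⟩ := Prod.mk.inj p2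
    have hρ1 := (H.oval.pos θ₁).ne'
    have hρ2 := (H.oval.pos θ₂).ne'
    have hf1 := (H.f0 θ₁).ne'
    have hf2 := (H.f0 θ₂).ne'
    have hz1 : z = tanPt x y θ₁ (s * ρ θ₁ / f θ₁) := by
      rw [H.tan, hθ₁]
      have e : s * ρ θ₁ / f θ₁ * f θ₁ / ρ θ₁ = s := by field_simp
      rw [e]
      refine Prod.ext ?_ ?_
      · simp only
        rw [p11, ← hψ1, z1]
      · simp only
        rw [p11, p12, ← hψ1, ← hψ2, z2]
    have hz2 : z = tanPt x y θ₂ (-(s * ρ θ₂ / f θ₂)) := by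
      rw [H.tan, hθ₂]
      have e : -(s * ρ θ₂ / f θ₂) * f θ₂ / ρ θ₂ = -s := by field_simp
      rw [e]
      refine Prod.ext ?_ ?_
      · simp only
        rw [p21, ← hψ1, z1]
      · simp only
        rw [p21, p22, ← hψ1, ← hψ2, z2]
    refine ⟨θ₁, θ₂, s * ρ θ₁ / f θ₁, s * ρ θ₂ / f θ₂, h12, hpi, hz1, hz2, ?_⟩
    rw [capArea, H.integral, H.hx θ₁, H.hx θ₂, H.hy θ₁, H.hy θ₂, hθ₁, hθ₂, z1, z2, hψ1, hψ2,
      ← p11, ← p12]
    have c1 : Real.cos (ψ - δ / 2) * (Real.sin (ψ - δ / 2) + s * Real.cos (ψ - δ / 2))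
        - Real.sin (ψ - δ / 2) * (Real.cos (ψ - δ / 2) - s * Real.sin (ψ - δ / 2)) = s := by
      have := Real.sin_sq_add_cos_sq (ψ - δ / 2)
      linear_combination s * this
    have c2 : (Real.cos (ψ - δ / 2) - s * Real.sin (ψ - δ / 2)) * Real.sin (ψ - δ / 2 + δ)
        - (Real.sin (ψ - δ / 2) + s * Real.cos (ψ - δ / 2)) * Real.cos (ψ - δ / 2 + δ) = s := by
      rw [p11, p12, ← p21, ← p22]
      have := Real.sin_sq_add_cos_sq (ψ - δ / 2 + δ)
      linear_combination s * this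
    have e5 : ψ - δ / 2 + δ - (ψ - δ / 2) = 2 * Real.arctan s := by rw [hδdef]; ring
    rw [e5, ← hA']
    linear_combination (l * n / 2) * c1 + (l * n / 2) * c2

lemma range_eq (z : ℝ × ℝ) : z ∈ range (fun θ => (x θ, y θ)) ↔
    ((z.1 - u) / l) ^ 2 + (((z.2 - v) - m * ((z.1 - u) / l)) / n) ^ 2 = 1 := by
  have hl := H.l0
  have hn := H.n0
  constructor
  · rintro ⟨θ, rfl⟩
    show ((x θ - u) / l) ^ 2 + (((y θ - v) - m * ((x θ - u) / l)) / n) ^ 2 = 1
    have e1 : (x θ - u) / l = Real.cos (φ θ) := by rw [H.hx]; field_simp; ring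
    rw [e1]
    have e2 : (y θ - v - m * Real.cos (φ θ)) / n = Real.sin (φ θ) := by
      rw [H.hy]; field_simp; ring
    rw [e2]
    have := Real.sin_sq_add_cos_sq (φ θ)
    linarith
  · intro hz
    obtain ⟨ψ, h1, h2⟩ := exists_angle hz
    obtain ⟨θ, hθ⟩ := H.surj ψ
    refine ⟨θ, ?_⟩
    refine Prod.ext ?_ ?_
    · show x θ = z.1
      rw [H.hx, hθ, h1]; field_simp; ring
    · show y θ = z.2
      rw [H.hy, hθ, h1, h2]; field_simp; ring

end AffParam

end Pool.Agent.X179.PI
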