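import Pool.Agent.X179.PI.Str

/-!
Area curves.
-/

set_option autoImplicit false

open Filter Topology Set

namespace Pool.Agent.X179.PI

/-- the area of the region bounded by the segments from `γ(θ₁)` to `z` and from `z` to `γ(θ₂)` and by
the arc of `γ` from `θ₁` to `θ₂`, by Green's formula: half the integral of `x dy - y dx` along the
boundary -/
noncomputable def capArea (x y ρ : ℝ → ℝ) (θ₁ θ₂ : ℝ) (z : ℝ × ℝ) : ℝ :=
  ((x θ₁ * z.2 - y θ₁ * z.1) + (z.1 * y θ₂ - z.2 * x θ₂)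
    - ∫ θ in θ₁..θ₂, (x θ * (ρ θ * Real.cos θ) + y θ * (ρ θ * Real.sin θ))) / 2

/-- the area curve: the points `z` outside `γ` such that the region between the two tangent segments
from `z` to `γ` and `γ` has area `A` -/
noncomputable def areaCurve (x y ρ : ℝ → ℝ) (A : ℝ) : Set (ℝ × ℝ) :=
  {z | ∃ θ₁ θ₂ u u' : ℝ, θ₁ < θ₂ ∧ θ₂ < θ₁ + Real.pi ∧ z = tanPt x y θ₁ u ∧
    z = tanPt x y θ₂ (-u') ∧ capArea x y ρ θ₁ θ₂ z = A}

/-- twice the area between the arc and its chord -/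
noncomputable def Jf (x y ρ : ℝ → ℝ) (t h : ℝ) : ℝ :=
  (∫ θ in t..(t + h), (x θ * (ρ θ * Real.cos θ) + y θ * (ρ θ * Real.sin θ)))
    - (x t * y (t + h) - y t * x (t + h))

/-- the area function -/
noncomputable def Ar (x y ρ : ℝ → ℝ) (t h : ℝ) : ℝ :=
  (S x y t h * U x y t h - Jf x y ρ t h) / 2

lemma capArea_eq (x y ρ : ℝ → ℝ) (t h : ℝ) :
    capArea x y ρ t (t + h) (tanPt x y t (S x y t h)) = Ar x y ρ t h := by
  rw [capArea, Ar, Jf, tanPt]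
  simp only [U]
  ring

lemma capArea_swap (x y ρ : ℝ → ℝ) (θ₁ θ₂ : ℝ) (z : ℝ × ℝ) :
    capArea x y ρ θ₁ θ₂ z = -capArea x y ρ θ₂ θ₁ z := by
  rw [capArea, capArea, intervalIntegral.integral_symm]
  ring

section
variable {x y ρ : ℝ → ℝ} (hx : ∀ t, HasDerivAt x (-(ρ t * Real.sin t)) t)
  (hy : ∀ t, HasDerivAt y (ρ t * Real.cos t) t) (hρ : Continuous ρ)
include hx hy hρ

lemma hasDerivAt_Jf (t h : ℝ) : HasDerivAt (Jf x y ρ t)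
    (ρ (t + h) * (V x y t h * Real.sin h - U x y t h * Real.cos h)) h := by
  have hxc : Continuous x := continuous_iff_continuousAt.mpr fun t => (hx t).continuousAt
  have hyc : Continuous y := continuous_iff_continuousAt.mpr fun t => (hy t).continuousAt
  have hcont : Continuous fun θ => x θ * (ρ θ * Real.cos θ) + y θ * (ρ θ * Real.sin θ) :=
    (hxc.mul (hρ.mul Real.continuous_cos)).add (hyc.mul (hρ.mul Real.continuous_sin))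
  have e1 := hasDerivAt_arc hcont t h
  have e2 := (hx (t + h)).comp h ((hasDerivAt_id' h).const_add t)
  have e3 := (hy (t + h)).comp h ((hasDerivAt_id' h).const_add t)
  refine (e1.sub ((e3.const_mul (x t)).sub (e2.const_mul (y t)))).congr_deriv ?_
  have h1 : Real.sin h = Real.sin (t + h) * Real.cos t - Real.cos (t + h) * Real.sin t := by
    rw [← Real.sin_sub]; congr 1; ring
  have h2 : Real.cos h = Real.cos (t + h) * Real.cos t + Real.sin (t + h) * Real.sin t := by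
    rw [← Real.cos_sub]; congr 1; ring
  rw [h1, h2]
  simp only [U, V]
  have e := Real.sin_sq_add_cos_sq t
  linear_combination (-(ρ (t + h) * ((x (t + h) - x t) * Real.cos (t + h)
    + (y (t + h) - y t) * Real.sin (t + h)))) * e

end

section
variable {x y ρ ρ1 ρ2 ρ3 : ℝ → ℝ} (hx : ∀ t, HasDerivAt x (-(ρ t * Real.sin t)) t)
  (hy : ∀ t, HasDerivAt y (ρ t * Real.cos t) t) (h1 : ∀ t, HasDerivAt ρ (ρ1 t) t)
  (h2 : ∀ t, HasDerivAt ρ1 (ρ2 t) t) (h3 : ∀ t, HasDerivAt ρ2 (ρ3 t) t) (hc : Continuous ρ3)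
include hx hy h1 h2 h3 hc

lemma sm_W (t : ℝ) : Sm 5 (fun h => (V x y t h * Real.sin h - U x y t h * Real.cos h)
    - (ρ t / 2 * h ^ 2 + ρ1 t / 6 * h ^ 3
    + (ρ2 t / 24 - ρ t / 24) * h ^ 4 + (ρ3 t / 120 - ρ1 t / 120) * h ^ 5)) := by
  obtain ⟨eU, heU, hU⟩ := sm_U hx hy h1 h2 h3 hc t
  obtain ⟨eV, heV, hV⟩ := sm_V hx hy h1 h2 h3 hc t
  obtain ⟨es, hes, hs⟩ := sm_sin5
  obtain ⟨ec, hec, hco⟩ := sm_cos4
  have q1 : Sm 5 (fun h => V x y t h * Real.sin h - (ρ t * h ^ 2 + ρ1 t / 2 * h ^ 3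
      + ((ρ2 t / 6 - ρ t / 6) - ρ t / 6) * h ^ 4
      + ((ρ3 t / 24 - ρ1 t / 8) - ρ1 t / 12) * h ^ 5)) := by
    refine ⟨_, lim2 heV hes (fun z =>
      z.1 * (ρ t / 120 - (ρ2 t / 6 - ρ t / 6) / 6)
      + z.1 ^ 2 * (ρ1 t / 240 - (ρ3 t / 24 - ρ1 t / 8) / 6)
      + z.1 ^ 3 * (ρ2 t / 6 - ρ t / 6) / 120 + z.1 ^ 4 * (ρ3 t / 24 - ρ1 t / 8) / 120
      + z.2.1 * (1 - z.1 ^ 2 / 6 + z.1 ^ 4 / 120 + z.2.2 * z.1 ^ 4)
      + z.2.2 * z.1 * (ρ t + ρ1 t / 2 * z.1 + (ρ2 t / 6 - ρ t / 6) * z.1 ^ 2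
        + (ρ3 t / 24 - ρ1 t / 8) * z.1 ^ 3)) (by fun_prop) (by simp), fun h => ?_⟩
    have a := hV h
    have b := hs h
    have a' : V x y t h = (ρ t * h + ρ1 t / 2 * h ^ 2
      + (ρ2 t / 6 - ρ t / 6) * h ^ 3 + (ρ3 t / 24 - ρ1 t / 8) * h ^ 4) + eV h * h ^ 4 := by
      linarith
    have b' : Real.sin h = h - h ^ 3 / 6 + h ^ 5 / 120 + es h * h ^ 5 := by linarith
    simp only
    rw [a', b']
    ring
  have q2 : Sm 5 (fun h => U x y t h * Real.cos h - (ρ t / 2 * h ^ 2 + ρ1 t / 3 * h ^ 3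
      + ((ρ2 t / 8 - ρ t / 24) - ρ t / 4) * h ^ 4
      + ((ρ3 t / 30 - ρ1 t / 30) - ρ1 t / 6) * h ^ 5)) := by
    refine ⟨_, lim2 heU hec (fun z =>
      z.1 * (ρ t / 48 - (ρ2 t / 8 - ρ t / 24) / 2)
      + z.1 ^ 2 * (ρ1 t / 72 - (ρ3 t / 30 - ρ1 t / 30) / 2)
      + z.1 ^ 3 * (ρ2 t / 8 - ρ t / 24) / 24 + z.1 ^ 4 * (ρ3 t / 30 - ρ1 t / 30) / 24
      + z.2.1 * (1 - z.1 ^ 2 / 2 + z.1 ^ 4 / 24 + z.2.2 * z.1 ^ 4)
      + z.2.2 * z.1 * (ρ t / 2 + ρ1 t / 3 * z.1 + (ρ2 t / 8 - ρ t / 24) * z.1 ^ 2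
        + (ρ3 t / 30 - ρ1 t / 30) * z.1 ^ 3)) (by fun_prop) (by simp), fun h => ?_⟩
    have a := hU h
    have b := hco h
    have a' : U x y t h = (ρ t / 2 * h ^ 2 + ρ1 t / 3 * h ^ 3
      + (ρ2 t / 8 - ρ t / 24) * h ^ 4 + (ρ3 t / 30 - ρ1 t / 30) * h ^ 5) + eU h * h ^ 5 := by
      linarith
    have b' : Real.cos h = 1 - h ^ 2 / 2 + h ^ 4 / 24 + ec h * h ^ 4 := by linarith
    simp only
    rw [a', b']
    ring
  exact (q1.sub q2).congr fun h => by ring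

lemma sm_J (t : ℝ) : Sm 6 (fun h => Jf x y ρ t h - (ρ t ^ 2 / 6 * h ^ 3
    + ρ t * ρ1 t / 6 * h ^ 4
    + (7 * ρ t * ρ2 t / 120 - ρ t ^ 2 / 120 + ρ1 t ^ 2 / 30) * h ^ 5
    + (11 * ρ t * ρ3 t / 720 + ρ1 t * ρ2 t / 48 - ρ t * ρ1 t / 120) * h ^ 6)) := by
  obtain ⟨eW, heW, hW⟩ := sm_W hx hy h1 h2 h3 hc t
  obtain ⟨er, her, hr⟩ := sm_rho h1 h2 h3 hc t
  have hρ : Continuous ρ := continuous_iff_continuousAt.mpr fun t => (h1 t).continuousAt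
  have q : Sm 5 (fun h => ρ (t + h) * (V x y t h * Real.sin h - U x y t h * Real.cos h)
      - (ρ t ^ 2 / 2 * h ^ 2 + 2 * ρ t * ρ1 t / 3 * h ^ 3
      + (7 * ρ t * ρ2 t / 24 - ρ t ^ 2 / 24 + ρ1 t ^ 2 / 6) * h ^ 4
      + (11 * ρ t * ρ3 t / 120 + ρ1 t * ρ2 t / 8 - ρ t * ρ1 t / 20) * h ^ 5)) := by
    refine ⟨_, lim2 heW her (fun z =>
      z.1 * (ρ1 t * (ρ3 t / 120 - ρ1 t / 120) + ρ2 t / 2 * (ρ2 t / 24 - ρ t / 24)
        + ρ3 t / 6 * (ρ1 t / 6))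
      + z.1 ^ 2 * (ρ2 t / 2 * (ρ3 t / 120 - ρ1 t / 120) + ρ3 t / 6 * (ρ2 t / 24 - ρ t / 24))
      + z.1 ^ 3 * (ρ3 t / 6 * (ρ3 t / 120 - ρ1 t / 120))
      + z.2.1 * (ρ t + ρ1 t * z.1 + ρ2 t * z.1 ^ 2 / 2 + ρ3 t * z.1 ^ 3 / 6 + z.2.2 * z.1 ^ 3)
      + z.2.2 * (ρ t / 2 + ρ1 t / 6 * z.1 + (ρ2 t / 24 - ρ t / 24) * z.1 ^ 2
        + (ρ3 t / 120 - ρ1 t / 120) * z.1 ^ 3)) (by fun_prop) (by simp), fun h => ?_⟩
    have a := hW h
    have b := hr h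
    have a' : V x y t h * Real.sin h - U x y t h * Real.cos h = (ρ t / 2 * h ^ 2 + ρ1 t / 6 * h ^ 3
      + (ρ2 t / 24 - ρ t / 24) * h ^ 4 + (ρ3 t / 120 - ρ1 t / 120) * h ^ 5) + eW h * h ^ 5 := by
      linarith
    have b' : ρ (t + h) = ρ t + ρ1 t * h + ρ2 t * h ^ 2 / 2 + ρ3 t * h ^ 3 / 6 + er h * h ^ 3 := by
      linarith
    simp only
    rw [a', b']
    ring
  refine Sm.integrate (fun z => ?_) (by simp [Jf]; ring) q
  refine ((hasDerivAt_Jf hx hy hρ t z).sub (((((hasDerivAt_pow 3 z).const_mul _).add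
    ((hasDerivAt_pow 4 z).const_mul _)).add ((hasDerivAt_pow 5 z).const_mul _)).add
    ((hasDerivAt_pow 6 z).const_mul _))).congr_deriv ?_
  simp
  ring

lemma sm_Ar (t : ℝ) : Sm 6 (fun h => Ar x y ρ t h - (ρ t ^ 2 / 24 * h ^ 3
    + ρ t * ρ1 t / 24 * h ^ 4
    + (ρ t * ρ2 t / 80 + ρ1 t ^ 2 / 90 + ρ t ^ 2 / 240) * h ^ 5
    + (ρ t * ρ3 t / 360 + ρ1 t * ρ2 t / 144 + ρ t * ρ1 t / 240) * h ^ 6)) := by
  obtain ⟨eU, heU, hU⟩ := sm_U hx hy h1 h2 h3 hc t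
  obtain ⟨eS, heS, hS⟩ := sm_S hx hy h1 h2 h3 hc t
  have q : Sm 6 (fun h => S x y t h * U x y t h - (ρ t ^ 2 / 4 * h ^ 3
      + ρ t * ρ1 t / 4 * h ^ 4 + (ρ t * ρ2 t / 12 + ρ1 t ^ 2 / 18) * h ^ 5
      + (ρ t * ρ3 t / 48 + 5 * ρ1 t * ρ2 t / 144) * h ^ 6)) := by
    refine ⟨_, lim2 heS heU (fun z =>
      z.1 * (ρ1 t / 6 * (ρ3 t / 30 - ρ1 t / 30)
        + (ρ t / 24 + ρ2 t / 24) * (ρ2 t / 8 - ρ t / 24)
        + (7 * ρ1 t / 360 + ρ3 t / 120) * (ρ1 t / 3))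
      + z.1 ^ 2 * ((ρ t / 24 + ρ2 t / 24) * (ρ3 t / 30 - ρ1 t / 30)
        + (7 * ρ1 t / 360 + ρ3 t / 120) * (ρ2 t / 8 - ρ t / 24))
      + z.1 ^ 3 * ((7 * ρ1 t / 360 + ρ3 t / 120) * (ρ3 t / 30 - ρ1 t / 30))
      + z.2.1 * (ρ t / 2 + ρ1 t / 3 * z.1 + (ρ2 t / 8 - ρ t / 24) * z.1 ^ 2
        + (ρ3 t / 30 - ρ1 t / 30) * z.1 ^ 3 + z.2.2 * z.1 ^ 3)
      + z.2.2 * (ρ t / 2 + ρ1 t / 6 * z.1 + (ρ t / 24 + ρ2 t / 24) * z.1 ^ 2
        + (7 * ρ1 t / 360 + ρ3 t / 120) * z.1 ^ 3)) (by fun_prop) (by simp), fun h => ?_⟩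
    have a := hS h
    have b := hU h
    have a' : S x y t h = (ρ t / 2 * h + ρ1 t / 6 * h ^ 2
      + (ρ t / 24 + ρ2 t / 24) * h ^ 3 + (7 * ρ1 t / 360 + ρ3 t / 120) * h ^ 4)
        + eS h * h ^ 4 := by
      linarith
    have b' : U x y t h = (ρ t / 2 * h ^ 2 + ρ1 t / 3 * h ^ 3
      + (ρ2 t / 8 - ρ t / 24) * h ^ 4 + (ρ3 t / 30 - ρ1 t / 30) * h ^ 5) + eU h * h ^ 5 := by
      linarith
    simp only
    rw [a', b']
    ring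
  refine ((q.sub (sm_J hx hy h1 h2 h3 hc t)).const_mul (1 / 2)).congr fun h => ?_
  rw [Ar]
  ring

end

end Pool.Agent.X179.PI

namespace Pool.Agent.X179.PI

lemma ode_of_rel_area {r0 r1 r2 r3 κ c α β : ℝ} (h0 : 0 < r0) (hκ : 0 < κ)
    (e1 : (r0 / 2) ^ 2 = α * κ)
    (e2 : 2 * (r0 / 2) * (r1 / 6) = α * (κ * (2 * r1 / (3 * r0)) + c * (r0 / 2 * κ)))
    (e3 : (r1 / 6) ^ 2 + 2 * (r0 / 2) * (r0 / 24 + r2 / 24)
      = α * (κ * (1 / 15 + r2 / (5 * r0) + r1 ^ 2 / (15 * r0 ^ 2))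
      + c * (r0 / 2 * (κ * (2 * r1 / (3 * r0))) + r1 / 6 * κ)) + β * κ ^ 2)
    (e4 : 2 * (r0 / 2) * (7 * r1 / 360 + r3 / 120) + 2 * (r1 / 6) * (r0 / 24 + r2 / 24)
      = α * (κ * (2 * r1 / (45 * r0) + 2 * r3 / (45 * r0) + 2 * r1 * r2 / (45 * r0 ^ 2)
          - 4 * r1 ^ 3 / (405 * r0 ^ 3))
        + c * (r0 / 2 * (κ * (1 / 15 + r2 / (5 * r0) + r1 ^ 2 / (15 * r0 ^ 2)))
          + r1 / 6 * (κ * (2 * r1 / (3 * r0))) + (r0 / 24 + r2 / 24) * κ))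
        + β * (2 * κ * (κ * (2 * r1 / (3 * r0))) + c * (r0 / 2) * κ ^ 2)) :
    9 * r0 ^ 2 * r3 = -36 * r0 ^ 2 * r1 + 45 * r0 * r1 * r2 - 40 * r1 ^ 3 := by
  have hα : α = (r0 / 2) ^ 2 / κ := by
    rw [eq_div_iff hκ.ne']; linarith
  subst hα
  have hcc : c = 0 := by
    field_simp at e2
    have : c * (r0 ^ 2) = 0 := by linarith
    rcases mul_eq_zero.1 this with h | h
    · exact h
    · exact absurd h (by positivity)
  subst hcc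
  obtain ⟨b, rfl⟩ : ∃ b, β = b / κ ^ 2 := ⟨β * κ ^ 2, by field_simp⟩
  have hb : b = (r1 / 6) ^ 2 + 2 * (r0 / 2) * (r0 / 24 + r2 / 24)
      - (r0 / 2) ^ 2 * (1 / 15 + r2 / (5 * r0) + r1 ^ 2 / (15 * r0 ^ 2)) := by
    rw [e3]
    field_simp
    ring
  subst hb
  field_simp at e4
  ring_nf at e4 ⊢
  linarith

theorem area_ode {x y ρ ρ1 ρ2 ρ3 : ℝ → ℝ} (ho : Oval x y ρ)
    (h1 : ∀ t, HasDerivAt ρ (ρ1 t) t) (h2 : ∀ t, HasDerivAt ρ1 (ρ2 t) t)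
    (h3 : ∀ t, HasDerivAt ρ2 (ρ3 t) t) (hc : Continuous ρ3) {t : ℝ}
    (hp : ProjectiveAt x y (areaCurve x y ρ) t) :
    9 * ρ t ^ 2 * ρ3 t = -36 * ρ t ^ 2 * ρ1 t + 45 * ρ t * ρ1 t * ρ2 t - 40 * ρ1 t ^ 3 := by
  have hpos := ho.pos t
  have hρ : Continuous ρ := continuous_iff_continuousAt.mpr fun t => (h1 t).continuousAt
  have hm : 0 < ρ t ^ 2 / 24 := by positivity
  have hκ : 0 < ((ρ t ^ 2 / 24) ^ 2) ^ ((1 : ℝ) / 3) := Real.rpow_pos_of_pos (by positivity) _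
  have hA := sm_Ar ho.dx ho.dy h1 h2 h3 hc t
  have hA' : Sm 6 fun h => Ar x y ρ t h - (ρ t ^ 2 / 24 * h ^ 3
      + ρ t ^ 2 / 24 * (ρ1 t / ρ t) * h ^ 4
      + ρ t ^ 2 / 24 * (4 * ρ1 t ^ 2 / (15 * ρ t ^ 2) + 1 / 10 + 3 * ρ2 t / (10 * ρ t)) * h ^ 5
      + ρ t ^ 2 / 24 * (ρ1 t / (10 * ρ t) + ρ3 t / (15 * ρ t)
        + ρ1 t * ρ2 t / (6 * ρ t ^ 2)) * h ^ 6) := by
    refine hA.congr fun h => ?_
    field_simp
    ring
  have hD := cube_exp hκ (cbrt_cube (ρ t ^ 2 / 24)) hA'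
    (δ1 := 2 * ρ1 t / (3 * ρ t))
    (δ2 := 1 / 15 + ρ2 t / (5 * ρ t) + ρ1 t ^ 2 / (15 * ρ t ^ 2))
    (δ3 := 2 * ρ1 t / (45 * ρ t) + 2 * ρ3 t / (45 * ρ t) + 2 * ρ1 t * ρ2 t / (45 * ρ t ^ 2)
          - 4 * ρ1 t ^ 3 / (405 * ρ t ^ 3))
    (by field_simp)
    (by field_simp; ring)
    (by field_simp; ring)
  have hcU : Continuous (U x y t) :=
    continuous_iff_continuousAt.mpr fun h => (hasDerivAt_U ho.dx ho.dy t h).continuousAt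
  have hcV : Continuous (V x y t) :=
    continuous_iff_continuousAt.mpr fun h => (hasDerivAt_V ho.dx ho.dy t h).continuousAt
  have hcJ : Continuous (Jf x y ρ t) :=
    continuous_iff_continuousAt.mpr fun h => (hasDerivAt_Jf ho.dx ho.dy hρ t h).continuousAt
  have hArc : ∀ᶠ h in 𝓝 (0 : ℝ), ContinuousAt (Ar x y ρ t) h := by
    filter_upwards [sin_ne_zero_near] with h hs
    by_cases h0 : h = 0
    · subst h0
      -- continuity at `0` from the expansion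
      have := hA.tendsto
      have h2 : Tendsto (fun h => ρ t ^ 2 / 24 * h ^ 3 + ρ t * ρ1 t / 24 * h ^ 4
          + (ρ t * ρ2 t / 80 + ρ1 t ^ 2 / 90 + ρ t ^ 2 / 240) * h ^ 5
          + (ρ t * ρ3 t / 360 + ρ1 t * ρ2 t / 144 + ρ t * ρ1 t / 240) * h ^ 6) (𝓝 0) (𝓝 0) := by
        have : Continuous (fun h : ℝ => ρ t ^ 2 / 24 * h ^ 3 + ρ t * ρ1 t / 24 * h ^ 4
          + (ρ t * ρ2 t / 80 + ρ1 t ^ 2 / 90 + ρ t ^ 2 / 240) * h ^ 5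
          + (ρ t * ρ3 t / 360 + ρ1 t * ρ2 t / 144 + ρ t * ρ1 t / 240) * h ^ 6) := by fun_prop
        have h5 := this.tendsto 0
        simpa using h5
      have h3 := this.add h2
      have h4 : Ar x y ρ t 0 = 0 := by simp [Ar, Jf, S, U, V]; ring
      rw [ContinuousAt, h4]
      simpa using h3
    · have hs' := hs h0
      have : Ar x y ρ t = fun h => ((V x y t h - U x y t h * Real.cos h / Real.sin h)
          * U x y t h - Jf x y ρ t h) / 2 := by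
        funext h; rw [Ar, S]
      rw [this]
      exact (((hcV.continuousAt.sub ((hcU.continuousAt.mul Real.continuous_cos.continuousAt).div
        Real.continuous_sin.continuousAt hs')).mul hcU.continuousAt).sub
        hcJ.continuousAt).div_const 2
  obtain ⟨c, α, β, e1, e2, e3, e4⟩ := rel_of_leaves hp
    (D := fun h => (Ar x y ρ t h ^ 2) ^ ((1 : ℝ) / 3)) (s := S x y t)
    (g := fun D => Real.sqrt (D ^ 3)) hκ
    (by positivity : 0 < ρ t / 2)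
    (by
      filter_upwards [hArc] with h hh
      exact cbrt_continuous hh)
    hD (sm_S ho.dx ho.dy h1 h2 h3 hc t)
    (by
      filter_upwards [sin_ne_zero_near, Metric.ball_mem_nhds (0 : ℝ) Real.pi_pos,
        sign_of_cubic hm hA] with h hs hb hsign h0 hD
      rw [Metric.mem_ball, Real.dist_eq, sub_zero, abs_lt] at hb
      have hsh := hs h0
      rw [sqrt_cbrt]
      rcases lt_or_gt_of_ne h0 with k | k
      · have hn := hsign.1 k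
        refine ⟨abs_pos.2 hn.ne, t + h, t, -R x y t h, -S x y t h, by linarith, by linarith,
          tanPt_S x y t h hsh, by rw [neg_neg], ?_⟩
        rw [abs_of_neg hn, capArea_swap, capArea_eq]
      · have hn := hsign.2 k
        refine ⟨abs_pos.2 hn.ne', t, t + h, S x y t h, R x y t h, by linarith, by linarith,
          rfl, tanPt_S x y t h hsh, ?_⟩
        rw [abs_of_pos hn, capArea_eq])
  exact ode_of_rel_area hpos hκ e1 e2 e3 e4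

end Pool.Agent.X179.PI
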