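import Pool.Agent.X179.PI.Aff

/-!
Projective involutions and area curves.
-/

set_option autoImplicit false

open Filter Topology Set

namespace Pool.Agent.X179.PI

theorem exists_affParam {x y ρ ρ1 w : ℝ → ℝ} (ho : Oval x y ρ)
    (hw : ∀ t, 0 < w t) (hwρ : ∀ t, w t ^ 3 * ρ t = 1)
    (hwd : ∀ t, HasDerivAt w (-(1 / 3) * w t ^ 4 * ρ1 t) t) {p q r : ℝ}
    (hq : ∀ t, w t ^ 2 = p * Real.cos t ^ 2 + 2 * q * (Real.sin t * Real.cos t)
        + r * Real.sin t ^ 2) :
    ∃ (φ f : ℝ → ℝ) (u v l m n : ℝ), AffParam x y ρ φ f u v l m n := by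
  obtain ⟨hp, hΔ, u, v, hxy⟩ := ellipse_param ho hw hwρ hwd hq
  set Δ := p * r - q ^ 2 with hΔdef
  set σ := Real.sqrt p with hσ
  set η := Real.sqrt Δ with hη
  have hσ0 : 0 < σ := Real.sqrt_pos.2 hp
  have hη0 : 0 < η := Real.sqrt_pos.2 hΔ
  have hσ2 : σ ^ 2 = p := Real.sq_sqrt hp.le
  have hη2 : η ^ 2 = Δ := Real.sq_sqrt hΔ.le
  have hww : ∀ t, w t * (-(1 / 3) * w t ^ 4 * ρ1 t)
      = (r - p) * (Real.sin t * Real.cos t) + q * (Real.cos t ^ 2 - Real.sin t ^ 2) := by
    intro t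
    have a1 := (hwd t).pow 2
    have a2 := ((((Real.hasDerivAt_cos t).pow 2).const_mul p).add
      (((Real.hasDerivAt_sin t).mul (Real.hasDerivAt_cos t)).const_mul (2 * q))).add
      (((Real.hasDerivAt_sin t).pow 2).const_mul r)
    have a3 := (a2.congr_of_eventuallyEq (f₁ := fun t => w t ^ 2)
      (Eventually.of_forall fun s => by simpa using hq s)).unique a1
    norm_num at a3
    linarith
  have hwc : Continuous w := continuous_iff_continuousAt.mpr fun t => (hwd t).continuousAt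
  set f : ℝ → ℝ := fun t => η / w t ^ 2 with hf
  have hfc : Continuous f := continuous_const.div (hwc.pow 2) fun t => pow_ne_zero 2 (hw t).ne'
  set φ : ℝ → ℝ := fun t => ∫ θ in (0 : ℝ)..t, f θ with hφ
  have dφ : ∀ t, HasDerivAt φ (f t) t := fun t => (hfc.integral_hasStrictDerivAt 0 t).hasDerivAt
  have φ0 : φ 0 = 0 := by simp [hφ]
  set E1 : ℝ → ℝ := fun t => (p * Real.cos t + q * Real.sin t) / (σ * w t) with hE1
  set E2 : ℝ → ℝ := fun t => η * Real.sin t / (σ * w t) with hE2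
  have d1 : ∀ t, HasDerivAt E1 (-(f t * E2 t)) t := by
    intro t
    have hwt := (hw t).ne'
    have a1 := (((Real.hasDerivAt_cos t).const_mul p).add
        ((Real.hasDerivAt_sin t).const_mul q)).div ((hwd t).const_mul σ)
          (mul_ne_zero hσ0.ne' hwt)
    refine a1.congr_deriv ?_
    have e := hww t
    have e2 := hq t
    have e3 := Real.sin_sq_add_cos_sq t
    simp only [Pi.add_apply, hf, hE2]
    have key : ((p * -Real.sin t + q * Real.cos t) * (σ * w t)
          - (p * Real.cos t + q * Real.sin t) * (σ * (-(1 / 3) * w t ^ 4 * ρ1 t))) * w t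
          = -(σ * η ^ 2 * Real.sin t) := by
      have : ((p * -Real.sin t + q * Real.cos t) * (σ * w t)
          - (p * Real.cos t + q * Real.sin t) * (σ * (-(1 / 3) * w t ^ 4 * ρ1 t))) * w t
          = σ * ((p * -Real.sin t + q * Real.cos t) * w t ^ 2
            - (p * Real.cos t + q * Real.sin t) * (w t * (-(1 / 3) * w t ^ 4 * ρ1 t))) := by ring
      rw [this, e, e2, hη2, hΔdef]
      linear_combination (-(σ) * (p * r - q ^ 2) * Real.sin t) * e3
    have key2 : ((p * -Real.sin t + q * Real.cos t) * (σ * w t)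
          - (p * Real.cos t + q * Real.sin t) * (σ * (-(1 / 3) * w t ^ 4 * ρ1 t)))
          = -(σ * η ^ 2 * Real.sin t) / w t := by
      rw [eq_div_iff hwt]; exact key
    rw [key2]
    field_simp
  have d2 : ∀ t, HasDerivAt E2 (f t * E1 t) t := by
    intro t
    have hwt := (hw t).ne'
    have a1 := ((Real.hasDerivAt_sin t).const_mul η).div ((hwd t).const_mul σ)
          (mul_ne_zero hσ0.ne' hwt)
    refine a1.congr_deriv ?_
    have e := hww t
    have e2 := hq t
    have e3 := Real.sin_sq_add_cos_sq t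
    simp only [hf, hE1]
    have key : (η * Real.cos t * (σ * w t)
          - η * Real.sin t * (σ * (-(1 / 3) * w t ^ 4 * ρ1 t))) * w t
          = σ * η * (p * Real.cos t + q * Real.sin t) := by
      have : (η * Real.cos t * (σ * w t)
          - η * Real.sin t * (σ * (-(1 / 3) * w t ^ 4 * ρ1 t))) * w t
          = σ * η * (Real.cos t * w t ^ 2
            - Real.sin t * (w t * (-(1 / 3) * w t ^ 4 * ρ1 t))) := by ring
      rw [this, e, e2]
      linear_combination (σ * η * (p * Real.cos t + q * Real.sin t)) * e3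
    have key2 : (η * Real.cos t * (σ * w t)
          - η * Real.sin t * (σ * (-(1 / 3) * w t ^ 4 * ρ1 t)))
          = σ * η * (p * Real.cos t + q * Real.sin t) / w t := by
      rw [eq_div_iff hwt]; exact key
    rw [key2]
    field_simp
  -- comparison with `cos φ`, `sin φ`
  have ha : ∀ t, E1 t * Real.cos (φ t) + E2 t * Real.sin (φ t) = 1 := by
    intro t
    have hd : ∀ t, HasDerivAt (fun t => E1 t * Real.cos (φ t) + E2 t * Real.sin (φ t)) 0 t :=
      fun t => (((d1 t).mul (dφ t).cos).add ((d2 t).mul (dφ t).sin)).congr_deriv (by ring)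
    have := is_const_of_deriv_eq_zero (fun t => (hd t).differentiableAt) (fun t => (hd t).deriv) t 0
    rw [this, φ0]
    simp only [hE1, hE2]
    have hw0 : w 0 ^ 2 = p := by simpa using hq 0
    have hw0' : w 0 = σ := by
      rw [hσ, ← hw0]; exact (Real.sqrt_sq (hw 0).le).symm
    rw [hw0']
    simp
    rw [← hσ2]
    field_simp
  have hb : ∀ t, E2 t * Real.cos (φ t) - E1 t * Real.sin (φ t) = 0 := by
    intro t
    have hd : ∀ t, HasDerivAt (fun t => E2 t * Real.cos (φ t) - E1 t * Real.sin (φ t)) 0 t :=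
      fun t => (((d2 t).mul (dφ t).cos).sub ((d1 t).mul (dφ t).sin)).congr_deriv (by ring)
    have := is_const_of_deriv_eq_zero (fun t => (hd t).differentiableAt) (fun t => (hd t).deriv) t 0
    rw [this, φ0]
    simp [hE2]
  have c1 : ∀ t, E1 t = Real.cos (φ t) := by
    intro t
    have := Real.sin_sq_add_cos_sq (φ t)
    linear_combination Real.cos (φ t) * ha t - Real.sin (φ t) * hb t - E1 t * this
  have c2 : ∀ t, E2 t = Real.sin (φ t) := by
    intro t
    have := Real.sin_sq_add_cos_sq (φ t)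
    linear_combination Real.sin (φ t) * ha t + Real.cos (φ t) * hb t - E2 t * this
  refine ⟨φ, f, u, v, σ / Δ, σ * q / (p * Δ), σ * η / (p * Δ), ho, by positivity, by positivity,
    fun t => by have := hw t; simp only [hf]; positivity, dφ, fun t => ?_, fun t => ?_⟩
  · rw [(hxy t).1, ← c1 t]
    simp only [hE1]
    have := (hw t).ne'
    field_simp
  · rw [(hxy t).2, ← c1 t, ← c2 t]
    simp only [hE1, hE2]
    have h1 := (hw t).ne'
    have h2 : σ * η / (p * Δ) * (η * Real.sin t / (σ * w t))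
        = η ^ 2 * Real.sin t / (p * Δ * w t) := by
      field_simp
    rw [h2, hη2]
    field_simp
    rw [hΔdef]
    ring

theorem area_main {x y ρ : ℝ → ℝ} (ho : Oval x y ρ)
    (hp : ∀ t, ProjectiveAt x y (areaCurve x y ρ) t) :
    ∃ u v a b c : ℝ, 0 < a ∧ b ^ 2 < a * c ∧
      (∀ z : ℝ × ℝ, z ∈ range (fun θ => (x θ, y θ)) ↔
        a * (z.1 - u) ^ 2 + 2 * b * (z.1 - u) * (z.2 - v) + c * (z.2 - v) ^ 2 = 1) ∧
      ∀ A > 0, ∃ k > 1, ∀ z : ℝ × ℝ, z ∈ areaCurve x y ρ A ↔
        a * (z.1 - u) ^ 2 + 2 * b * (z.1 - u) * (z.2 - v) + c * (z.2 - v) ^ 2 = k := by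
  obtain ⟨ρ1, ρ2, ρ3, h1, h2, h3, hc⟩ := ho.derivs
  obtain ⟨w, hw, hwρ, hwd, p, q, r, hq⟩ := ode_area ho.pos h1 h2 h3
    fun t => area_ode ho h1 h2 h3 hc (hp t)
  obtain ⟨φ, f, u, v, l, m, n, H⟩ := exists_affParam ho hw hwρ hwd hq
  have hl := H.l0
  have hn := H.n0
  have hquad : ∀ z : ℝ × ℝ, ((z.1 - u) / l) ^ 2 + (((z.2 - v) - m * ((z.1 - u) / l)) / n) ^ 2
      = (1 / l ^ 2 + m ^ 2 / (l ^ 2 * n ^ 2)) * (z.1 - u) ^ 2
        + 2 * (-(m / (l * n ^ 2))) * (z.1 - u) * (z.2 - v) + 1 / n ^ 2 * (z.2 - v) ^ 2 := by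
    intro z
    field_simp
    ring
  refine ⟨u, v, 1 / l ^ 2 + m ^ 2 / (l ^ 2 * n ^ 2), -(m / (l * n ^ 2)), 1 / n ^ 2, by positivity,
    ?_, fun z => ?_, fun A hA => ?_⟩
  · have : (1 / l ^ 2 + m ^ 2 / (l ^ 2 * n ^ 2)) * (1 / n ^ 2) - (-(m / (l * n ^ 2))) ^ 2
        = 1 / (l ^ 2 * n ^ 2) := by
      field_simp
      ring
    have h0 : 0 < 1 / (l ^ 2 * n ^ 2) := by positivity
    linarith
  · rw [H.range_eq, hquad]
  · obtain ⟨s, hs0, hs⟩ := H.leaf hA
    refine ⟨1 + s ^ 2, by nlinarith [sq_pos_of_pos hs0], fun z => ?_⟩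
    rw [hs, hquad]

end Pool.Agent.X179.PI
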