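import Pool.Agent.X179.PI.Defs

/-!
Elementary facts on ovals and circles.
-/

set_option autoImplicit false

open Filter Topology Set

namespace Pool.Agent.X179.PI

lemma Oval.per_rho {x y ρ : ℝ → ℝ} (ho : Oval x y ρ) : Function.Periodic ρ (2 * Real.pi) := by
  intro θ
  have hd : ∀ {f f' : ℝ → ℝ}, Function.Periodic f (2 * Real.pi) → (∀ t, HasDerivAt f (f' t) t) →
      f' (θ + 2 * Real.pi) = f' θ := by
    intro f f' hp hf
    have e := (hf (θ + 2 * Real.pi)).comp θ ((hasDerivAt_id' θ).add_const (2 * Real.pi))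
    have e2 : HasDerivAt f (f' (θ + 2 * Real.pi) * 1) θ := by
      refine e.congr_of_eventuallyEq (Eventually.of_forall fun z => ?_)
      exact (hp z).symm
    have := e2.unique (hf θ)
    simpa using this
  have e1 := hd ho.perx ho.dx
  have e2 := hd ho.pery ho.dy
  simp only [Real.sin_add_two_pi, Real.cos_add_two_pi] at e1 e2
  have e3 := Real.sin_sq_add_cos_sq θ
  linear_combination (-Real.sin θ) * e1 + Real.cos θ * e2
    - (ρ (θ + 2 * Real.pi) - ρ θ) * e3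

lemma Oval.derivs {x y ρ : ℝ → ℝ} (ho : Oval x y ρ) : ∃ ρ1 ρ2 ρ3 : ℝ → ℝ,
    (∀ t, HasDerivAt ρ (ρ1 t) t) ∧ (∀ t, HasDerivAt ρ1 (ρ2 t) t) ∧
    (∀ t, HasDerivAt ρ2 (ρ3 t) t) ∧ Continuous ρ3 := by
  have s3 := ho.smooth
  have e3 : (3 : WithTop ℕ∞) = 2 + 1 := by norm_num
  rw [e3] at s3
  obtain ⟨d1, -, s2⟩ := contDiff_succ_iff_deriv.1 s3
  have e2 : (2 : WithTop ℕ∞) = 1 + 1 := by norm_num
  rw [e2] at s2
  obtain ⟨d2, -, s1⟩ := contDiff_succ_iff_deriv.1 s2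
  have e1 : (1 : WithTop ℕ∞) = 0 + 1 := by norm_num
  rw [e1] at s1
  obtain ⟨d3, -, s0⟩ := contDiff_succ_iff_deriv.1 s1
  exact ⟨deriv ρ, deriv (deriv ρ), deriv (deriv (deriv ρ)), fun t => (d1 t).hasDerivAt,
    fun t => (d2 t).hasDerivAt, fun t => (d3 t).hasDerivAt, s0.continuous⟩

lemma Oval.circle {x y ρ : ℝ → ℝ} (ho : Oval x y ρ) (hc : ∀ t s, ρ t = ρ s) :
    ∃ u v R : ℝ, 0 < R ∧ ∀ θ, x θ = u + R * Real.cos θ ∧ y θ = v + R * Real.sin θ := by
  refine ⟨x 0 - ρ 0, y 0, ρ 0, ho.pos 0, fun θ => ⟨?_, ?_⟩⟩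
  · have hd : ∀ t, HasDerivAt (fun t => x t - ρ 0 * Real.cos t) 0 t := by
      intro t
      refine ((ho.dx t).sub ((Real.hasDerivAt_cos t).const_mul (ρ 0))).congr_deriv ?_
      rw [hc t 0]; ring
    have := is_const_of_deriv_eq_zero (fun t => (hd t).differentiableAt) (fun t => (hd t).deriv) θ 0
    simp at this
    linarith
  · have hd : ∀ t, HasDerivAt (fun t => y t - ρ 0 * Real.sin t) 0 t := by
      intro t
      refine ((ho.dy t).sub ((Real.hasDerivAt_sin t).const_mul (ρ 0))).congr_deriv ?_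
      rw [hc t 0]; ring
    have := is_const_of_deriv_eq_zero (fun t => (hd t).differentiableAt) (fun t => (hd t).deriv) θ 0
    simp at this
    linarith

lemma exists_angle {a b : ℝ} (h : a ^ 2 + b ^ 2 = 1) :
    ∃ θ : ℝ, Real.cos θ = a ∧ Real.sin θ = b := by
  have hn : ‖(⟨a, b⟩ : ℂ)‖ = 1 := by
    have : ‖(⟨a, b⟩ : ℂ)‖ ^ 2 = 1 := by
      rw [← Complex.normSq_eq_norm_sq, Complex.normSq_mk]; linarith
    have h2 : 0 ≤ ‖(⟨a, b⟩ : ℂ)‖ := norm_nonneg _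
    nlinarith
  obtain ⟨θ, hθ⟩ := (Complex.norm_eq_one_iff _).1 hn
  refine ⟨θ, ?_, ?_⟩
  · have := congrArg Complex.re hθ
    rw [Complex.exp_ofReal_mul_I_re] at this
    simpa using this
  · have := congrArg Complex.im hθ
    rw [Complex.exp_ofReal_mul_I_im] at this
    simpa using this

/-- points of a circle -/
lemma exists_angle' {u v R : ℝ} (hR : 0 < R) {z : ℝ × ℝ}
    (h : (z.1 - u) ^ 2 + (z.2 - v) ^ 2 = R ^ 2) :
    ∃ θ : ℝ, z = (u + R * Real.cos θ, v + R * Real.sin θ) := by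
  have : ((z.1 - u) / R) ^ 2 + ((z.2 - v) / R) ^ 2 = 1 := by
    field_simp
    linarith
  obtain ⟨θ, h1, h2⟩ := exists_angle this
  refine ⟨θ, Prod.ext ?_ ?_⟩
  · simp only
    rw [h1]; field_simp; ring
  · simp only
    rw [h2]; field_simp; ring

end Pool.Agent.X179.PI
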