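import Pool.Agent.X179.PI.Circ

/-!
Tangent lines of a circle.
-/

set_option autoImplicit false

open Filter Topology Set

namespace Pool.Agent.X179.PI

section
variable {x y : ℝ → ℝ} {u v R : ℝ}
  (hcirc : ∀ θ, x θ = u + R * Real.cos θ ∧ y θ = v + R * Real.sin θ) {τ : ℝ} (hτ0 : 0 < τ)
  (hτ : τ < Real.pi)
include hcirc hτ0 hτ

lemma circ_pt (θ : ℝ) : tanPt x y θ (R * Real.tan (τ / 2))
      = (u + R / Real.cos (τ / 2) * Real.cos (θ + τ / 2),
        v + R / Real.cos (τ / 2) * Real.sin (θ + τ / 2)) := by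
  have hcos : 0 < Real.cos (τ / 2) := Real.cos_pos_of_mem_Ioo ⟨by linarith, by linarith⟩
  rw [Real.tan_eq_sin_div_cos]
  refine Prod.ext ?_ ?_
  · simp only [tanPt]
    rw [(hcirc θ).1, Real.cos_add]
    field_simp
    ring
  · simp only [tanPt]
    rw [(hcirc θ).2, Real.sin_add]
    field_simp
    ring

lemma circ_pt' (θ : ℝ) : tanPt x y (θ + τ) (-(R * Real.tan (τ / 2)))
      = (u + R / Real.cos (τ / 2) * Real.cos (θ + τ / 2),
        v + R / Real.cos (τ / 2) * Real.sin (θ + τ / 2)) := by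
  have hcos : 0 < Real.cos (τ / 2) := Real.cos_pos_of_mem_Ioo ⟨by linarith, by linarith⟩
  rw [Real.tan_eq_sin_div_cos]
  have eτ : θ + τ / 2 = (θ + τ) - τ / 2 := by ring
  rw [eτ]
  refine Prod.ext ?_ ?_
  · simp only [tanPt]
    rw [(hcirc (θ + τ)).1, Real.cos_sub]
    field_simp
    ring
  · simp only [tanPt]
    rw [(hcirc (θ + τ)).2, Real.sin_sub]
    field_simp
    ring

lemma circ_uniq {θ a a' : ℝ} {z : ℝ × ℝ} (hz : z = tanPt x y θ a)
    (hz' : z = tanPt x y (θ + τ) (-a')) :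
    a = R * Real.tan (τ / 2) ∧ a' = R * Real.tan (τ / 2) ∧
      z = (u + R / Real.cos (τ / 2) * Real.cos (θ + τ / 2),
        v + R / Real.cos (τ / 2) * Real.sin (θ + τ / 2)) := by
  have k := hz.symm.trans hz'
  have k2 := (circ_pt hcirc hτ0 hτ θ).trans (circ_pt' hcirc hτ0 hτ θ).symm
  have p1 := congrArg Prod.fst k
  have p2 := congrArg Prod.snd k
  have q1 := congrArg Prod.fst k2
  have q2 := congrArg Prod.snd k2
  simp only [tanPt] at p1 p2 q1 q2
  have hst : 0 < Real.sin τ := Real.sin_pos_of_pos_of_lt_pi hτ0 hτ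
  have e3 : Real.sin τ = Real.sin (θ + τ) * Real.cos θ - Real.cos (θ + τ) * Real.sin θ := by
    rw [← Real.sin_sub]; congr 1; ring
  have ha : a = R * Real.tan (τ / 2) := by
    have : Real.sin τ * (a - R * Real.tan (τ / 2)) = 0 := by
      rw [e3]
      linear_combination Real.cos (θ + τ) * (p1 - q1) + Real.sin (θ + τ) * (p2 - q2)
    rcases mul_eq_zero.1 this with h | h
    · exact absurd h hst.ne'
    · linarith
  have ha' : a' = R * Real.tan (τ / 2) := by
    have : Real.sin τ * (a' - R * Real.tan (τ / 2)) = 0 := by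
      rw [e3]
      linear_combination -(Real.cos θ * (p1 - q1) + Real.sin θ * (p2 - q2))
    rcases mul_eq_zero.1 this with h | h
    · exact absurd h hst.ne'
    · linarith
  refine ⟨ha, ha', ?_⟩
  rw [hz, ha]
  exact circ_pt hcirc hτ0 hτ θ

end

end Pool.Agent.X179.PI
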