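import Pool.Agent.X179.PI.Tan

/-!
Expansion of the cube root of a square.
-/

set_option autoImplicit false

open Filter Topology Set

namespace Pool.Agent.X179.PI

/-- `D ^ 3 = G` and `G - P ^ 3 = o(h ^ 9)`, `P ~ κ h ^ 2` imply `D - P = o(h ^ 5)` -/
lemma cube_sm {D P G p : ℝ → ℝ} {κ : ℝ} (hκ : 0 < κ) (hD : ∀ h, D h ^ 3 = G h)
    (hP : ∀ h, P h = h ^ 2 * (κ + p h)) (hp : Tendsto p (𝓝 0) (𝓝 0))
    (hG : Sm 9 fun h => G h - P h ^ 3) : Sm 5 fun h => D h - P h := by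
  obtain ⟨e, he, hGe'⟩ := hG
  have hGe : ∀ h, G h - P h ^ 3 = e h * h ^ 9 := hGe'
  have hP0 : P 0 = 0 := by rw [hP]; simp
  have hD0 : D 0 = 0 := by
    have h1 := hGe 0
    rw [hP0, ← hD] at h1
    simp at h1
    exact h1
  -- the bound
  have hbound : ∀ᶠ h in 𝓝 (0 : ℝ), |D h - P h| ≤ (16 / (3 * κ ^ 2)) * |e h| * |h| ^ 5 := by
    have h1 : ∀ᶠ h in 𝓝 (0 : ℝ), -(κ / 2) < p h := (tendsto_order.1 hp).1 _ (by linarith)
    filter_upwards [h1] with h hph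
    by_cases h0 : h = 0
    · subst h0
      rw [hD0, hP0]; simp
    · have e1 : (D h - P h) * (D h ^ 2 + D h * P h + P h ^ 2) = e h * h ^ 9 := by
        rw [← hGe, ← hD]; ring
      have e2 : 3 / 4 * P h ^ 2 ≤ D h ^ 2 + D h * P h + P h ^ 2 := by
        nlinarith [sq_nonneg (D h + P h / 2)]
      have e3 : h ^ 4 * (κ / 2) ^ 2 ≤ P h ^ 2 := by
        rw [hP, mul_pow, ← pow_mul]
        have : (κ / 2) ^ 2 ≤ (κ + p h) ^ 2 := by
          apply pow_le_pow_left₀ (by positivity)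
          linarith
        have h4 : (0 : ℝ) ≤ h ^ 4 := by positivity
        exact mul_le_mul_of_nonneg_left this h4
      have e4 : (3 * κ ^ 2 / 16) * |h| ^ 4 ≤ D h ^ 2 + D h * P h + P h ^ 2 := by
        have : |h| ^ 4 = h ^ 4 := by
          have : |h| ^ 4 = (|h| ^ 2) ^ 2 := by ring
          rw [this, sq_abs]; ring
        rw [this]
        nlinarith
      have h4 : 0 < |h| ^ 4 := by positivity
      have e5 : |D h - P h| * ((3 * κ ^ 2 / 16) * |h| ^ 4) ≤ |e h| * |h| ^ 9 := by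
        calc |D h - P h| * ((3 * κ ^ 2 / 16) * |h| ^ 4)
            ≤ |D h - P h| * (D h ^ 2 + D h * P h + P h ^ 2) :=
              mul_le_mul_of_nonneg_left e4 (abs_nonneg _)
          _ = |D h - P h| * |D h ^ 2 + D h * P h + P h ^ 2| := by
              rw [abs_of_nonneg (a := D h ^ 2 + D h * P h + P h ^ 2)]
              exact le_trans (by positivity) e4
          _ = |e h| * |h| ^ 9 := by rw [← abs_mul, e1, abs_mul, abs_pow]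
      have e6 : |D h - P h| * (3 * κ ^ 2 / 16) ≤ |e h| * |h| ^ 5 := by
        have : |D h - P h| * (3 * κ ^ 2 / 16) * |h| ^ 4 ≤ |e h| * |h| ^ 5 * |h| ^ 4 := by
          calc |D h - P h| * (3 * κ ^ 2 / 16) * |h| ^ 4
              = |D h - P h| * ((3 * κ ^ 2 / 16) * |h| ^ 4) := by ring
            _ ≤ |e h| * |h| ^ 9 := e5
            _ = |e h| * |h| ^ 5 * |h| ^ 4 := by ring
        exact le_of_mul_le_mul_right this h4
      have hk : 0 < 3 * κ ^ 2 / 16 := by positivity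
      calc |D h - P h| = (16 / (3 * κ ^ 2)) * (|D h - P h| * (3 * κ ^ 2 / 16)) := by
            field_simp
        _ ≤ (16 / (3 * κ ^ 2)) * (|e h| * |h| ^ 5) :=
            mul_le_mul_of_nonneg_left e6 (by positivity)
        _ = _ := by ring
  refine Sm.of_ev (e := fun h => if h = 0 then 0 else (D h - P h) / h ^ 5) ?_ (by rw [hD0, hP0]; simp)
    (Eventually.of_forall fun h h0 => ?_)
  · have hlim : Tendsto (fun h => (16 / (3 * κ ^ 2)) * |e h|) (𝓝 0) (𝓝 0) := by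
      have := (he.abs).const_mul (16 / (3 * κ ^ 2))
      simpa using this
    refine squeeze_zero_norm' ?_ hlim
    filter_upwards [hbound] with h hb
    by_cases h0 : h = 0
    · simp only [h0, if_true, norm_zero]; positivity
    · simp only [h0, if_false]
      rw [Real.norm_eq_abs, abs_div, abs_pow, div_le_iff₀ (by positivity)]
      exact hb
  · simp only [h0, if_false]
    field_simp

lemma cbrt_cube (a : ℝ) : ((a ^ 2) ^ ((1 : ℝ) / 3)) ^ 3 = a ^ 2 := by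
  rw [← Real.rpow_natCast, ← Real.rpow_mul (sq_nonneg a)]
  norm_num

/-- expansion of `(Λ ^ 2) ^ (1 / 3)` -/
lemma cube_exp {Λ : ℝ → ℝ} {m κ l1 l2 l3 δ1 δ2 δ3 : ℝ} (hκ : 0 < κ) (hm : κ ^ 3 = m ^ 2)
    (hΛ : Sm 6 fun h => Λ h - (m * h ^ 3 + m * l1 * h ^ 4 + m * l2 * h ^ 5 + m * l3 * h ^ 6))
    (g1 : 3 * δ1 = 2 * l1) (g2 : 3 * δ2 + 3 * δ1 ^ 2 = 2 * l2 + l1 ^ 2)
    (g3 : 3 * δ3 + 6 * δ1 * δ2 + δ1 ^ 3 = 2 * l3 + 2 * l1 * l2) :
    Sm 5 fun h => (Λ h ^ 2) ^ ((1 : ℝ) / 3)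
      - (κ * h ^ 2 + κ * δ1 * h ^ 3 + κ * δ2 * h ^ 4 + κ * δ3 * h ^ 5) := by
  obtain ⟨e, he, hΛe⟩ := hΛ
  refine cube_sm (κ := κ) (G := fun h => Λ h ^ 2)
    (p := fun h => κ * δ1 * h + κ * δ2 * h ^ 2 + κ * δ3 * h ^ 3) hκ
    (fun h => cbrt_cube (Λ h)) (fun h => by ring)
    (lim2 he he (fun z => κ * δ1 * z.1 + κ * δ2 * z.1 ^ 2 + κ * δ3 * z.1 ^ 3) (by fun_prop)
      (by simp)) ?_
  refine ⟨_, lim2 he he (fun z => z.1 * m ^ 2 * (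
      ((l2 ^ 2 + 2 * l1 * l3) + 2 * l2 * l3 * z.1 + l3 ^ 2 * z.1 ^ 2)
      - ((3 * δ2 ^ 2 + 6 * δ1 * δ3 + 3 * δ1 ^ 2 * δ2)
        + (6 * δ2 * δ3 + 3 * δ1 ^ 2 * δ3 + 3 * δ1 * δ2 ^ 2) * z.1
        + (3 * δ3 ^ 2 + 6 * δ1 * δ2 * δ3 + δ2 ^ 3) * z.1 ^ 2
        + (3 * δ1 * δ3 ^ 2 + 3 * δ2 ^ 2 * δ3) * z.1 ^ 3
        + 3 * δ2 * δ3 ^ 2 * z.1 ^ 4 + δ3 ^ 3 * z.1 ^ 5))
      + 2 * m * z.2.1 * (1 + l1 * z.1 + l2 * z.1 ^ 2 + l3 * z.1 ^ 3) + z.2.1 ^ 2 * z.1 ^ 3)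
    (by fun_prop) (by simp), fun h => ?_⟩
  have a := hΛe h
  have a' : Λ h = (m * h ^ 3 + m * l1 * h ^ 4 + m * l2 * h ^ 5 + m * l3 * h ^ 6)
      + e h * h ^ 6 := by linarith
  simp only
  rw [a']
  linear_combination (-(h ^ 6 * (1 + δ1 * h + δ2 * h ^ 2 + δ3 * h ^ 3) ^ 3)) * hm
    - m ^ 2 * h ^ 7 * g1 - m ^ 2 * h ^ 8 * g2 - m ^ 2 * h ^ 9 * g3

lemma cbrt_continuous {Λ : ℝ → ℝ} {h : ℝ} (hΛ : ContinuousAt Λ h) :
    ContinuousAt (fun h => (Λ h ^ 2) ^ ((1 : ℝ) / 3)) h :=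
  (hΛ.pow 2).rpow_const (Or.inr (by norm_num))

/-- `√(D ^ 3) = |Λ|` -/
lemma sqrt_cbrt (a : ℝ) : Real.sqrt (((a ^ 2) ^ ((1 : ℝ) / 3)) ^ 3) = |a| := by
  rw [cbrt_cube, Real.sqrt_sq_eq_abs]

end Pool.Agent.X179.PI
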