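import Mathlib

/-!
Ovals parametrised by the normal angle, and projective tangent involutions.
-/

set_option autoImplicit false

open Set

namespace Pool.Agent.X179.PI

/-- `γ = (x, y)` is a closed strictly convex curve, parametrised by the angle `θ` of its outer unit
normal `(cos θ, sin θ)`: the tangent vector is `ρ θ • (- sin θ, cos θ)`, where the radius of
curvature `ρ` is positive and three times continuously differentiable, and `γ` closes up after one
turn of the normal. -/
structure Oval (x y ρ : ℝ → ℝ) : Prop where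
  smooth : ContDiff ℝ 3 ρ
  pos : ∀ θ, 0 < ρ θ
  perx : Function.Periodic x (2 * Real.pi)
  pery : Function.Periodic y (2 * Real.pi)
  dx : ∀ θ, HasDerivAt x (-(ρ θ * Real.sin θ)) θ
  dy : ∀ θ, HasDerivAt y (ρ θ * Real.cos θ) θ

/-- the point with coordinate `s` on the tangent line of `γ` at `γ(t)` (coordinate `0` at `γ(t)`) -/
noncomputable def tanPt (x y : ℝ → ℝ) (t s : ℝ) : ℝ × ℝ :=
  (x t - s * Real.sin t, y t + s * Real.cos t)

/-- The involution defined by the leaves `L r`, `r > 0`, on the tangent line of `γ` at `γ(t)` is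
projective near `γ(t)`: one nondegenerate map `s ↦ (a s + b) / (c s + d)` exchanges the two points,
one on each side of `γ(t)` and both near `γ(t)`, at which the tangent line meets a leaf. -/
def ProjectiveAt (x y : ℝ → ℝ) (L : ℝ → Set (ℝ × ℝ)) (t : ℝ) : Prop :=
  ∃ a b c d δ : ℝ, a * d - b * c ≠ 0 ∧ 0 < δ ∧ ∀ r > 0, ∀ s s' : ℝ,
    -δ < s → s < 0 → 0 < s' → s' < δ → tanPt x y t s ∈ L r → tanPt x y t s' ∈ L r →
      (c * s + d) * s' = a * s + b ∧ (c * s' + d) * s = a * s' + b

end Pool.Agent.X179.PI
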