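import Pool.Agent.X179.PI.Area

/-!
The equation of the area curves and ellipses.
-/

set_option autoImplicit false

open Filter Topology Set

namespace Pool.Agent.X179.PI

theorem ode_area {ρ ρ1 ρ2 ρ3 : ℝ → ℝ}
    (hpos : ∀ t, 0 < ρ t) (h1 : ∀ t, HasDerivAt ρ (ρ1 t) t) (h2 : ∀ t, HasDerivAt ρ1 (ρ2 t) t)
    (h3 : ∀ t, HasDerivAt ρ2 (ρ3 t) t)
    (ode : ∀ t, 9 * ρ t ^ 2 * ρ3 t
      = -36 * ρ t ^ 2 * ρ1 t + 45 * ρ t * ρ1 t * ρ2 t - 40 * ρ1 t ^ 3) :
    ∃ w : ℝ → ℝ, (∀ t, 0 < w t) ∧ (∀ t, w t ^ 3 * ρ t = 1) ∧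
      (∀ t, HasDerivAt w (-(1 / 3) * w t ^ 4 * ρ1 t) t) ∧
      ∃ p q r : ℝ, ∀ t, w t ^ 2 = p * Real.cos t ^ 2 + 2 * q * (Real.sin t * Real.cos t)
        + r * Real.sin t ^ 2 := by
  obtain ⟨w, hw, hwρ, hwd⟩ := exists_w hpos h1
  refine ⟨w, hw, hwρ, hwd, ?_⟩
  set g1 : ℝ → ℝ := fun t => -(2 / 3) * w t ^ 5 * ρ1 t with hg1
  set g2 : ℝ → ℝ := fun t => 10 / 9 * w t ^ 8 * ρ1 t ^ 2 - 2 / 3 * w t ^ 5 * ρ2 t with hg2
  have d0 : ∀ t, HasDerivAt (fun t => w t ^ 2) (g1 t) t := by
    intro t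
    refine ((hwd t).pow 2).congr_deriv ?_
    simp only [hg1]
    norm_num
    ring
  have d1 : ∀ t, HasDerivAt g1 (g2 t) t := by
    intro t
    refine ((((hwd t).pow 5).const_mul (-(2 / 3))).mul (h2 t)).congr_deriv ?_
    simp only [hg2, Pi.pow_apply]
    norm_num
    ring
  have d2 : ∀ t, HasDerivAt g2 (-4 * g1 t) t := by
    intro t
    have a1 := (((hwd t).pow 8).const_mul (10 / 9)).mul ((h2 t).pow 2)
    have a2 := (((hwd t).pow 5).const_mul (2 / 3)).mul (h3 t)
    refine (a1.sub a2).congr_deriv ?_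
    have e := ode t
    have f := hwρ t
    have hwt := (hw t).ne'
    have hr : ρ t = 1 / w t ^ 3 := by field_simp; linarith
    rw [hr] at e
    have e' : 9 * ρ3 t = -36 * ρ1 t + 45 * ρ1 t * ρ2 t * w t ^ 3 - 40 * ρ1 t ^ 3 * w t ^ 6 := by
      field_simp at e
      linarith
    simp only [hg1, Pi.pow_apply]
    norm_num
    linear_combination (-2 / 27 * w t ^ 5) * e'
  -- the constant
  set K := g2 0 + 4 * w 0 ^ 2 with hK
  have hKt : ∀ t, g2 t + 4 * w t ^ 2 = K := by
    intro t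
    have hd : ∀ t, HasDerivAt (fun t => g2 t + 4 * w t ^ 2) 0 t := fun t =>
      ((d2 t).add ((d0 t).const_mul 4)).congr_deriv (by ring)
    exact is_const_of_deriv_eq_zero (fun t => (hd t).differentiableAt) (fun t => (hd t).deriv) t 0
  have s2 : ∀ t : ℝ, HasDerivAt (fun t => Real.sin (2 * t)) (2 * Real.cos (2 * t)) t := by
    intro t
    have := ((hasDerivAt_id' t).const_mul 2).sin
    refine this.congr_deriv ?_
    ring
  have c2 : ∀ t : ℝ, HasDerivAt (fun t => Real.cos (2 * t)) (-2 * Real.sin (2 * t)) t := by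
    intro t
    have := ((hasDerivAt_id' t).const_mul 2).cos
    refine this.congr_deriv ?_
    ring
  set P := (w 0 ^ 2 - K / 4) * Real.cos (2 * 0) - g1 0 / 2 * Real.sin (2 * 0) with hP
  set Q := (w 0 ^ 2 - K / 4) * Real.sin (2 * 0) + g1 0 / 2 * Real.cos (2 * 0) with hQ
  have hPt : ∀ t, (w t ^ 2 - K / 4) * Real.cos (2 * t) - g1 t / 2 * Real.sin (2 * t) = P := by
    intro t
    have hd : ∀ t, HasDerivAt (fun t => (w t ^ 2 - K / 4) * Real.cos (2 * t)
        - g1 t / 2 * Real.sin (2 * t)) 0 t := fun t =>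
      ((((d0 t).sub_const (K / 4)).mul (c2 t)).sub (((d1 t).div_const 2).mul (s2 t))).congr_deriv
        (by linear_combination (-Real.sin (2 * t) / 2) * hKt t)
    exact is_const_of_deriv_eq_zero (fun t => (hd t).differentiableAt) (fun t => (hd t).deriv) t 0
  have hQt : ∀ t, (w t ^ 2 - K / 4) * Real.sin (2 * t) + g1 t / 2 * Real.cos (2 * t) = Q := by
    intro t
    have hd : ∀ t, HasDerivAt (fun t => (w t ^ 2 - K / 4) * Real.sin (2 * t)
        + g1 t / 2 * Real.cos (2 * t)) 0 t := fun t =>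
      ((((d0 t).sub_const (K / 4)).mul (s2 t)).add (((d1 t).div_const 2).mul (c2 t))).congr_deriv
        (by linear_combination (Real.cos (2 * t) / 2) * hKt t)
    exact is_const_of_deriv_eq_zero (fun t => (hd t).differentiableAt) (fun t => (hd t).deriv) t 0
  refine ⟨K / 4 + P, Q, K / 4 - P, fun t => ?_⟩
  have e1 := Real.sin_sq_add_cos_sq (2 * t)
  have e2 := Real.sin_sq_add_cos_sq t
  have e3 : w t ^ 2 - K / 4 = P * Real.cos (2 * t) + Q * Real.sin (2 * t) := by
    rw [← hPt t, ← hQt t]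
    linear_combination (-(w t ^ 2 - K / 4)) * e1
  have e4 : Real.cos (2 * t) = Real.cos t ^ 2 - Real.sin t ^ 2 := Real.cos_two_mul' t
  have e5 : Real.sin (2 * t) = 2 * Real.sin t * Real.cos t := Real.sin_two_mul t
  rw [e4, e5] at e3
  linear_combination e3 - (K / 4) * e2

/-- positive definiteness -/
lemma pos_def {p q r : ℝ} (h : ∀ t : ℝ, 0 < p * Real.cos t ^ 2
    + 2 * q * (Real.sin t * Real.cos t) + r * Real.sin t ^ 2) : 0 < p ∧ 0 < p * r - q ^ 2 := by
  have hp : 0 < p := by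
    have := h 0
    simpa using this
  refine ⟨hp, ?_⟩
  have hN : 0 < q ^ 2 + p ^ 2 := by positivity
  have hN' : 0 < Real.sqrt (q ^ 2 + p ^ 2) := Real.sqrt_pos.2 hN
  have hsq : Real.sqrt (q ^ 2 + p ^ 2) ^ 2 = q ^ 2 + p ^ 2 := Real.sq_sqrt hN.le
  obtain ⟨θ, hc, hs⟩ := exists_angle (a := -q / Real.sqrt (q ^ 2 + p ^ 2))
    (b := p / Real.sqrt (q ^ 2 + p ^ 2)) (by
      rw [div_pow, div_pow, hsq]; field_simp)
  have := h θ
  rw [hc, hs] at this
  have e : p * (-q / Real.sqrt (q ^ 2 + p ^ 2)) ^ 2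
    + 2 * q * (p / Real.sqrt (q ^ 2 + p ^ 2) * (-q / Real.sqrt (q ^ 2 + p ^ 2)))
    + r * (p / Real.sqrt (q ^ 2 + p ^ 2)) ^ 2
    = (p * (p * r - q ^ 2)) / (q ^ 2 + p ^ 2) := by
    have hN1 : ∀ a b : ℝ, a / Real.sqrt (q ^ 2 + p ^ 2) * (b / Real.sqrt (q ^ 2 + p ^ 2))
        = a * b / (q ^ 2 + p ^ 2) := by
      intro a b
      rw [div_mul_div_comm, ← sq, hsq]
    rw [sq (-q / _), sq (p / _), hN1, hN1, hN1]
    field_simp
    ring
  rw [e] at this
  have h2 : 0 < p * (p * r - q ^ 2) := by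
    have := mul_pos this hN
    rwa [div_mul_cancel₀ _ hN.ne'] at this
  exact (pos_iff_pos_of_mul_pos h2).1 hp

/-- the parametrisation of the ellipse -/
theorem ellipse_param {x y ρ ρ1 w : ℝ → ℝ} (ho : Oval x y ρ)
    (hw : ∀ t, 0 < w t) (hwρ : ∀ t, w t ^ 3 * ρ t = 1)
    (hwd : ∀ t, HasDerivAt w (-(1 / 3) * w t ^ 4 * ρ1 t) t) {p q r : ℝ}
    (hq : ∀ t, w t ^ 2 = p * Real.cos t ^ 2 + 2 * q * (Real.sin t * Real.cos t)
        + r * Real.sin t ^ 2) :
    0 < p ∧ 0 < p * r - q ^ 2 ∧ ∃ u v : ℝ, ∀ t,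
      x t = u + (p * Real.cos t + q * Real.sin t) / ((p * r - q ^ 2) * w t) ∧
      y t = v + (q * Real.cos t + r * Real.sin t) / ((p * r - q ^ 2) * w t) := by
  obtain ⟨hp, hΔ⟩ := pos_def (fun t => by rw [← hq t]; exact pow_pos (hw t) 2)
  refine ⟨hp, hΔ, ?_⟩
  set Δ := p * r - q ^ 2 with hΔdef
  -- the derivative of `w`
  have hww : ∀ t, w t * (-(1 / 3) * w t ^ 4 * ρ1 t)
      = (r - p) * (Real.sin t * Real.cos t) + q * (Real.cos t ^ 2 - Real.sin t ^ 2) := by
    intro t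
    have a1 := (hwd t).pow 2
    have a2 := ((((Real.hasDerivAt_cos t).pow 2).const_mul p).add
      (((Real.hasDerivAt_sin t).mul (Real.hasDerivAt_cos t)).const_mul (2 * q))).add
      (((Real.hasDerivAt_sin t).pow 2).const_mul r)
    have a3 := (a2.congr_of_eventuallyEq (f₁ := fun t => w t ^ 2)
      (Eventually.of_forall fun s => by simpa using hq s)).unique a1
    norm_num at a3
    linarith
  refine ⟨x 0 - (p * Real.cos 0 + q * Real.sin 0) / (Δ * w 0),
    y 0 - (q * Real.cos 0 + r * Real.sin 0) / (Δ * w 0), fun t => ⟨?_, ?_⟩⟩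
  · have hd : ∀ t, HasDerivAt (fun t => x t
        - (p * Real.cos t + q * Real.sin t) / (Δ * w t)) 0 t := by
      intro t
      have hwt := (hw t).ne'
      have a1 := (((Real.hasDerivAt_cos t).const_mul p).add
        ((Real.hasDerivAt_sin t).const_mul q)).div ((hwd t).const_mul Δ)
          (mul_ne_zero hΔ.ne' hwt)
      refine ((ho.dx t).sub a1).congr_deriv ?_
      have hr : ρ t = 1 / w t ^ 3 := by
        rw [eq_div_iff (pow_ne_zero 3 hwt)]; linarith [hwρ t]
      rw [hr]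
      have e := hww t
      have e2 := hq t
      have e3 := Real.sin_sq_add_cos_sq t
      simp only [Pi.add_apply]
      have key : ((p * -Real.sin t + q * Real.cos t) * (Δ * w t)
          - (p * Real.cos t + q * Real.sin t) * (Δ * (-(1 / 3) * w t ^ 4 * ρ1 t))) * w t
          = -(Δ * Δ * Real.sin t) := by
        have : ((p * -Real.sin t + q * Real.cos t) * (Δ * w t)
          - (p * Real.cos t + q * Real.sin t) * (Δ * (-(1 / 3) * w t ^ 4 * ρ1 t))) * w t
          = Δ * ((p * -Real.sin t + q * Real.cos t) * w t ^ 2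
            - (p * Real.cos t + q * Real.sin t) * (w t * (-(1 / 3) * w t ^ 4 * ρ1 t))) := by ring
        rw [this, e, e2, hΔdef]
        linear_combination (-(p * r - q ^ 2) * (p * r - q ^ 2) * Real.sin t) * e3
      have key2 : ((p * -Real.sin t + q * Real.cos t) * (Δ * w t)
          - (p * Real.cos t + q * Real.sin t) * (Δ * (-(1 / 3) * w t ^ 4 * ρ1 t)))
          = -(Δ * Δ * Real.sin t) / w t := by
        rw [eq_div_iff hwt]; exact key
      rw [key2]
      field_simp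
      ring
    have := is_const_of_deriv_eq_zero (fun t => (hd t).differentiableAt) (fun t => (hd t).deriv) t 0
    linarith
  · have hd : ∀ t, HasDerivAt (fun t => y t
        - (q * Real.cos t + r * Real.sin t) / (Δ * w t)) 0 t := by
      intro t
      have hwt := (hw t).ne'
      have a1 := (((Real.hasDerivAt_cos t).const_mul q).add
        ((Real.hasDerivAt_sin t).const_mul r)).div ((hwd t).const_mul Δ)
          (mul_ne_zero hΔ.ne' hwt)
      refine ((ho.dy t).sub a1).congr_deriv ?_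
      have hr : ρ t = 1 / w t ^ 3 := by
        rw [eq_div_iff (pow_ne_zero 3 hwt)]; linarith [hwρ t]
      rw [hr]
      have e := hww t
      have e2 := hq t
      have e3 := Real.sin_sq_add_cos_sq t
      simp only [Pi.add_apply]
      have key : ((q * -Real.sin t + r * Real.cos t) * (Δ * w t)
          - (q * Real.cos t + r * Real.sin t) * (Δ * (-(1 / 3) * w t ^ 4 * ρ1 t))) * w t
          = Δ * Δ * Real.cos t := by
        have : ((q * -Real.sin t + r * Real.cos t) * (Δ * w t)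
          - (q * Real.cos t + r * Real.sin t) * (Δ * (-(1 / 3) * w t ^ 4 * ρ1 t))) * w t
          = Δ * ((q * -Real.sin t + r * Real.cos t) * w t ^ 2
            - (q * Real.cos t + r * Real.sin t) * (w t * (-(1 / 3) * w t ^ 4 * ρ1 t))) := by ring
        rw [this, e, e2, hΔdef]
        linear_combination ((p * r - q ^ 2) * (p * r - q ^ 2) * Real.cos t) * e3
      have key2 : ((q * -Real.sin t + r * Real.cos t) * (Δ * w t)
          - (q * Real.cos t + r * Real.sin t) * (Δ * (-(1 / 3) * w t ^ 4 * ρ1 t)))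
          = Δ * Δ * Real.cos t / w t := by
        rw [eq_div_iff hwt]; exact key
      rw [key2]
      field_simp
      ring
    have := is_const_of_deriv_eq_zero (fun t => (hd t).differentiableAt) (fun t => (hd t).deriv) t 0
    linarith

end Pool.Agent.X179.PI
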