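import Pool.Agent.X179.PI.Jet

/-!
Taylor expansions along an oval parametrised by its normal angle.
-/

set_option autoImplicit false

open Filter Topology Set

namespace Pool.Agent.X179.PI

/-- the integration lemma, local version -/
lemma Sm.integrate' {n : ℕ} {f F : ℝ → ℝ} (hF : ∀ᶠ x in 𝓝 (0 : ℝ), HasDerivAt F (f x) x)
    (h0 : F 0 = 0) (hf : Sm n f) : Sm (n + 1) F := by
  obtain ⟨e, he, hfe⟩ := hf
  refine ⟨fun x => if x = 0 then 0 else F x / x ^ (n + 1), ?_, ?_⟩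
  · rw [Metric.tendsto_nhds_nhds] at he ⊢
    obtain ⟨δ', hδ', hd'⟩ := Metric.eventually_nhds_iff.1 hF
    intro ε hε
    obtain ⟨δ₁, hδ₁, hd₁⟩ := he (ε / 2) (by positivity)
    set δ := min δ₁ δ' with hδdef
    have hδ : 0 < δ := lt_min hδ₁ hδ'
    have hd : ∀ {y : ℝ}, dist y 0 < δ → dist (e y) 0 < ε / 2 := fun {y} hy =>
      hd₁ (lt_of_lt_of_le hy (min_le_left _ _))
    refine ⟨δ, hδ, fun x hx => ?_⟩
    by_cases hx0 : x = 0
    · simp [hx0, hε]
    · have hxa : 0 < |x| := abs_pos.mpr hx0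
      have hx' : |x| < δ := by simpa [Real.dist_eq] using hx
      have hsmall : ∀ y ∈ uIcc 0 x, |y| ≤ |x| := by
        intro y hy
        rcases le_total 0 x with h | h
        · rw [uIcc_of_le h] at hy
          rw [abs_of_nonneg hy.1, abs_of_nonneg h]; exact hy.2
        · rw [uIcc_of_ge h] at hy
          rw [abs_of_nonpos hy.2, abs_of_nonpos h]; linarith [hy.1]
      have key : |F x| ≤ (ε / 2 * |x| ^ n) * |x| := by
        have h1 : ∀ y ∈ uIcc 0 x, HasDerivWithinAt F (f y) (uIcc 0 x) y :=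
          fun y hy => (hd' (y := y) (by
            rw [Real.dist_eq, sub_zero]
            exact lt_of_le_of_lt (hsmall y hy) (lt_of_lt_of_le hx' (min_le_right _ _)))).hasDerivWithinAt
        have h2 : ∀ y ∈ uIcc 0 x, ‖f y‖ ≤ ε / 2 * |x| ^ n := by
          intro y hy
          have hyx : |y| ≤ |x| := hsmall y hy
          rw [hfe, Real.norm_eq_abs, abs_mul, abs_pow]
          have h3 : |e y| ≤ ε / 2 := by
            have := hd (y := y) (by rw [Real.dist_eq, sub_zero]; linarith)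
            rw [Real.dist_eq, sub_zero] at this
            exact this.le
          exact mul_le_mul h3 (pow_le_pow_left₀ (abs_nonneg _) hyx n) (by positivity)
            (by positivity)
        have h4 := (convex_uIcc 0 x).norm_image_sub_le_of_norm_hasDerivWithin_le h1 h2
          left_mem_uIcc right_mem_uIcc
        simpa [h0] using h4
      simp only [hx0, if_false, Real.dist_eq, sub_zero]
      rw [abs_div, abs_pow, div_lt_iff₀ (by positivity)]
      calc |F x| ≤ (ε / 2 * |x| ^ n) * |x| := key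
        _ = ε / 2 * |x| ^ (n + 1) := by ring
        _ < ε * |x| ^ (n + 1) := by
          have : 0 < |x| ^ (n + 1) := by positivity
          nlinarith
  · intro x
    by_cases hx0 : x = 0
    · simp [hx0, h0]
    · simp only [hx0, if_false]
      field_simp

lemma sm_cos0 : Sm 0 (fun h => Real.cos h - 1) :=
  (Sm.of_continuousAt (f := Real.cos) Real.continuous_cos.continuousAt).congr fun x => by simp

lemma sm_sin1 : Sm 1 (fun h => Real.sin h - h) :=
  Sm.integrate (f := fun h => Real.cos h - 1)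
    (fun x => (Real.hasDerivAt_sin x).sub (hasDerivAt_id' x)) (by simp) sm_cos0

lemma sm_cos2 : Sm 2 (fun h => Real.cos h - (1 - h ^ 2 / 2)) :=
  Sm.integrate (f := fun h => -(Real.sin h - h))
    (fun x => by
      have := (Real.hasDerivAt_cos x).sub (((hasDerivAt_pow 2 x).div_const 2).const_sub 1)
      refine this.congr_deriv ?_
      simp
      ring) (by simp) ((sm_sin1.const_mul (-1)).congr fun x => by ring)

lemma sm_sin3 : Sm 3 (fun h => Real.sin h - (h - h ^ 3 / 6)) :=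
  Sm.integrate (f := fun h => Real.cos h - (1 - h ^ 2 / 2))
    (fun x => by
      have := (Real.hasDerivAt_sin x).sub ((hasDerivAt_id' x).sub ((hasDerivAt_pow 3 x).div_const 6))
      refine this.congr_deriv ?_
      simp
      ring) (by simp) sm_cos2

lemma sm_cos4 : Sm 4 (fun h => Real.cos h - (1 - h ^ 2 / 2 + h ^ 4 / 24)) :=
  Sm.integrate (f := fun h => -(Real.sin h - (h - h ^ 3 / 6)))
    (fun x => by
      have := (Real.hasDerivAt_cos x).sub ((((hasDerivAt_pow 2 x).div_const 2).const_sub 1).add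
        ((hasDerivAt_pow 4 x).div_const 24))
      refine this.congr_deriv ?_
      simp
      ring) (by simp) ((sm_sin3.const_mul (-1)).congr fun x => by ring)

lemma sm_sin5 : Sm 5 (fun h => Real.sin h - (h - h ^ 3 / 6 + h ^ 5 / 120)) :=
  Sm.integrate (f := fun h => Real.cos h - (1 - h ^ 2 / 2 + h ^ 4 / 24))
    (fun x => by
      have := (Real.hasDerivAt_sin x).sub (((hasDerivAt_id' x).sub
        ((hasDerivAt_pow 3 x).div_const 6)).add ((hasDerivAt_pow 5 x).div_const 120))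
      refine this.congr_deriv ?_
      simp
      ring) (by simp) sm_cos4

/-- composite limit with two remainders -/
lemma lim2 {e₁ e₂ : ℝ → ℝ} (h1 : Tendsto e₁ (𝓝 0) (𝓝 0)) (h2 : Tendsto e₂ (𝓝 0) (𝓝 0))
    (Φ : ℝ × ℝ × ℝ → ℝ) (hΦ : Continuous Φ) (h0 : Φ (0, 0, 0) = 0) :
    Tendsto (fun h : ℝ => Φ (h, e₁ h, e₂ h)) (𝓝 0) (𝓝 0) := by
  have hz : Tendsto (fun h : ℝ => ((h, e₁ h, e₂ h) : ℝ × ℝ × ℝ)) (𝓝 0) (𝓝 (0, 0, 0)) :=
    tendsto_id.prodMk_nhds (h1.prodMk_nhds h2)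
  have := (hΦ.tendsto (0, 0, 0)).comp hz
  rw [h0] at this
  exact this

/-- Taylor expansion of the radius of curvature -/
lemma sm_rho {ρ ρ1 ρ2 ρ3 : ℝ → ℝ} (h1 : ∀ t, HasDerivAt ρ (ρ1 t) t)
    (h2 : ∀ t, HasDerivAt ρ1 (ρ2 t) t) (h3 : ∀ t, HasDerivAt ρ2 (ρ3 t) t) (hc : Continuous ρ3)
    (t : ℝ) : Sm 3 (fun h => ρ (t + h)
      - (ρ t + ρ1 t * h + ρ2 t * h ^ 2 / 2 + ρ3 t * h ^ 3 / 6)) := by
  have e0 : Sm 0 (fun h => ρ3 (t + h) - ρ3 t) := by
    have : ContinuousAt (fun h => ρ3 (t + h)) 0 := by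
      exact (hc.comp (continuous_const.add continuous_id)).continuousAt
    refine (Sm.of_continuousAt this).congr fun x => by simp
  have hs : ∀ {f f' : ℝ → ℝ}, (∀ t, HasDerivAt f (f' t) t) → ∀ h,
      HasDerivAt (fun h => f (t + h)) (f' (t + h)) h := by
    intro f f' hf h
    have := (hf (t + h)).comp h ((hasDerivAt_id' h).const_add t)
    simpa [Function.comp_def] using this
  have e1 : Sm 1 (fun h => ρ2 (t + h) - (ρ2 t + ρ3 t * h)) := by
    refine Sm.integrate (f := fun h => ρ3 (t + h) - ρ3 t) (fun x => ?_) (by simp) e0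
    refine ((hs h3 x).sub (((hasDerivAt_id' x).const_mul (ρ3 t)).const_add _)).congr_deriv ?_
    simp
  have e2 : Sm 2 (fun h => ρ1 (t + h) - (ρ1 t + ρ2 t * h + ρ3 t * h ^ 2 / 2)) := by
    refine Sm.integrate (f := fun h => ρ2 (t + h) - (ρ2 t + ρ3 t * h)) (fun x => ?_) (by simp) e1
    refine ((hs h2 x).sub ((((hasDerivAt_id' x).const_mul (ρ2 t)).const_add _).add
      (((hasDerivAt_pow 2 x).const_mul (ρ3 t)).div_const 2))).congr_deriv ?_
    simp
    ring
  refine Sm.integrate (f := fun h => ρ1 (t + h) - (ρ1 t + ρ2 t * h + ρ3 t * h ^ 2 / 2))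
    (fun x => ?_) (by simp) e2
  refine ((hs h1 x).sub (((((hasDerivAt_id' x).const_mul (ρ1 t)).const_add _).add
      (((hasDerivAt_pow 2 x).const_mul (ρ2 t)).div_const 2)).add
      (((hasDerivAt_pow 3 x).const_mul (ρ3 t)).div_const 6))).congr_deriv ?_
  simp
  ring

/-- the inner and the tangential displacement -/
noncomputable def U (x y : ℝ → ℝ) (t h : ℝ) : ℝ :=
  -((x (t + h) - x t) * Real.cos t + (y (t + h) - y t) * Real.sin t)

noncomputable def V (x y : ℝ → ℝ) (t h : ℝ) : ℝ :=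
  -(x (t + h) - x t) * Real.sin t + (y (t + h) - y t) * Real.cos t

lemma hasDerivAt_U {x y ρ : ℝ → ℝ} (hx : ∀ t, HasDerivAt x (-(ρ t * Real.sin t)) t)
    (hy : ∀ t, HasDerivAt y (ρ t * Real.cos t) t) (t h : ℝ) :
    HasDerivAt (U x y t) (Real.sin h * ρ (t + h)) h := by
  have e1 := (hx (t + h)).comp h ((hasDerivAt_id' h).const_add t)
  have e2 := (hy (t + h)).comp h ((hasDerivAt_id' h).const_add t)
  have := (((e1.sub_const (x t)).mul_const (Real.cos t)).add
    ((e2.sub_const (y t)).mul_const (Real.sin t))).neg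
  refine (this.congr_deriv ?_).congr_of_eventuallyEq (Eventually.of_forall fun z => ?_)
  · have e3 : Real.sin h = Real.sin (t + h) * Real.cos t - Real.cos (t + h) * Real.sin t := by
      rw [← Real.sin_sub]; congr 1; ring
    rw [e3]; ring
  · simp [U, Function.comp]

lemma hasDerivAt_V {x y ρ : ℝ → ℝ} (hx : ∀ t, HasDerivAt x (-(ρ t * Real.sin t)) t)
    (hy : ∀ t, HasDerivAt y (ρ t * Real.cos t) t) (t h : ℝ) :
    HasDerivAt (V x y t) (Real.cos h * ρ (t + h)) h := by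
  have e1 := (hx (t + h)).comp h ((hasDerivAt_id' h).const_add t)
  have e2 := (hy (t + h)).comp h ((hasDerivAt_id' h).const_add t)
  have := (((e1.sub_const (x t)).neg.mul_const (Real.sin t)).add
    ((e2.sub_const (y t)).mul_const (Real.cos t)))
  refine (this.congr_deriv ?_).congr_of_eventuallyEq (Eventually.of_forall fun z => ?_)
  · have e3 : Real.cos h = Real.cos (t + h) * Real.cos t + Real.sin (t + h) * Real.sin t := by
      rw [← Real.cos_sub]; congr 1; ring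
    rw [e3]; ring
  · simp [V, Function.comp]

section
variable {x y ρ ρ1 ρ2 ρ3 : ℝ → ℝ} (hx : ∀ t, HasDerivAt x (-(ρ t * Real.sin t)) t)
  (hy : ∀ t, HasDerivAt y (ρ t * Real.cos t) t) (h1 : ∀ t, HasDerivAt ρ (ρ1 t) t)
  (h2 : ∀ t, HasDerivAt ρ1 (ρ2 t) t) (h3 : ∀ t, HasDerivAt ρ2 (ρ3 t) t) (hc : Continuous ρ3)
include hx hy h1 h2 h3 hc

lemma sm_U (t : ℝ) : Sm 5 (fun h => U x y t h - (ρ t / 2 * h ^ 2 + ρ1 t / 3 * h ^ 3
    + (ρ2 t / 8 - ρ t / 24) * h ^ 4 + (ρ3 t / 30 - ρ1 t / 30) * h ^ 5)) := by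
  obtain ⟨er, her, hr⟩ := sm_rho h1 h2 h3 hc t
  obtain ⟨es, hes, hs⟩ := sm_sin5
  have e4 : Sm 4 (fun h => Real.sin h * ρ (t + h) - (ρ t * h + ρ1 t * h ^ 2
      + (ρ2 t / 2 - ρ t / 6) * h ^ 3 + (ρ3 t / 6 - ρ1 t / 6) * h ^ 4)) := by
    refine ⟨_, lim2 her hes (fun z => (ρ t / 120 - ρ2 t / 12) * z.1 + (ρ1 t / 120 - ρ3 t / 36) * z.1 ^ 2
        + ρ2 t / 240 * z.1 ^ 3 + ρ3 t / 720 * z.1 ^ 4
        + (1 - z.1 ^ 2 / 6 + z.1 ^ 4 / 120) * z.2.1
        + z.2.2 * z.1 * (ρ t + ρ1 t * z.1 + ρ2 t * z.1 ^ 2 / 2 + ρ3 t * z.1 ^ 3 / 6)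
        + z.2.1 * z.2.2 * z.1 ^ 4) (by fun_prop) (by simp), fun h => ?_⟩
    have a := hr h
    have b := hs h
    have a' : ρ (t + h) = ρ t + ρ1 t * h + ρ2 t * h ^ 2 / 2 + ρ3 t * h ^ 3 / 6 + er h * h ^ 3 := by
      linarith
    have b' : Real.sin h = h - h ^ 3 / 6 + h ^ 5 / 120 + es h * h ^ 5 := by linarith
    simp only
    rw [a', b']
    ring
  refine Sm.integrate (fun z => ?_) (by simp [U]) e4
  refine ((hasDerivAt_U hx hy t z).sub (((((hasDerivAt_pow 2 z).const_mul _).add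
    ((hasDerivAt_pow 3 z).const_mul _)).add ((hasDerivAt_pow 4 z).const_mul _)).add
    ((hasDerivAt_pow 5 z).const_mul _))).congr_deriv ?_
  simp
  ring

lemma sm_V (t : ℝ) : Sm 4 (fun h => V x y t h - (ρ t * h + ρ1 t / 2 * h ^ 2
    + (ρ2 t / 6 - ρ t / 6) * h ^ 3 + (ρ3 t / 24 - ρ1 t / 8) * h ^ 4)) := by
  obtain ⟨er, her, hr⟩ := sm_rho h1 h2 h3 hc t
  obtain ⟨es, hes, hs⟩ := sm_cos4
  have e4 : Sm 3 (fun h => Real.cos h * ρ (t + h) - (ρ t + ρ1 t * h
      + (ρ2 t / 2 - ρ t / 2) * h ^ 2 + (ρ3 t / 6 - ρ1 t / 2) * h ^ 3)) := by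
    refine ⟨_, lim2 her hes (fun z => (ρ t / 24 - ρ2 t / 4) * z.1 + (ρ1 t / 24 - ρ3 t / 12) * z.1 ^ 2
        + ρ2 t / 48 * z.1 ^ 3 + ρ3 t / 144 * z.1 ^ 4
        + (1 - z.1 ^ 2 / 2 + z.1 ^ 4 / 24) * z.2.1
        + z.2.2 * z.1 * (ρ t + ρ1 t * z.1 + ρ2 t * z.1 ^ 2 / 2 + ρ3 t * z.1 ^ 3 / 6)
        + z.2.1 * z.2.2 * z.1 ^ 4) (by fun_prop) (by simp), fun h => ?_⟩
    have a := hr h
    have b := hs h
    have a' : ρ (t + h) = ρ t + ρ1 t * h + ρ2 t * h ^ 2 / 2 + ρ3 t * h ^ 3 / 6 + er h * h ^ 3 := by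
      linarith
    have b' : Real.cos h = 1 - h ^ 2 / 2 + h ^ 4 / 24 + es h * h ^ 4 := by linarith
    simp only
    rw [a', b']
    ring
  refine Sm.integrate (fun z => ?_) (by simp [V]) e4
  refine ((hasDerivAt_V hx hy t z).sub (((((hasDerivAt_id' z).const_mul _).add
    ((hasDerivAt_pow 2 z).const_mul _)).add ((hasDerivAt_pow 3 z).const_mul _)).add
    ((hasDerivAt_pow 4 z).const_mul _))).congr_deriv ?_
  simp
  ring

end

end Pool.Agent.X179.PI
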