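import Pool.Agent.X179.PI.Tan

/-!
Isoptic curves.
-/

set_option autoImplicit false

open Filter Topology Set

namespace Pool.Agent.X179.PI

/-- the isoptic curve: the intersection points of the tangent lines at `γ(θ)` and `γ(θ + τ)`;
for `0 < τ < π` these are the points from which `γ` is seen under the angle `π - τ` -/
noncomputable def isopticCurve (x y : ℝ → ℝ) (τ : ℝ) : Set (ℝ × ℝ) :=
  {z | τ < Real.pi ∧ ∃ θ u u' : ℝ, z = tanPt x y θ u ∧ z = tanPt x y (θ + τ) (-u')}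

/-- the equation of the isoptic curves -/
theorem ode_isoptic {ρ ρ1 ρ2 ρ3 : ℝ → ℝ} {T : ℝ} (hT : 0 < T) (hper : Function.Periodic ρ T)
    (hpos : ∀ t, 0 < ρ t) (h1 : ∀ t, HasDerivAt ρ (ρ1 t) t) (h2 : ∀ t, HasDerivAt ρ1 (ρ2 t) t)
    (h3 : ∀ t, HasDerivAt ρ2 (ρ3 t) t)
    (ode : ∀ t, 9 * ρ t ^ 2 * ρ3 t
      = 9 * ρ t ^ 2 * ρ1 t + 30 * ρ t * ρ1 t * ρ2 t - 20 * ρ1 t ^ 3) :
    ∀ t s, ρ t = ρ s := by
  obtain ⟨w, hw, hwρ, hwd⟩ := exists_w hpos h1
  have hd : ∀ t, HasDerivAt (fun t => 1 * ρ2 t * w t ^ 5 - 5 / 6 * ρ1 t ^ 2 * w t ^ 8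
      + 3 / 2 * w t ^ 2) 0 t := by
    intro t
    have a1 := ((h3 t).const_mul 1).mul ((hwd t).pow 5)
    have a2 := (((h2 t).pow 2).const_mul (5 / 6)).mul ((hwd t).pow 8)
    have a3 := ((hwd t).pow 2).const_mul (3 / 2)
    refine ((a1.sub a2).add a3).congr_deriv ?_
    have e := ode t
    have f := hwρ t
    have hwt := (hw t).ne'
    have hr : ρ t = 1 / w t ^ 3 := by field_simp; linarith
    rw [hr] at e
    have e' : 9 * ρ3 t = 9 * ρ1 t + 30 * ρ1 t * ρ2 t * w t ^ 3 - 20 * ρ1 t ^ 3 * w t ^ 6 := by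
      field_simp at e
      linarith
    simp only [Pi.pow_apply]
    norm_num
    linear_combination (1 / 9 * w t ^ 5) * e'
  have hK : ∀ t, 1 * ρ2 t * w t ^ 5 - 5 / 6 * ρ1 t ^ 2 * w t ^ 8 + 3 / 2 * w t ^ 2
      = 1 * ρ2 0 * w 0 ^ 5 - 5 / 6 * ρ1 0 ^ 2 * w 0 ^ 8 + 3 / 2 * w 0 ^ 2 := fun t =>
    is_const_of_deriv_eq_zero (fun t => (hd t).differentiableAt) (fun t => (hd t).deriv) t 0
  exact const_of_integral hT hper hpos h1 h2 hw hwρ (by norm_num) (by norm_num) (by norm_num) hK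

lemma ode_of_rel_iso {r0 r1 r2 r3 c α β : ℝ} (h0 : 0 < r0)
    (e1 : (r0 / 2) ^ 2 = α * 1)
    (e2 : 2 * (r0 / 2) * (r1 / 6) = α * (0 + c * (r0 / 2 * 1)))
    (e3 : (r1 / 6) ^ 2 + 2 * (r0 / 2) * (r0 / 24 + r2 / 24) = α * (0
      + c * (r0 / 2 * 0 + r1 / 6 * 1)) + β * 1 ^ 2)
    (e4 : 2 * (r0 / 2) * (7 * r1 / 360 + r3 / 120) + 2 * (r1 / 6) * (r0 / 24 + r2 / 24)
      = α * (0 + c * (r0 / 2 * 0 + r1 / 6 * 0
        + (r0 / 24 + r2 / 24) * 1)) + β * (2 * 1 * 0 + c * (r0 / 2) * 1 ^ 2)) :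
    9 * r0 ^ 2 * r3 = 9 * r0 ^ 2 * r1 + 30 * r0 * r1 * r2 - 20 * r1 ^ 3 := by
  have hα : α = (r0 / 2) ^ 2 := by linarith
  subst hα
  have hcc : c = 4 * r1 / (3 * r0 ^ 2) := by
    rw [eq_div_iff (by positivity)]
    have : r0 * (c * (3 * r0 ^ 2) - 4 * r1) = 0 := by linarith
    rcases mul_eq_zero.1 this with h | h
    · exact absurd h h0.ne'
    · linarith
  subst hcc
  have hβ : β = (r1 / 6) ^ 2 + 2 * (r0 / 2) * (r0 / 24 + r2 / 24) - (r0 / 2) ^ 2 * (0
      + 4 * r1 / (3 * r0 ^ 2) * (r0 / 2 * 0 + r1 / 6 * 1)) := by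
    linarith
  subst hβ
  field_simp at e4
  ring_nf at e4 ⊢
  linarith

theorem isoptic_main {x y ρ : ℝ → ℝ} (ho : Oval x y ρ)
    (hp : ∀ t, ProjectiveAt x y (isopticCurve x y) t) :
    ∃ u v R : ℝ, 0 < R ∧ (∀ θ, x θ = u + R * Real.cos θ ∧ y θ = v + R * Real.sin θ) ∧
      ∀ τ, 0 < τ → τ < Real.pi → isopticCurve x y τ =
        {z | (z.1 - u) ^ 2 + (z.2 - v) ^ 2 = (R / Real.cos (τ / 2)) ^ 2} := by
  obtain ⟨ρ1, ρ2, ρ3, h1, h2, h3, hc⟩ := ho.derivs
  have hconst : ∀ t s, ρ t = ρ s := by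
    refine ode_isoptic (ρ1 := ρ1) (ρ2 := ρ2) (ρ3 := ρ3) Real.two_pi_pos ho.per_rho ho.pos h1 h2 h3
      fun t => ?_
    have hpos := ho.pos t
    obtain ⟨c, α, β, e1, e2, e3, e4⟩ := rel_of_leaves (hp t)
      (D := fun h => h ^ 2) (s := S x y t) (g := fun D => Real.sqrt D)
      (d2 := 1) (d3 := 0) (d4 := 0) (d5 := 0) one_pos
      (by positivity : 0 < ρ t / 2)
      (Eventually.of_forall fun h => (continuous_pow 2).continuousAt)
      ((Sm.zero 5).congr fun h => by ring) (sm_S ho.dx ho.dy h1 h2 h3 hc t)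
      (by
        filter_upwards [sin_ne_zero_near, Metric.ball_mem_nhds (0 : ℝ) Real.pi_pos]
          with h hs hb h0 hD
        rw [Metric.mem_ball, Real.dist_eq, sub_zero] at hb
        have hsh := hs h0
        refine ⟨Real.sqrt_pos.2 hD, ?_⟩
        rw [Real.sqrt_sq_eq_abs]
        refine ⟨hb, ?_⟩
        rcases lt_or_gt_of_ne h0 with k | k
        · refine ⟨t + h, -R x y t h, -S x y t h, tanPt_S x y t h hsh, ?_⟩
          rw [abs_of_neg k, neg_neg]
          congr 1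
          ring
        · refine ⟨t, S x y t h, R x y t h, rfl, ?_⟩
          rw [abs_of_pos k]
          exact tanPt_S x y t h hsh)
    exact ode_of_rel_iso hpos e1 e2 e3 e4
  obtain ⟨u, v, R, hR, hcirc⟩ := ho.circle hconst
  refine ⟨u, v, R, hR, hcirc, fun τ hτ0 hτ => ?_⟩
  have hcos : 0 < Real.cos (τ / 2) := Real.cos_pos_of_mem_Ioo ⟨by linarith, by linarith⟩
  have hsin : 0 < Real.sin (τ / 2) := Real.sin_pos_of_pos_of_lt_pi (by linarith) (by linarith)
  -- the intersection point of two tangent lines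
  have hpt : ∀ θ : ℝ, tanPt x y θ (R * Real.sin (τ / 2) / Real.cos (τ / 2))
      = (u + R / Real.cos (τ / 2) * Real.cos (θ + τ / 2),
        v + R / Real.cos (τ / 2) * Real.sin (θ + τ / 2)) := by
    intro θ
    have e := Real.sin_sq_add_cos_sq (τ / 2)
    refine Prod.ext ?_ ?_
    · simp only [tanPt]
      rw [(hcirc θ).1, Real.cos_add]
      field_simp
      ring
    · simp only [tanPt]
      rw [(hcirc θ).2, Real.sin_add]
      field_simp
      ring
  have hpt' : ∀ θ : ℝ, tanPt x y (θ + τ) (-(R * Real.sin (τ / 2) / Real.cos (τ / 2)))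
      = (u + R / Real.cos (τ / 2) * Real.cos (θ + τ / 2),
        v + R / Real.cos (τ / 2) * Real.sin (θ + τ / 2)) := by
    intro θ
    have eτ : θ + τ / 2 = (θ + τ) - τ / 2 := by ring
    rw [eτ]
    refine Prod.ext ?_ ?_
    · simp only [tanPt]
      rw [(hcirc (θ + τ)).1, Real.cos_sub]
      field_simp
      ring
    · simp only [tanPt]
      rw [(hcirc (θ + τ)).2, Real.sin_sub]
      field_simp
      ring
  ext z
  constructor
  · rintro ⟨-, θ, a, a', hz, hz'⟩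
    -- uniqueness of the intersection point
    have ha : a = R * Real.sin (τ / 2) / Real.cos (τ / 2) := by
      have k := hz.symm.trans hz'
      have k2 := (hpt θ).trans (hpt' θ).symm
      have p1 := congrArg Prod.fst k
      have p2 := congrArg Prod.snd k
      have q1 := congrArg Prod.fst k2
      have q2 := congrArg Prod.snd k2
      simp only [tanPt] at p1 p2 q1 q2
      have hst : 0 < Real.sin τ := Real.sin_pos_of_pos_of_lt_pi hτ0 hτ
      have e3 : Real.sin τ = Real.sin (θ + τ) * Real.cos θ - Real.cos (θ + τ) * Real.sin θ := by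
        rw [← Real.sin_sub]; congr 1; ring
      have : Real.sin τ * (a - R * Real.sin (τ / 2) / Real.cos (τ / 2)) = 0 := by
        rw [e3]
        linear_combination Real.cos (θ + τ) * (p1 - q1) + Real.sin (θ + τ) * (p2 - q2)
      rcases mul_eq_zero.1 this with h | h
      · exact absurd h hst.ne'
      · linarith
    rw [ha, hpt θ] at hz
    subst hz
    show (u + R / Real.cos (τ / 2) * Real.cos (θ + τ / 2) - u) ^ 2
      + (v + R / Real.cos (τ / 2) * Real.sin (θ + τ / 2) - v) ^ 2 = (R / Real.cos (τ / 2)) ^ 2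
    have := Real.sin_sq_add_cos_sq (θ + τ / 2)
    linear_combination (R / Real.cos (τ / 2)) ^ 2 * this
  · intro hz
    obtain ⟨φ, rfl⟩ := exists_angle' (by positivity : 0 < R / Real.cos (τ / 2)) hz
    refine ⟨hτ, φ - τ / 2, R * Real.sin (τ / 2) / Real.cos (τ / 2),
      R * Real.sin (τ / 2) / Real.cos (τ / 2), ?_, ?_⟩
    · rw [hpt (φ - τ / 2)]
      rw [sub_add_cancel]
    · rw [hpt' (φ - τ / 2)]
      rw [sub_add_cancel]

end Pool.Agent.X179.PI
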