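import Mathlib

/-!
Expansions at `0` with explicit remainders, and the odd jet lemma for projective involutions.
-/

set_option autoImplicit false

open Filter Topology Set

namespace Pool.Agent.X179.PI

/-- `f h = o(h ^ n)` as `h → 0` -/
def Sm (n : ℕ) (f : ℝ → ℝ) : Prop :=
  ∃ e : ℝ → ℝ, Tendsto e (𝓝 0) (𝓝 0) ∧ ∀ h, f h = e h * h ^ n

lemma Sm.congr {n : ℕ} {f g : ℝ → ℝ} (hf : Sm n f) (h : ∀ x, g x = f x) : Sm n g := by
  obtain ⟨e, he, hfe⟩ := hf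
  exact ⟨e, he, fun x => by rw [h, hfe]⟩

lemma Sm.zero (n : ℕ) : Sm n (fun _ => 0) := ⟨fun _ => 0, tendsto_const_nhds, by simp⟩

lemma Sm.add {n : ℕ} {f g : ℝ → ℝ} (hf : Sm n f) (hg : Sm n g) : Sm n (fun x => f x + g x) := by
  obtain ⟨e, he, hfe⟩ := hf
  obtain ⟨e', he', hge⟩ := hg
  refine ⟨fun x => e x + e' x, by simpa using he.add he', fun x => by
    simp only [hfe, hge]; ring⟩

lemma Sm.sub {n : ℕ} {f g : ℝ → ℝ} (hf : Sm n f) (hg : Sm n g) : Sm n (fun x => f x - g x) := by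
  obtain ⟨e, he, hfe⟩ := hf
  obtain ⟨e', he', hge⟩ := hg
  refine ⟨fun x => e x - e' x, by simpa using he.sub he', fun x => by
    simp only [hfe, hge]; ring⟩

/-- multiplication by a function with a limit -/
lemma Sm.mul_tendsto {n : ℕ} {f g : ℝ → ℝ} {l : ℝ} (hf : Sm n f) (hg : Tendsto g (𝓝 0) (𝓝 l)) :
    Sm n (fun x => f x * g x) := by
  obtain ⟨e, he, hfe⟩ := hf
  refine ⟨fun x => e x * g x, by simpa using he.mul hg, fun x => by
    simp only [hfe]; ring⟩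

lemma Sm.const_mul {n : ℕ} {f : ℝ → ℝ} (c : ℝ) (hf : Sm n f) : Sm n (fun x => c * f x) := by
  obtain ⟨e, he, hfe⟩ := hf
  refine ⟨fun x => c * e x, by simpa using he.const_mul c, fun x => by
    simp only [hfe]; ring⟩

lemma Sm.mono {n m : ℕ} {f : ℝ → ℝ} (h : m ≤ n) (hf : Sm n f) : Sm m f := by
  obtain ⟨e, he, hfe⟩ := hf
  obtain ⟨k, rfl⟩ := Nat.exists_eq_add_of_le h
  refine ⟨fun x => e x * x ^ k, ?_, fun x => by rw [hfe]; ring⟩
  have : Tendsto (fun x : ℝ => x ^ k) (𝓝 0) (𝓝 (0 ^ k)) := (continuous_pow k).tendsto 0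
  simpa using he.mul this

/-- `x ^ m * g x` with `g` having a limit is `o(x ^ n)` for `n < m` -/
lemma Sm.pow_mul {n m : ℕ} {g : ℝ → ℝ} {l : ℝ} (h : n < m) (hg : Tendsto g (𝓝 0) (𝓝 l)) :
    Sm n (fun x => x ^ m * g x) := by
  obtain ⟨k, rfl⟩ := Nat.exists_eq_add_of_lt h
  refine ⟨fun x => x ^ (k + 1) * g x, ?_, fun x => by ring⟩
  have : Tendsto (fun x : ℝ => x ^ (k + 1)) (𝓝 0) (𝓝 (0 ^ (k + 1))) :=
    (continuous_pow (k + 1)).tendsto 0
  simpa using this.mul hg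

lemma Sm.tendsto {n : ℕ} {f : ℝ → ℝ} (hf : Sm n f) : Tendsto f (𝓝 0) (𝓝 0) := by
  obtain ⟨e, he, hfe⟩ := hf
  have h1 : Tendsto (fun x : ℝ => x ^ n) (𝓝 0) (𝓝 (0 ^ n)) := (continuous_pow n).tendsto 0
  have := he.mul h1
  simp only [zero_mul] at this
  exact this.congr fun x => (hfe x).symm

/-- the integration lemma -/
lemma Sm.integrate {n : ℕ} {f F : ℝ → ℝ} (hF : ∀ x, HasDerivAt F (f x) x) (h0 : F 0 = 0)
    (hf : Sm n f) : Sm (n + 1) F := by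
  obtain ⟨e, he, hfe⟩ := hf
  refine ⟨fun x => if x = 0 then 0 else F x / x ^ (n + 1), ?_, ?_⟩
  · rw [Metric.tendsto_nhds_nhds] at he ⊢
    intro ε hε
    obtain ⟨δ, hδ, hd⟩ := he (ε / 2) (by positivity)
    refine ⟨δ, hδ, fun x hx => ?_⟩
    by_cases hx0 : x = 0
    · simp [hx0, hε]
    · have hxa : 0 < |x| := abs_pos.mpr hx0
      have hx' : |x| < δ := by simpa [Real.dist_eq] using hx
      have key : |F x| ≤ (ε / 2 * |x| ^ n) * |x| := by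
        have h1 : ∀ y ∈ uIcc 0 x, HasDerivWithinAt F (f y) (uIcc 0 x) y :=
          fun y _ => (hF y).hasDerivWithinAt
        have h2 : ∀ y ∈ uIcc 0 x, ‖f y‖ ≤ ε / 2 * |x| ^ n := by
          intro y hy
          have hyx : |y| ≤ |x| := by
            rcases le_total 0 x with h | h
            · rw [uIcc_of_le h] at hy
              rw [abs_of_nonneg hy.1, abs_of_nonneg h]; exact hy.2
            · rw [uIcc_of_ge h] at hy
              rw [abs_of_nonpos hy.2, abs_of_nonpos h]; linarith [hy.1]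
          rw [hfe, Real.norm_eq_abs, abs_mul, abs_pow]
          have h3 : |e y| ≤ ε / 2 := by
            have := hd (x := y) (by rw [Real.dist_eq, sub_zero]; linarith)
            rw [Real.dist_eq, sub_zero] at this
            exact this.le
          exact mul_le_mul h3 (pow_le_pow_left₀ (abs_nonneg _) hyx n) (by positivity)
            (by positivity)
        have h4 := (convex_uIcc 0 x).norm_image_sub_le_of_norm_hasDerivWithin_le h1 h2
          left_mem_uIcc right_mem_uIcc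
        simpa [h0] using h4
      simp only [hx0, if_false, Real.dist_eq, sub_zero]
      rw [abs_div, abs_pow, div_lt_iff₀ (by positivity)]
      calc |F x| ≤ (ε / 2 * |x| ^ n) * |x| := key
        _ = ε / 2 * |x| ^ (n + 1) := by ring
        _ < ε * |x| ^ (n + 1) := by
          have : 0 < |x| ^ (n + 1) := by positivity
          nlinarith
  · intro x
    by_cases hx0 : x = 0
    · simp [hx0, h0]
    · simp only [hx0, if_false]
      field_simp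

lemma Sm.of_continuousAt {f : ℝ → ℝ} (hf : ContinuousAt f 0) : Sm 0 (fun x => f x - f 0) := by
  refine ⟨fun x => f x - f 0, ?_, by simp⟩
  have := hf.tendsto.sub_const (f 0)
  simpa using this

/-- sign of `h ^ k (n + E)` -/
lemma sign_lem {N E : ℝ → ℝ} {n : ℝ} {k : ℕ} (hk : Odd k) (hE : Tendsto E (𝓝 0) (𝓝 0))
    (hN : ∀ h, N h = h ^ k * (n + E h)) (w : ℝ → ℝ) (hw : ∀ᶠ h in 𝓝 (0 : ℝ), 0 < w h)
    (hp : ∀ η > 0, ∃ h₁ h₂ : ℝ, -η < h₁ ∧ h₁ < 0 ∧ 0 < h₂ ∧ h₂ < η ∧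
      N h₁ * w h₂ = N h₂ * w h₁) : n = 0 := by
  by_contra hn
  have h1 : ∀ᶠ h in 𝓝 (0 : ℝ), |E h| < |n| := by
    have := (tendsto_order.1 hE.abs).2 |n| (by simpa using abs_pos.mpr hn)
    simpa using this
  obtain ⟨η, hη, hball⟩ := Metric.eventually_nhds_iff.1 (h1.and hw)
  obtain ⟨a, b, ha1, ha2, hb1, hb2, hab⟩ := hp η hη
  have hA := hball (y := a) (by rw [Real.dist_eq, sub_zero, abs_of_neg ha2]; linarith)
  have hB := hball (y := b) (by rw [Real.dist_eq, sub_zero, abs_of_pos hb1]; linarith)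
  have hsa : 0 < n * (n + E a) := by
    have := hA.1
    rcases lt_or_gt_of_ne hn with h | h
    · rw [abs_of_neg h] at this
      have := (abs_lt.1 this).2
      nlinarith
    · rw [abs_of_pos h] at this
      have := (abs_lt.1 this).1
      nlinarith
  have hsb : 0 < n * (n + E b) := by
    have := hB.1
    rcases lt_or_gt_of_ne hn with h | h
    · rw [abs_of_neg h] at this
      have := (abs_lt.1 this).2
      nlinarith
    · rw [abs_of_pos h] at this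
      have := (abs_lt.1 this).1
      nlinarith
  have hak : a ^ k < 0 := hk.pow_neg ha2
  have hbk : 0 < b ^ k := by positivity
  have e1 : n * (N a * w b) < 0 := by
    rw [hN]
    have : n * (a ^ k * (n + E a) * w b) = a ^ k * ((n * (n + E a)) * w b) := by ring
    rw [this]
    exact mul_neg_of_neg_of_pos hak (mul_pos hsa hB.2)
  have e2 : 0 < n * (N b * w a) := by
    rw [hN]
    have : n * (b ^ k * (n + E b) * w a) = b ^ k * ((n * (n + E b)) * w a) := by ring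
    rw [this]
    exact mul_pos hbk (mul_pos hsb hA.2)
  rw [hab] at e1
  linarith

/-- existence of small pairs with equal values -/
lemma exists_pairs {D e : ℝ → ℝ} {d : ℝ} (hd : 0 < d) (he : Tendsto e (𝓝 0) (𝓝 0))
    (hD : ∀ h, D h = h ^ 2 * (d + e h)) (hc : ∀ᶠ h in 𝓝 (0 : ℝ), ContinuousAt D h) :
    ∀ η > 0, ∃ h₁ h₂ : ℝ, -η < h₁ ∧ h₁ < 0 ∧ 0 < h₂ ∧ h₂ < η ∧ D h₁ = D h₂ := by
  intro η hη
  have h1 : ∀ᶠ h in 𝓝 (0 : ℝ), |e h| < d := by
    have := (tendsto_order.1 he.abs).2 d (by simpa using hd)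
    simpa using this
  obtain ⟨r, hr, hball⟩ := Metric.eventually_nhds_iff.1 (h1.and hc)
  set ξ := min (η / 2) (r / 2) with hξ
  have hξ0 : 0 < ξ := by positivity
  have hξη : ξ < η := lt_of_le_of_lt (min_le_left _ _) (by linarith)
  have hξr : ξ < r := lt_of_le_of_lt (min_le_right _ _) (by linarith)
  have hpos : ∀ h : ℝ, |h| < r → h ≠ 0 → 0 < D h := by
    intro h hh h0
    have := (hball (y := h) (by simpa [Real.dist_eq] using hh)).1
    rw [hD]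
    have h2 := (abs_lt.1 this).1
    have : 0 < h ^ 2 := by positivity
    exact mul_pos this (by linarith)
  have hD0 : D 0 = 0 := by rw [hD]; simp
  have hcont : ContinuousAt D 0 := (hball (y := 0) (by simpa using hr)).2
  have hm : 0 < D (-ξ) := hpos _ (by rw [abs_neg, abs_of_pos hξ0]; exact hξr) (by linarith)
  have h3 : ∀ᶠ h in 𝓝 (0 : ℝ), D h < D (-ξ) := by
    have := hcont.tendsto
    rw [hD0] at this
    exact (tendsto_order.1 this).2 _ hm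
  obtain ⟨r', hr', hball'⟩ := Metric.eventually_nhds_iff.1 h3
  set b := min (ξ / 2) (r' / 2) with hb
  have hb0 : 0 < b := by positivity
  have hbξ : b < ξ := lt_of_le_of_lt (min_le_left _ _) (by linarith)
  have hbr : b < r' := lt_of_le_of_lt (min_le_right _ _) (by linarith)
  have hDb : D b < D (-ξ) := hball' (by rw [Real.dist_eq, sub_zero, abs_of_pos hb0]; exact hbr)
  have hDb0 : 0 < D b := hpos b (by rw [abs_of_pos hb0]; linarith) hb0.ne'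
  have hcon : ContinuousOn D (Icc (-ξ) 0) := by
    intro x hx
    have : |x| < r := by rw [abs_of_nonpos hx.2]; linarith [hx.1]
    exact ((hball (y := x) (by simpa [Real.dist_eq] using this)).2).continuousWithinAt
  have h4 : D b ∈ Icc (D 0) (D (-ξ)) := ⟨by rw [hD0]; exact hDb0.le, hDb.le⟩
  obtain ⟨a, ha, hDa⟩ := intermediate_value_Icc' (by linarith : -ξ ≤ 0) hcon h4
  have ha0 : a ≠ 0 := by
    rintro rfl
    rw [hD0] at hDa
    linarith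
  refine ⟨a, b, by linarith [ha.1], lt_of_le_of_ne ha.2 ha0, hb0, by linarith, hDa⟩

/-- The odd jet lemma. -/
theorem odd_jet {D s : ℝ → ℝ} {c d2 d3 d4 d5 a1 a2 a3 a4 : ℝ} (hd2 : 0 < d2)
    (hc : ∀ᶠ h in 𝓝 (0 : ℝ), ContinuousAt D h)
    (hD : Sm 5 fun h => D h - (d2 * h ^ 2 + d3 * h ^ 3 + d4 * h ^ 4 + d5 * h ^ 5))
    (hs : Sm 4 fun h => s h - (a1 * h + a2 * h ^ 2 + a3 * h ^ 3 + a4 * h ^ 4))
    (hp : ∃ δ > 0, ∀ h₁ h₂ : ℝ, -δ < h₁ → h₁ < 0 → 0 < h₂ → h₂ < δ → D h₁ = D h₂ →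
      s h₁ + s h₂ + c * s h₁ * s h₂ = 0) :
    ∃ α β : ℝ, a1 ^ 2 = α * d2 ∧ 2 * a1 * a2 = α * (d3 + c * (a1 * d2)) ∧
      a2 ^ 2 + 2 * a1 * a3 = α * (d4 + c * (a1 * d3 + a2 * d2)) + β * d2 ^ 2 ∧
      2 * a1 * a4 + 2 * a2 * a3 = α * (d5 + c * (a1 * d4 + a2 * d3 + a3 * d2))
        + β * (2 * d2 * d3 + c * a1 * d2 ^ 2) := by
  obtain ⟨eD, heD, hDe⟩ := hD
  obtain ⟨es, hes, hse⟩ := hs
  obtain ⟨δ, hδ, hpair⟩ := hp
  have hDf : ∀ h, D h = d2 * h ^ 2 + d3 * h ^ 3 + d4 * h ^ 4 + d5 * h ^ 5 + eD h * h ^ 5 :=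
    fun h => by have := hDe h; linarith
  have hsf : ∀ h, s h = a1 * h + a2 * h ^ 2 + a3 * h ^ 3 + a4 * h ^ 4 + es h * h ^ 4 :=
    fun h => by have := hse h; linarith
  have hz : Tendsto (fun h : ℝ => ((h, eD h, es h) : ℝ × ℝ × ℝ)) (𝓝 0) (𝓝 (0, 0, 0)) :=
    tendsto_id.prodMk_nhds (heD.prodMk_nhds hes)
  have hlim : ∀ Φ : ℝ × ℝ × ℝ → ℝ, Continuous Φ → Φ (0, 0, 0) = 0 →
      Tendsto (fun h : ℝ => Φ (h, eD h, es h)) (𝓝 0) (𝓝 0) := by
    intro Φ hΦ h0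
    have := (hΦ.tendsto (0, 0, 0)).comp hz
    rw [h0] at this
    exact this
  -- pairs
  have hpairs : ∀ η > 0, ∃ h₁ h₂ : ℝ, -η < h₁ ∧ h₁ < 0 ∧ 0 < h₂ ∧ h₂ < η ∧
      D h₁ = D h₂ ∧ s h₁ + s h₂ + c * s h₁ * s h₂ = 0 := by
    intro η hη
    obtain ⟨x, y, hx1, hx2, hy1, hy2, hxy⟩ := exists_pairs (D := D)
      (e := fun h => d3 * h + d4 * h ^ 2 + d5 * h ^ 3 + eD h * h ^ 3) hd2
      (hlim (fun z => d3 * z.1 + d4 * z.1 ^ 2 + d5 * z.1 ^ 3 + z.2.1 * z.1 ^ 3) (by fun_prop)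
        (by simp)) (fun h => by rw [hDf]; ring) hc (min η δ) (lt_min hη hδ)
    have h1 : min η δ ≤ η := min_le_left _ _
    have h2 : min η δ ≤ δ := min_le_right _ _
    exact ⟨x, y, by linarith, hx2, hy1, by linarith, hxy,
      hpair x y (by linarith) hx2 hy1 (by linarith) hxy⟩
  have hw : ∀ᶠ h in 𝓝 (0 : ℝ), 0 < 1 + c * s h := by
    have h1 : Tendsto (fun h => 1 + c * s h) (𝓝 0) (𝓝 1) := by
      have := hlim (fun z => c * (a1 * z.1 + a2 * z.1 ^ 2 + a3 * z.1 ^ 3 + a4 * z.1 ^ 4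
        + z.2.2 * z.1 ^ 4)) (by fun_prop) (by simp)
      have h2 := this.const_add 1
      rw [add_zero] at h2
      refine h2.congr fun h => ?_
      rw [hsf]
    exact (tendsto_order.1 h1).1 0 one_pos
  -- the function N
  have hNp : ∀ (α β : ℝ) (η : ℝ), η > 0 → ∃ h₁ h₂ : ℝ, -η < h₁ ∧ h₁ < 0 ∧ 0 < h₂ ∧ h₂ < η ∧
      (s h₁ ^ 2 - (α * D h₁ + β * D h₁ ^ 2) * (1 + c * s h₁)) * (1 + c * s h₂)
      = (s h₂ ^ 2 - (α * D h₂ + β * D h₂ ^ 2) * (1 + c * s h₂)) * (1 + c * s h₁) := by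
    intro α β η hη
    obtain ⟨x, y, h1, h2, h3, h4, h5, h6⟩ := hpairs η hη
    refine ⟨x, y, h1, h2, h3, h4, ?_⟩
    rw [h5]
    linear_combination (s x - s y) * h6
  set α := a1 ^ 2 / d2 with hα
  have hαd : a1 ^ 2 = α * d2 := by rw [hα]; field_simp
  have hn3 : 2 * a1 * a2 - α * (d3 + c * (a1 * d2)) = 0 := by
    refine sign_lem (N := fun h => s h ^ 2 - (α * D h + 0 * D h ^ 2) * (1 + c * s h))
      (k := 3) (by decide)
      (hlim (fun z => (a2 ^ 2 + 2 * a1 * a3) * z.1 + (2 * a1 * a4 + 2 * a2 * a3) * z.1 ^ 2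
        + (a3 ^ 2 + 2 * a2 * a4) * z.1 ^ 3 + 2 * a3 * a4 * z.1 ^ 4 + a4 ^ 2 * z.1 ^ 5
        + z.2.2 * (2 * (a1 * z.1 ^ 2 + a2 * z.1 ^ 3 + a3 * z.1 ^ 4 + a4 * z.1 ^ 5)
          + z.2.2 * z.1 ^ 5)
        - α * (d4 * z.1 + d5 * z.1 ^ 2 + z.2.1 * z.1 ^ 2)
        - α * c * ((d2 + d3 * z.1 + d4 * z.1 ^ 2 + d5 * z.1 ^ 3 + z.2.1 * z.1 ^ 3)
            * (a2 * z.1 + a3 * z.1 ^ 2 + a4 * z.1 ^ 3 + z.2.2 * z.1 ^ 3)
          + a1 * (d3 * z.1 + d4 * z.1 ^ 2 + d5 * z.1 ^ 3 + z.2.1 * z.1 ^ 3)))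
        (by fun_prop) (by simp)) (fun h => ?_) (fun h => 1 + c * s h) hw
      (fun η hη => hNp α 0 η hη)
    simp only
    rw [hDf, hsf]
    linear_combination (h ^ 2) * hαd
  set β := (a2 ^ 2 + 2 * a1 * a3 - α * (d4 + c * (a1 * d3 + a2 * d2))) / d2 ^ 2 with hβ
  have hβd : a2 ^ 2 + 2 * a1 * a3 = α * (d4 + c * (a1 * d3 + a2 * d2)) + β * d2 ^ 2 := by
    rw [hβ]; field_simp; ring
  refine ⟨α, β, hαd, by linarith, hβd, ?_⟩
  have hn5 : 2 * a1 * a4 + 2 * a2 * a3 - α * (d5 + c * (a1 * d4 + a2 * d3 + a3 * d2))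
        - β * (2 * d2 * d3 + c * a1 * d2 ^ 2) = 0 := by
    refine sign_lem (N := fun h => s h ^ 2 - (α * D h + β * D h ^ 2) * (1 + c * s h))
      (k := 5) (by decide)
      (hlim (fun z => (a3 ^ 2 + 2 * a2 * a4) * z.1 + 2 * a3 * a4 * z.1 ^ 2 + a4 ^ 2 * z.1 ^ 3
        + z.2.2 * (2 * (a1 + a2 * z.1 + a3 * z.1 ^ 2 + a4 * z.1 ^ 3)
          + z.2.2 * z.1 ^ 3)
        - α * z.2.1
        - α * c * (a1 * (d5 * z.1 + z.2.1 * z.1)
          + a2 * (d4 * z.1 + d5 * z.1 ^ 2 + z.2.1 * z.1 ^ 2)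
          + a3 * (d3 * z.1 + d4 * z.1 ^ 2 + d5 * z.1 ^ 3 + z.2.1 * z.1 ^ 3)
          + (a4 + z.2.2) * z.1 * (d2 + d3 * z.1 + d4 * z.1 ^ 2 + d5 * z.1 ^ 3
            + z.2.1 * z.1 ^ 3))
        - β * ((d3 ^ 2 + 2 * d2 * d4) * z.1 + 2 * d2 * (d5 + z.2.1) * z.1 ^ 2
            + 2 * d3 * d4 * z.1 ^ 2 + (d4 ^ 2 + 2 * d3 * (d5 + z.2.1)) * z.1 ^ 3
            + 2 * d4 * (d5 + z.2.1) * z.1 ^ 4 + (d5 + z.2.1) ^ 2 * z.1 ^ 5)
        - β * c * (a1 * (2 * d2 * d3 * z.1 + (d3 ^ 2 + 2 * d2 * d4) * z.1 ^ 2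
              + (2 * d2 * (d5 + z.2.1) + 2 * d3 * d4) * z.1 ^ 3
              + (d4 ^ 2 + 2 * d3 * (d5 + z.2.1)) * z.1 ^ 4
              + 2 * d4 * (d5 + z.2.1) * z.1 ^ 5 + (d5 + z.2.1) ^ 2 * z.1 ^ 6)
            + (a2 * z.1 + a3 * z.1 ^ 2 + a4 * z.1 ^ 3 + z.2.2 * z.1 ^ 3)
              * (d2 + d3 * z.1 + d4 * z.1 ^ 2 + d5 * z.1 ^ 3 + z.2.1 * z.1 ^ 3) ^ 2))
        (by fun_prop) (by simp)) (fun h => ?_) (fun h => 1 + c * s h) hw
      (fun η hη => hNp α β η hη)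
    simp only
    rw [hDf, hsf]
    linear_combination (h ^ 2) * hαd + (h ^ 3) * hn3 + (h ^ 4) * hβd
  linarith

end Pool.Agent.X179.PI
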