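import Mathlib

/-!
Positive periodic solutions of two third order equations are constant.
-/

set_option autoImplicit false

open Filter Topology Set

namespace Pool.Agent.X179.PI

/-- `w = ρ ^ (-1/3)` -/
lemma exists_w {ρ ρ1 : ℝ → ℝ} (hpos : ∀ t, 0 < ρ t) (h1 : ∀ t, HasDerivAt ρ (ρ1 t) t) :
    ∃ w : ℝ → ℝ, (∀ t, 0 < w t) ∧ (∀ t, w t ^ 3 * ρ t = 1) ∧
      ∀ t, HasDerivAt w (-(1 / 3) * w t ^ 4 * ρ1 t) t := by
  refine ⟨fun t => ρ t ^ (-(1 / 3) : ℝ), fun t => Real.rpow_pos_of_pos (hpos t) _, fun t => ?_,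
    fun t => ?_⟩
  · simp only
    rw [← Real.rpow_natCast (ρ t ^ (-(1 / 3) : ℝ)) 3, ← Real.rpow_mul (hpos t).le]
    norm_num
    rw [Real.rpow_neg_one]
    exact inv_mul_cancel₀ (hpos t).ne'
  · have := (h1 t).rpow_const (p := (-(1 / 3) : ℝ)) (Or.inl (hpos t).ne')
    refine this.congr_deriv ?_
    simp only
    rw [← Real.rpow_natCast (ρ t ^ (-(1 / 3) : ℝ)) 4, ← Real.rpow_mul (hpos t).le]
    norm_num
    ring

/-- at a global maximum the second derivative is nonpositive -/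
lemma max_second {W W1 W2 : ℝ → ℝ} (h1 : ∀ t, HasDerivAt W (W1 t) t)
    (h2 : ∀ t, HasDerivAt W1 (W2 t) t) {m : ℝ} (hall : ∀ t, W t ≤ W m) :
    W1 m = 0 ∧ W2 m ≤ 0 := by
  have hloc : IsLocalMax W m := Filter.Eventually.of_forall hall
  have hd : W1 m = 0 := by
    have := hloc.deriv_eq_zero
    rw [(h1 m).deriv] at this
    exact this
  refine ⟨hd, ?_⟩
  by_contra hpos
  push Not at hpos
  have hderiv : deriv W = W1 := funext fun t => (h1 t).deriv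
  have hmin : IsLocalMin W m := by
    apply isLocalMin_of_deriv_deriv_pos
    · rw [hderiv, (h2 m).deriv]; exact hpos
    · rw [hderiv]; exact hd
    · exact (h1 m).continuousAt
  have hconst : W =ᶠ[𝓝 m] fun _ => W m := by
    filter_upwards [hmin, hloc] with t a b
    exact le_antisymm b a
  have hW1 : W1 =ᶠ[𝓝 m] fun _ => 0 := by
    filter_upwards [hconst.eventuallyEq_nhds] with t ht
    have := ht.deriv_eq
    rw [(h1 t).deriv] at this
    simpa using this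
  have := hW1.deriv_eq
  rw [(h2 m).deriv] at this
  simp at this
  linarith

lemma exists_max {W : ℝ → ℝ} {T : ℝ} (hT : 0 < T) (hper : Function.Periodic W T)
    (hcont : Continuous W) : ∃ m, ∀ t, W t ≤ W m := by
  obtain ⟨m, hm, hmax⟩ := isCompact_Icc.exists_isMaxOn (s := Set.Icc (0 : ℝ) T)
    (Set.nonempty_Icc.mpr hT.le) hcont.continuousOn
  refine ⟨m, fun t => ?_⟩
  obtain ⟨s, hs, hst⟩ := hper.exists_mem_Ico₀ hT t
  rw [hst]
  exact hmax ⟨hs.1, hs.2.le⟩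

/-- the oscillation argument -/
lemma const_of_integral {ρ ρ1 ρ2 w : ℝ → ℝ} {T A B C K : ℝ} {p j q : ℕ} (hT : 0 < T)
    (hper : Function.Periodic ρ T) (hpos : ∀ t, 0 < ρ t) (h1 : ∀ t, HasDerivAt ρ (ρ1 t) t)
    (h2 : ∀ t, HasDerivAt ρ1 (ρ2 t) t) (hw : ∀ t, 0 < w t) (hwρ : ∀ t, w t ^ 3 * ρ t = 1)
    (hA : 0 < A) (hC : 0 < C) (hq : q ≠ 0)
    (hI : ∀ t, A * ρ2 t * w t ^ p - B * ρ1 t ^ 2 * w t ^ j + C * w t ^ q = K) :
    ∀ t s, ρ t = ρ s := by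
  have hcont : Continuous ρ := continuous_iff_continuousAt.mpr fun t => (h1 t).continuousAt
  obtain ⟨M, hM⟩ := exists_max hT hper hcont
  obtain ⟨m, hm⟩ := exists_max (W := fun t => -ρ t) hT (fun t => by simp [hper t]) hcont.neg
  obtain ⟨hM1, hM2⟩ := max_second h1 h2 hM
  obtain ⟨hm1, hm2⟩ := max_second (W := fun t => -ρ t) (W1 := fun t => -ρ1 t)
    (W2 := fun t => -ρ2 t) (fun t => (h1 t).neg) (fun t => (h2 t).neg) hm
  have hm1' : ρ1 m = 0 := by simpa using hm1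
  have hm2' : 0 ≤ ρ2 m := by simpa using hm2
  have eM := hI M
  have em := hI m
  rw [hM1] at eM
  rw [hm1'] at em
  have e1 : K ≤ C * w M ^ q := by
    have : A * ρ2 M * w M ^ p ≤ 0 := by
      have : 0 ≤ w M ^ p := (pow_pos (hw M) p).le
      have h3 : A * ρ2 M ≤ 0 := mul_nonpos_of_nonneg_of_nonpos hA.le hM2
      exact mul_nonpos_of_nonpos_of_nonneg h3 this
    nlinarith
  have e2 : C * w m ^ q ≤ K := by
    have : 0 ≤ A * ρ2 m * w m ^ p := by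
      have : 0 ≤ w m ^ p := (pow_pos (hw m) p).le
      positivity
    nlinarith
  have e3 : w m ^ q ≤ w M ^ q := by
    have := e2.trans e1
    exact le_of_mul_le_mul_left this hC
  have e4 : w m ≤ w M := (pow_le_pow_iff_left₀ (hw m).le (hw M).le hq).1 e3
  have e5 : ρ M ≤ ρ m := by
    have h3 : w m ^ 3 ≤ w M ^ 3 := pow_le_pow_left₀ (hw m).le e4 3
    have a1 := hwρ m
    have a2 := hwρ M
    have p1 : 0 < w m ^ 3 := pow_pos (hw m) 3
    have p2 : 0 < w M ^ 3 := pow_pos (hw M) 3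
    have b1 : ρ m = 1 / w m ^ 3 := by rw [eq_div_iff p1.ne']; linarith
    have b2 : ρ M = 1 / w M ^ 3 := by rw [eq_div_iff p2.ne']; linarith
    rw [b1, b2]
    exact one_div_le_one_div_of_le p1 h3
  have key : ∀ t, ρ t = ρ M := fun t => le_antisymm (hM t) (by
    have := hm t
    simp only [neg_le_neg_iff] at this
    linarith)
  intro t s
  rw [key t, key s]

/-- the equation of the parallel curves -/
theorem ode_parallel {ρ ρ1 ρ2 ρ3 : ℝ → ℝ} {T : ℝ} (hT : 0 < T) (hper : Function.Periodic ρ T)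
    (hpos : ∀ t, 0 < ρ t) (h1 : ∀ t, HasDerivAt ρ (ρ1 t) t) (h2 : ∀ t, HasDerivAt ρ1 (ρ2 t) t)
    (h3 : ∀ t, HasDerivAt ρ2 (ρ3 t) t)
    (ode : ∀ t, 9 * ρ t ^ 2 * ρ3 t
      = 99 * ρ t ^ 2 * ρ1 t + 60 * ρ t * ρ1 t * ρ2 t - 65 * ρ1 t ^ 3) :
    ∀ t s, ρ t = ρ s := by
  obtain ⟨w, hw, hwρ, hwd⟩ := exists_w hpos h1
  have hd : ∀ t, HasDerivAt (fun t => 2 / 3 * ρ2 t * w t ^ 10 - 10 / 9 * ρ1 t ^ 2 * w t ^ 13
      + 22 / 7 * w t ^ 7) 0 t := by
    intro t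
    have a1 := ((h3 t).const_mul (2 / 3)).mul ((hwd t).pow 10)
    have a2 := (((h2 t).pow 2).const_mul (10 / 9)).mul ((hwd t).pow 13)
    have a3 := ((hwd t).pow 7).const_mul (22 / 7)
    refine ((a1.sub a2).add a3).congr_deriv ?_
    have e := ode t
    have f := hwρ t
    have hwt := (hw t).ne'
    have hr : ρ t = 1 / w t ^ 3 := by field_simp; linarith
    rw [hr] at e
    have e' : 9 * ρ3 t = 99 * ρ1 t + 60 * ρ1 t * ρ2 t * w t ^ 3 - 65 * ρ1 t ^ 3 * w t ^ 6 := by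
      field_simp at e
      linarith
    simp only [Pi.pow_apply]
    norm_num
    linear_combination (2 / 27 * w t ^ 10) * e'
  have hK : ∀ t, 2 / 3 * ρ2 t * w t ^ 10 - 10 / 9 * ρ1 t ^ 2 * w t ^ 13 + 22 / 7 * w t ^ 7
      = 2 / 3 * ρ2 0 * w 0 ^ 10 - 10 / 9 * ρ1 0 ^ 2 * w 0 ^ 13 + 22 / 7 * w 0 ^ 7 := fun t =>
    is_const_of_deriv_eq_zero (fun t => (hd t).differentiableAt) (fun t => (hd t).deriv) t 0
  exact const_of_integral hT hper hpos h1 h2 hw hwρ (by norm_num) (by norm_num) (by norm_num) hK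

/-- the equation of the string curves -/
theorem ode_string {ρ ρ1 ρ2 ρ3 : ℝ → ℝ} {T : ℝ} (hT : 0 < T) (hper : Function.Periodic ρ T)
    (hpos : ∀ t, 0 < ρ t) (h1 : ∀ t, HasDerivAt ρ (ρ1 t) t) (h2 : ∀ t, HasDerivAt ρ1 (ρ2 t) t)
    (h3 : ∀ t, HasDerivAt ρ2 (ρ3 t) t)
    (ode : ∀ t, 18 * ρ t ^ 2 * ρ3 t
      = 63 * ρ t ^ 2 * ρ1 t + 90 * ρ t * ρ1 t * ρ2 t - 80 * ρ1 t ^ 3) :
    ∀ t s, ρ t = ρ s := by
  obtain ⟨w, hw, hwρ, hwd⟩ := exists_w hpos h1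
  have hd : ∀ t, HasDerivAt (fun t => 2 * ρ2 t * w t ^ 7 - 8 / 3 * ρ1 t ^ 2 * w t ^ 10
      + 21 / 4 * w t ^ 4) 0 t := by
    intro t
    have a1 := ((h3 t).const_mul 2).mul ((hwd t).pow 7)
    have a2 := (((h2 t).pow 2).const_mul (8 / 3)).mul ((hwd t).pow 10)
    have a3 := ((hwd t).pow 4).const_mul (21 / 4)
    refine ((a1.sub a2).add a3).congr_deriv ?_
    have e := ode t
    have f := hwρ t
    have hwt := (hw t).ne'
    have hr : ρ t = 1 / w t ^ 3 := by field_simp; linarith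
    rw [hr] at e
    have e' : 18 * ρ3 t = 63 * ρ1 t + 90 * ρ1 t * ρ2 t * w t ^ 3 - 80 * ρ1 t ^ 3 * w t ^ 6 := by
      field_simp at e
      linarith
    simp only [Pi.pow_apply]
    norm_num
    linear_combination (1 / 9 * w t ^ 7) * e'
  have hK : ∀ t, 2 * ρ2 t * w t ^ 7 - 8 / 3 * ρ1 t ^ 2 * w t ^ 10 + 21 / 4 * w t ^ 4
      = 2 * ρ2 0 * w 0 ^ 7 - 8 / 3 * ρ1 0 ^ 2 * w 0 ^ 10 + 21 / 4 * w 0 ^ 4 := fun t =>
    is_const_of_deriv_eq_zero (fun t => (hd t).differentiableAt) (fun t => (hd t).deriv) t 0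
  exact const_of_integral hT hper hpos h1 h2 hw hwρ (by norm_num) (by norm_num) (by norm_num) hK

end Pool.Agent.X179.PI
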