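import Pool.Agent.X179.PI.Rel
import Pool.Agent.X179.PI.Circ

/-!
Parallel curves.
-/

set_option autoImplicit false

open Filter Topology Set

namespace Pool.Agent.X179.PI

/-- the outer parallel curve of `γ` at distance `r` -/
noncomputable def parallelCurve (x y : ℝ → ℝ) (r : ℝ) : Set (ℝ × ℝ) :=
  range fun θ : ℝ => (x θ + r * Real.cos θ, y θ + r * Real.sin θ)

lemma cos_ne_zero_near : ∀ᶠ h in 𝓝 (0 : ℝ), 0 < Real.cos h := by
  have : Tendsto Real.cos (𝓝 0) (𝓝 1) := by simpa using Real.continuous_cos.tendsto 0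
  exact (tendsto_order.1 this).1 0 one_pos

section
variable {x y ρ ρ1 ρ2 ρ3 : ℝ → ℝ} (hx : ∀ t, HasDerivAt x (-(ρ t * Real.sin t)) t)
  (hy : ∀ t, HasDerivAt y (ρ t * Real.cos t) t) (h1 : ∀ t, HasDerivAt ρ (ρ1 t) t)
  (h2 : ∀ t, HasDerivAt ρ1 (ρ2 t) t) (h3 : ∀ t, HasDerivAt ρ2 (ρ3 t) t) (hc : Continuous ρ3)
include hx hy h1 h2 h3 hc

lemma par_D (t : ℝ) : Sm 5 (fun h => U x y t h / Real.cos h - (ρ t / 2 * h ^ 2 + ρ1 t / 3 * h ^ 3
    + (5 * ρ t / 24 + ρ2 t / 8) * h ^ 4 + (2 * ρ1 t / 15 + ρ3 t / 30) * h ^ 5)) := by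
  obtain ⟨eU, heU, hU⟩ := sm_U hx hy h1 h2 h3 hc t
  obtain ⟨es, hes, hs⟩ := sm_cos4
  have e5 : Sm 5 (fun h => U x y t h - (ρ t / 2 * h ^ 2 + ρ1 t / 3 * h ^ 3
    + (5 * ρ t / 24 + ρ2 t / 8) * h ^ 4 + (2 * ρ1 t / 15 + ρ3 t / 30) * h ^ 5) * Real.cos h) := by
    refine ⟨_, lim2 heU hes (fun z => z.2.1 - z.2.2 * z.1 * (ρ t / 2 + ρ1 t / 3 * z.1
      + (5 * ρ t / 24 + ρ2 t / 8) * z.1 ^ 2 + (2 * ρ1 t / 15 + ρ3 t / 30) * z.1 ^ 3)
      - (z.1 / 24 * (ρ t / 2 + ρ1 t / 3 * z.1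
      + (5 * ρ t / 24 + ρ2 t / 8) * z.1 ^ 2 + (2 * ρ1 t / 15 + ρ3 t / 30) * z.1 ^ 3))
      + z.1 / 2 * ((5 * ρ t / 24 + ρ2 t / 8) + (2 * ρ1 t / 15 + ρ3 t / 30) * z.1))
        (by fun_prop) (by simp), fun h => ?_⟩
    have a := hU h
    have b := hs h
    have a' : U x y t h = (ρ t / 2 * h ^ 2 + ρ1 t / 3 * h ^ 3
      + (ρ2 t / 8 - ρ t / 24) * h ^ 4 + (ρ3 t / 30 - ρ1 t / 30) * h ^ 5) + eU h * h ^ 5 := by
      linarith
    have b' : Real.cos h = 1 - h ^ 2 / 2 + h ^ 4 / 24 + es h * h ^ 4 := by linarith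
    simp only
    rw [a', b']
    ring
  have l : Tendsto (fun h => (Real.cos h)⁻¹) (𝓝 0) (𝓝 1) := by
    have := (Real.continuous_cos.tendsto 0).inv₀ (by simp)
    simpa using this
  obtain ⟨e, he, hee⟩ := e5.mul_tendsto l
  -- the identity only holds where `cos h ≠ 0`; correct `e` elsewhere
  refine ⟨fun h => if h = 0 then 0 else (U x y t h / Real.cos h - (ρ t / 2 * h ^ 2 + ρ1 t / 3 * h ^ 3
    + (5 * ρ t / 24 + ρ2 t / 8) * h ^ 4 + (2 * ρ1 t / 15 + ρ3 t / 30) * h ^ 5)) / h ^ 5, ?_, ?_⟩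
  · refine he.congr' ?_
    filter_upwards [cos_ne_zero_near] with h hcos
    by_cases h0 : h = 0
    · subst h0
      have : Tendsto e (𝓝 0) (𝓝 (e 0)) := by
        have h2 := tendsto_nhds_unique (tendsto_pure_nhds e 0) (he.mono_left (pure_le_nhds 0))
        rw [h2]; exact he
      simp only [if_true]
      exact tendsto_nhds_unique this he
    · simp only [h0, if_false]
      rw [eq_div_iff (by positivity)]
      rw [← hee h]
      field_simp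
  · intro h
    by_cases h0 : h = 0
    · subst h0
      simp [U]
    · simp only [h0, if_false]
      field_simp

lemma par_s (t : ℝ) : Sm 4 (fun h => (V x y t h + U x y t h / Real.cos h * Real.sin h)
    - (ρ t * h + ρ1 t / 2 * h ^ 2 + (ρ t / 3 + ρ2 t / 6) * h ^ 3
      + (5 * ρ1 t / 24 + ρ3 t / 24) * h ^ 4)) := by
  obtain ⟨eD, heD, hD⟩ := par_D hx hy h1 h2 h3 hc t
  obtain ⟨es, hes, hs⟩ := sm_sin3
  have e4 : Sm 4 (fun h => U x y t h / Real.cos h * Real.sin h - (ρ t / 2 * h ^ 3 + ρ1 t / 3 * h ^ 4)) := by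
    refine ⟨_, lim2 heD hes (fun z => z.1 * ((5 * ρ t / 24 + ρ2 t / 8)
        + (2 * ρ1 t / 15 + ρ3 t / 30) * z.1) - z.1 / 6 * (ρ t / 2 + ρ1 t / 3 * z.1
        + (5 * ρ t / 24 + ρ2 t / 8) * z.1 ^ 2 + (2 * ρ1 t / 15 + ρ3 t / 30) * z.1 ^ 3)
      + z.2.2 * z.1 * (ρ t / 2 + ρ1 t / 3 * z.1
        + (5 * ρ t / 24 + ρ2 t / 8) * z.1 ^ 2 + (2 * ρ1 t / 15 + ρ3 t / 30) * z.1 ^ 3)
      + z.2.1 * z.1 ^ 2 * (1 - z.1 ^ 2 / 6 + z.2.2 * z.1 ^ 2))
        (by fun_prop) (by simp), fun h => ?_⟩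
    have a := hD h
    have b := hs h
    have a' : U x y t h / Real.cos h = (ρ t / 2 * h ^ 2 + ρ1 t / 3 * h ^ 3
      + (5 * ρ t / 24 + ρ2 t / 8) * h ^ 4 + (2 * ρ1 t / 15 + ρ3 t / 30) * h ^ 5) + eD h * h ^ 5 := by
      linarith
    have b' : Real.sin h = h - h ^ 3 / 6 + es h * h ^ 3 := by linarith
    simp only
    rw [a', b']
    ring
  exact ((sm_V hx hy h1 h2 h3 hc t).add e4).congr fun h => by ring

end

lemma ode_of_rel_par {r0 r1 r2 r3 c α β : ℝ} (h0 : 0 < r0)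
    (e1 : r0 ^ 2 = α * (r0 / 2)) (e2 : 2 * r0 * (r1 / 2) = α * (r1 / 3 + c * (r0 * (r0 / 2))))
    (e3 : (r1 / 2) ^ 2 + 2 * r0 * (r0 / 3 + r2 / 6) = α * ((5 * r0 / 24 + r2 / 8)
      + c * (r0 * (r1 / 3) + r1 / 2 * (r0 / 2))) + β * (r0 / 2) ^ 2)
    (e4 : 2 * r0 * (5 * r1 / 24 + r3 / 24) + 2 * (r1 / 2) * (r0 / 3 + r2 / 6)
      = α * ((2 * r1 / 15 + r3 / 30) + c * (r0 * (5 * r0 / 24 + r2 / 8) + r1 / 2 * (r1 / 3)
        + (r0 / 3 + r2 / 6) * (r0 / 2))) + β * (2 * (r0 / 2) * (r1 / 3) + c * r0 * (r0 / 2) ^ 2)) :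
    9 * r0 ^ 2 * r3 = 99 * r0 ^ 2 * r1 + 60 * r0 * r1 * r2 - 65 * r1 ^ 3 := by
  have hα : α = 2 * r0 := by
    have : r0 * (α - 2 * r0) = 0 := by linarith
    rcases mul_eq_zero.1 this with h | h
    · exact absurd h h0.ne'
    · linarith
  subst hα
  have hcc : c = r1 / (3 * r0 ^ 2) := by
    rw [eq_div_iff (by positivity)]
    have : r0 * (c * (3 * r0 ^ 2) - r1) = 0 := by linarith
    rcases mul_eq_zero.1 this with h | h
    · exact absurd h h0.ne'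
    · linarith
  subst hcc
  have hβ : β = ((r1 / 2) ^ 2 + 2 * r0 * (r0 / 3 + r2 / 6) - 2 * r0 * ((5 * r0 / 24 + r2 / 8)
      + r1 / (3 * r0 ^ 2) * (r0 * (r1 / 3) + r1 / 2 * (r0 / 2)))) / (r0 / 2) ^ 2 := by
    rw [eq_div_iff (by positivity)]
    linarith
  subst hβ
  field_simp at e4
  ring_nf at e4 ⊢
  linarith

end Pool.Agent.X179.PI

namespace Pool.Agent.X179.PI

lemma tanPt_eq (x y : ℝ → ℝ) (t h D : ℝ) (hD : D * Real.cos h = U x y t h) :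
    tanPt x y t (V x y t h + D * Real.sin h)
      = (x (t + h) + D * Real.cos (t + h), y (t + h) + D * Real.sin (t + h)) := by
  have e := Real.sin_sq_add_cos_sq t
  refine Prod.ext ?_ ?_
  · simp only [tanPt]
    rw [Real.cos_add]
    simp only [U] at hD
    simp only [V]
    linear_combination (-Real.cos t) * hD + (x (t + h) - x t) * e
  · simp only [tanPt]
    rw [Real.sin_add]
    simp only [U] at hD
    simp only [V]
    linear_combination (-Real.sin t) * hD + (y (t + h) - y t) * e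

theorem parallel_main {x y ρ : ℝ → ℝ} (ho : Oval x y ρ)
    (hp : ∀ t, ProjectiveAt x y (parallelCurve x y) t) :
    ∃ u v R : ℝ, 0 < R ∧ (∀ θ, x θ = u + R * Real.cos θ ∧ y θ = v + R * Real.sin θ) ∧
      ∀ r > 0, parallelCurve x y r = {z | (z.1 - u) ^ 2 + (z.2 - v) ^ 2 = (R + r) ^ 2} := by
  obtain ⟨ρ1, ρ2, ρ3, h1, h2, h3, hc⟩ := ho.derivs
  have hconst : ∀ t s, ρ t = ρ s := by
    refine ode_parallel (ρ1 := ρ1) (ρ2 := ρ2) (ρ3 := ρ3) Real.two_pi_pos ho.per_rho ho.pos h1 h2 h3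
      fun t => ?_
    have hpos := ho.pos t
    have hcU : Continuous (U x y t) :=
      continuous_iff_continuousAt.mpr fun h => (hasDerivAt_U ho.dx ho.dy t h).continuousAt
    obtain ⟨c, α, β, e1, e2, e3, e4⟩ := rel_of_leaves (hp t)
      (D := fun h => U x y t h / Real.cos h)
      (s := fun h => V x y t h + U x y t h / Real.cos h * Real.sin h) (g := id)
      (by positivity : 0 < ρ t / 2) hpos
      (by
        filter_upwards [cos_ne_zero_near] with h hh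
        exact hcU.continuousAt.div Real.continuous_cos.continuousAt hh.ne')
      (par_D ho.dx ho.dy h1 h2 h3 hc t) (par_s ho.dx ho.dy h1 h2 h3 hc t)
      (by
        filter_upwards [cos_ne_zero_near] with h hh _ hD
        refine ⟨hD, ?_⟩
        rw [tanPt_eq x y t h _ (by field_simp)]
        exact ⟨t + h, rfl⟩)
    exact ode_of_rel_par hpos e1 e2 e3 e4
  obtain ⟨u, v, R, hR, hcirc⟩ := ho.circle hconst
  refine ⟨u, v, R, hR, hcirc, fun r hr => ?_⟩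
  ext z
  constructor
  · rintro ⟨θ, rfl⟩
    show (x θ + r * Real.cos θ - u) ^ 2 + (y θ + r * Real.sin θ - v) ^ 2 = (R + r) ^ 2
    rw [(hcirc θ).1, (hcirc θ).2]
    have := Real.sin_sq_add_cos_sq θ
    linear_combination (R + r) ^ 2 * this
  · intro hz
    obtain ⟨θ, rfl⟩ := exists_angle' (by positivity : 0 < R + r) hz
    refine ⟨θ, ?_⟩
    simp only
    rw [(hcirc θ).1, (hcirc θ).2]
    ext <;> simp <;> ring

end Pool.Agent.X179.PI
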