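import Pool.Agent.X179.PI.Exp
import Pool.Agent.X179.PI.Ode
import Pool.Agent.X179.PI.Defs

/-!
From projectivity to the four relations between jets.
-/

set_option autoImplicit false

open Filter Topology Set

namespace Pool.Agent.X179.PI

lemma mobius {a b c d : ℝ} (hdet : a * d - b * c ≠ 0)
    (hp : ∀ η > 0, ∃ s s' : ℝ, -η < s ∧ s < 0 ∧ 0 < s' ∧ s' < η ∧
      (c * s + d) * s' = a * s + b ∧ (c * s' + d) * s = a * s' + b) :
    a = -d ∧ b = 0 ∧ d ≠ 0 := by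
  have ha : a = -d := by
    obtain ⟨s, s', h1, h2, h3, h4, h5, h6⟩ := hp 1 one_pos
    have h7 : (a + d) * (s' - s) = 0 := by linear_combination h5 - h6
    rcases mul_eq_zero.1 h7 with h | h
    · linarith
    · exfalso; linarith
  have hb : b = 0 := by
    by_contra hb
    have hb' : 0 < |b| := abs_pos.mpr hb
    set η := min 1 (|b| / (|c| + 2 * |d| + 1)) with hη
    have hden : 0 < |c| + 2 * |d| + 1 := by positivity
    have hη0 : 0 < η := lt_min one_pos (div_pos hb' hden)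
    have hη1 : η ≤ 1 := min_le_left _ _
    have hη2 : η * (|c| + 2 * |d| + 1) ≤ |b| := by
      rw [← le_div_iff₀ hden]; exact min_le_right _ _
    obtain ⟨s, s', h1, h2, h3, h4, h5, h6⟩ := hp η hη0
    have h7 : b = c * (s * s') + d * (s + s') := by rw [ha] at h5; linarith
    have hs : |s| ≤ η := abs_le.2 ⟨by linarith, by linarith⟩
    have hs' : |s'| ≤ η := abs_le.2 ⟨by linarith, by linarith⟩
    have h8 : |b| ≤ |c| * (η * η) + |d| * (η + η) := by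
      rw [h7]
      refine (abs_add_le _ _).trans (add_le_add ?_ ?_)
      · rw [abs_mul, abs_mul]
        exact mul_le_mul_of_nonneg_left (mul_le_mul hs hs' (abs_nonneg _) hη0.le) (abs_nonneg _)
      · rw [abs_mul]
        exact mul_le_mul_of_nonneg_left ((abs_add_le _ _).trans (add_le_add hs hs'))
          (abs_nonneg _)
    have h9 : |c| * (η * η) ≤ |c| * η := by
      refine mul_le_mul_of_nonneg_left ?_ (abs_nonneg _)
      nlinarith
    nlinarith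
  refine ⟨ha, hb, ?_⟩
  rintro rfl
  rw [hb] at hdet
  simp at hdet

theorem rel_of_leaves {x y : ℝ → ℝ} {L : ℝ → Set (ℝ × ℝ)} {t : ℝ} (hproj : ProjectiveAt x y L t)
    {D s g : ℝ → ℝ} {d2 d3 d4 d5 a1 a2 a3 a4 : ℝ} (hd2 : 0 < d2) (ha1 : 0 < a1)
    (hc : ∀ᶠ h in 𝓝 (0 : ℝ), ContinuousAt D h)
    (hD : Sm 5 fun h => D h - (d2 * h ^ 2 + d3 * h ^ 3 + d4 * h ^ 4 + d5 * h ^ 5))
    (hs : Sm 4 fun h => s h - (a1 * h + a2 * h ^ 2 + a3 * h ^ 3 + a4 * h ^ 4))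
    (hmem : ∀ᶠ h in 𝓝 (0 : ℝ), h ≠ 0 → 0 < D h →
      0 < g (D h) ∧ tanPt x y t (s h) ∈ L (g (D h))) :
    ∃ c α β : ℝ, a1 ^ 2 = α * d2 ∧ 2 * a1 * a2 = α * (d3 + c * (a1 * d2)) ∧
      a2 ^ 2 + 2 * a1 * a3 = α * (d4 + c * (a1 * d3 + a2 * d2)) + β * d2 ^ 2 ∧
      2 * a1 * a4 + 2 * a2 * a3 = α * (d5 + c * (a1 * d4 + a2 * d3 + a3 * d2))
        + β * (2 * d2 * d3 + c * a1 * d2 ^ 2) := by
  obtain ⟨a, b, c, d, δ, hdet, hδ, hsw⟩ := hproj
  obtain ⟨eD, heD, hDe⟩ := id hD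
  obtain ⟨es, hes, hse⟩ := id hs
  have hDf : ∀ h, D h = h ^ 2 * (d2 + (d3 * h + d4 * h ^ 2 + d5 * h ^ 3 + eD h * h ^ 3)) :=
    fun h => by have := hDe h; linear_combination this
  have hsf : ∀ h, s h = h * (a1 + (a2 * h + a3 * h ^ 2 + a4 * h ^ 3 + es h * h ^ 3)) :=
    fun h => by have := hse h; linear_combination this
  have l1 : Tendsto (fun h => d3 * h + d4 * h ^ 2 + d5 * h ^ 3 + eD h * h ^ 3) (𝓝 0) (𝓝 0) :=
    lim2 heD hes (fun z => d3 * z.1 + d4 * z.1 ^ 2 + d5 * z.1 ^ 3 + z.2.1 * z.1 ^ 3)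
      (by fun_prop) (by simp)
  have l2 : Tendsto (fun h => a2 * h + a3 * h ^ 2 + a4 * h ^ 3 + es h * h ^ 3) (𝓝 0) (𝓝 0) :=
    lim2 heD hes (fun z => a2 * z.1 + a3 * z.1 ^ 2 + a4 * z.1 ^ 3 + z.2.2 * z.1 ^ 3)
      (by fun_prop) (by simp)
  have q1 : ∀ᶠ h in 𝓝 (0 : ℝ), -d2 < d3 * h + d4 * h ^ 2 + d5 * h ^ 3 + eD h * h ^ 3 :=
    (tendsto_order.1 l1).1 _ (by linarith)
  have q2 : ∀ᶠ h in 𝓝 (0 : ℝ), -a1 < a2 * h + a3 * h ^ 2 + a4 * h ^ 3 + es h * h ^ 3 :=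
    (tendsto_order.1 l2).1 _ (by linarith)
  have q3 : ∀ᶠ h in 𝓝 (0 : ℝ), a2 * h + a3 * h ^ 2 + a4 * h ^ 3 + es h * h ^ 3 < a1 :=
    (tendsto_order.1 l2).2 _ ha1
  obtain ⟨r, hr, hball⟩ := Metric.eventually_nhds_iff.1 (q1.and (q2.and (q3.and hmem)))
  -- facts for small h
  have hpos : ∀ h : ℝ, |h| < r → h ≠ 0 → 0 < D h := by
    intro h hh h0
    have := (hball (y := h) (by simpa [Real.dist_eq] using hh)).1
    rw [hDf]
    have h2 : 0 < h ^ 2 := by positivity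
    exact mul_pos h2 (by linarith)
  have hbd : ∀ h : ℝ, |h| < r → h ≠ 0 → 0 < h * s h ∧ |s h| < 2 * a1 * |h| := by
    intro h hh h0
    obtain ⟨-, b2, b3, -⟩ := hball (y := h) (by simpa [Real.dist_eq] using hh)
    have h2 : 0 < h ^ 2 := by positivity
    refine ⟨?_, ?_⟩
    · rw [hsf]
      have : 0 < h ^ 2 * (a1 + (a2 * h + a3 * h ^ 2 + a4 * h ^ 3 + es h * h ^ 3)) :=
        mul_pos h2 (by linarith)
      linarith
    · rw [hsf, abs_mul, mul_comm]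
      refine mul_lt_mul_of_pos_right ?_ (abs_pos.mpr h0)
      rw [abs_lt]
      constructor <;> linarith
  set δ' := min r (δ / (2 * a1)) with hδ'
  have hδ'0 : 0 < δ' := lt_min hr (by positivity)
  have hsδ : ∀ h : ℝ, |h| < δ' → h ≠ 0 → |s h| < δ := by
    intro h hh h0
    have e1 := (hbd h (lt_of_lt_of_le hh (min_le_left _ _)) h0).2
    have e2 : |h| < δ / (2 * a1) := lt_of_lt_of_le hh (min_le_right _ _)
    rw [lt_div_iff₀ (by positivity)] at e2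
    linarith
  have hswap : ∀ h₁ h₂ : ℝ, -δ' < h₁ → h₁ < 0 → 0 < h₂ → h₂ < δ' → D h₁ = D h₂ →
      s h₁ < 0 ∧ 0 < s h₂ ∧
      (c * s h₁ + d) * s h₂ = a * s h₁ + b ∧ (c * s h₂ + d) * s h₁ = a * s h₂ + b := by
    intro h₁ h₂ k1 k2 k3 k4 k5
    have n1 : |h₁| < δ' := by rw [abs_of_neg k2]; linarith
    have n2 : |h₂| < δ' := by rw [abs_of_pos k3]; linarith
    have m1 := lt_of_lt_of_le n1 (min_le_left r (δ / (2 * a1)))
    have m2 := lt_of_lt_of_le n2 (min_le_left r (δ / (2 * a1)))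
    obtain ⟨g1, p1⟩ := (hball (y := h₁) (by simpa [Real.dist_eq] using m1)).2.2.2 k2.ne
      (hpos h₁ m1 k2.ne)
    obtain ⟨g2, p2⟩ := (hball (y := h₂) (by simpa [Real.dist_eq] using m2)).2.2.2 k3.ne'
      (hpos h₂ m2 k3.ne')
    have s1 : s h₁ < 0 := by
      have := (hbd h₁ m1 k2.ne).1
      exact (pos_iff_pos_of_mul_pos (by linarith [this] : 0 < (-h₁) * (-s h₁))).1
        (by linarith) |> fun z => by linarith
    have s2 : 0 < s h₂ := by
      have := (hbd h₂ m2 k3.ne').1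
      exact (pos_iff_pos_of_mul_pos this).1 k3
    have t1 := hsδ h₁ n1 k2.ne
    have t2 := hsδ h₂ n2 k3.ne'
    rw [← k5] at p2
    refine ⟨s1, s2, hsw _ g1 (s h₁) (s h₂) ?_ s1 s2 ?_ p1 p2⟩
    · rw [abs_of_neg s1] at t1; linarith
    · rw [abs_of_pos s2] at t2; linarith
  have hmob := mobius hdet (fun η hη => by
    obtain ⟨h₁, h₂, k1, k2, k3, k4, k5⟩ := exists_pairs hd2 l1 hDf hc (min δ' (η / (2 * a1)))
      (lt_min hδ'0 (by positivity))
    have z1 : min δ' (η / (2 * a1)) ≤ δ' := min_le_left _ _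
    have z2 : min δ' (η / (2 * a1)) ≤ η / (2 * a1) := min_le_right _ _
    obtain ⟨s1, s2, s3, s4⟩ := hswap h₁ h₂ (by linarith) k2 k3 (by linarith) k5
    have m1 : |h₁| < r := by
      rw [abs_of_neg k2]; have := min_le_left r (δ / (2 * a1)); linarith
    have m2 : |h₂| < r := by
      rw [abs_of_pos k3]; have := min_le_left r (δ / (2 * a1)); linarith
    have u1 := (hbd h₁ m1 k2.ne).2
    have u2 := (hbd h₂ m2 k3.ne').2
    rw [abs_of_neg s1, abs_of_neg k2] at u1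
    rw [abs_of_pos s2, abs_of_pos k3] at u2
    have v1 : -h₁ < η / (2 * a1) := by linarith
    have v2 : h₂ < η / (2 * a1) := by linarith
    rw [lt_div_iff₀ (by positivity)] at v1 v2
    exact ⟨s h₁, s h₂, by linarith, s1, s2, by linarith, s3, s4⟩)
  obtain ⟨ha, hb, hd⟩ := hmob
  refine ⟨c / d, odd_jet hd2 hc hD hs ⟨δ', hδ'0, fun h₁ h₂ k1 k2 k3 k4 k5 => ?_⟩⟩
  obtain ⟨-, -, s3, -⟩ := hswap h₁ h₂ k1 k2 k3 k4 k5
  rw [ha, hb] at s3
  field_simp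
  linarith

end Pool.Agent.X179.PI
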