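import Pool.Agent.X179.PI.Cube
import Pool.Agent.X179.PI.CircTan

/-!
String curves.
-/

set_option autoImplicit false

open Filter Topology Set

namespace Pool.Agent.X179.PI

/-- the string curve: the points `z` whose two tangent segments to `γ`, with points of contact
`γ(θ₁)` and `γ(θ₂)`, have lengths `u`, `u'` such that `u + u'` exceeds the length of the arc of `γ`
from `θ₁` to `θ₂` by `ℓ` -/
noncomputable def stringCurve (x y ρ : ℝ → ℝ) (ℓ : ℝ) : Set (ℝ × ℝ) :=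
  {z | ∃ θ₁ θ₂ u u' : ℝ, θ₁ < θ₂ ∧ θ₂ < θ₁ + Real.pi ∧ z = tanPt x y θ₁ u ∧
    z = tanPt x y θ₂ (-u') ∧ u + u' - ∫ θ in θ₁..θ₂, ρ θ = ℓ}

lemma sm_div {n : ℕ} {f Q g : ℝ → ℝ} {l : ℝ} (hQ : Sm n Q) (hg : Tendsto g (𝓝 0) (𝓝 l))
    (hl : l ≠ 0) (h0 : f 0 = 0) (h : ∀ᶠ x in 𝓝 (0 : ℝ), x ≠ 0 → f x * g x = Q x) : Sm n f := by
  obtain ⟨e, he, hQe⟩ := hQ
  refine Sm.of_ev (e := fun x => e x * (g x)⁻¹) (by simpa using he.mul (hg.inv₀ hl)) h0 ?_
  filter_upwards [h, hg.eventually_ne hl] with x hx hgx x0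
  have h1 := hx x0
  rw [hQe] at h1
  field_simp
  linear_combination h1

lemma tendsto_one_add_cos : Tendsto (fun h => 1 + Real.cos h) (𝓝 0) (𝓝 2) := by
  have := (Real.continuous_cos.tendsto 0).const_add 1
  norm_num at this
  exact this

/-- the excess of the tangent lengths over the arc -/
noncomputable def Lam (x y ρ : ℝ → ℝ) (t h : ℝ) : ℝ :=
  V x y t h + U x y t h * (Real.sin h / (1 + Real.cos h)) - ∫ θ in t..(t + h), ρ θ

lemma S_add_R (x y : ℝ → ℝ) (t : ℝ) {h : ℝ} (hs : Real.sin h ≠ 0) :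
    S x y t h + R x y t h = V x y t h + U x y t h * (Real.sin h / (1 + Real.cos h)) := by
  have hc : 1 + Real.cos h ≠ 0 := by
    intro hc
    have h1 : Real.cos h = -1 := by linarith
    have h2 := Real.sin_sq_add_cos_sq h
    rw [h1] at h2
    have h3 : Real.sin h ^ 2 = 0 := by linarith
    exact hs (pow_eq_zero_iff (two_ne_zero) |>.1 h3)
  have h2 := Real.sin_sq_add_cos_sq h
  rw [S, R]
  field_simp
  linear_combination (-U x y t h) * h2

lemma hasDerivAt_arc {ρ : ℝ → ℝ} (hρ : Continuous ρ) (t h : ℝ) :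
    HasDerivAt (fun h => ∫ θ in t..(t + h), ρ θ) (ρ (t + h)) h := by
  have e := (hρ.integral_hasStrictDerivAt t (t + h)).hasDerivAt
  have := e.comp h ((hasDerivAt_id' h).const_add t)
  simpa [Function.comp_def] using this

lemma hasDerivAt_Lam {x y ρ : ℝ → ℝ} (hx : ∀ t, HasDerivAt x (-(ρ t * Real.sin t)) t)
    (hy : ∀ t, HasDerivAt y (ρ t * Real.cos t) t) (hρ : Continuous ρ) (t : ℝ) {h : ℝ}
    (hc : 1 + Real.cos h ≠ 0) :
    HasDerivAt (Lam x y ρ t) (U x y t h / (1 + Real.cos h)) h := by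
  have e1 := hasDerivAt_V hx hy t h
  have e2 := hasDerivAt_U hx hy t h
  have e3 := (Real.hasDerivAt_sin h).div ((Real.hasDerivAt_cos h).const_add 1) hc
  have e4 := hasDerivAt_arc hρ t h
  refine ((e1.add (e2.mul e3)).sub e4).congr_deriv ?_
  have h2 := Real.sin_sq_add_cos_sq h
  have h3 : Real.sin h ^ 2 = 1 - Real.cos h ^ 2 := by linarith
  simp only [Pi.div_apply]
  field_simp
  ring_nf
  simp only [h3]
  ring_nf
  try linear_combination (0 : ℝ) * h2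

section
variable {x y ρ ρ1 ρ2 ρ3 : ℝ → ℝ} (hx : ∀ t, HasDerivAt x (-(ρ t * Real.sin t)) t)
  (hy : ∀ t, HasDerivAt y (ρ t * Real.cos t) t) (h1 : ∀ t, HasDerivAt ρ (ρ1 t) t)
  (h2 : ∀ t, HasDerivAt ρ1 (ρ2 t) t) (h3 : ∀ t, HasDerivAt ρ2 (ρ3 t) t) (hc : Continuous ρ3)
include hx hy h1 h2 h3 hc

lemma sm_Lam' (t : ℝ) : Sm 5 (fun h => U x y t h / (1 + Real.cos h)
    - (ρ t / 4 * h ^ 2 + ρ1 t / 6 * h ^ 3
    + (ρ t / 24 + ρ2 t / 16) * h ^ 4 + (ρ1 t / 40 + ρ3 t / 60) * h ^ 5)) := by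
  obtain ⟨eU, heU, hU⟩ := sm_U hx hy h1 h2 h3 hc t
  obtain ⟨es, hes, hs⟩ := sm_cos4
  refine sm_div (Q := fun h => U x y t h - (ρ t / 4 * h ^ 2 + ρ1 t / 6 * h ^ 3
    + (ρ t / 24 + ρ2 t / 16) * h ^ 4 + (ρ1 t / 40 + ρ3 t / 60) * h ^ 5) * (1 + Real.cos h)) ?_
    tendsto_one_add_cos two_ne_zero (by simp [U]) ?_
  · refine ⟨_, lim2 heU hes (fun z => z.2.1 - (z.2.2 + 1 / 24) * z.1 * (ρ t / 4 + ρ1 t / 6 * z.1
      + (ρ t / 24 + ρ2 t / 16) * z.1 ^ 2 + (ρ1 t / 40 + ρ3 t / 60) * z.1 ^ 3)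
      + z.1 / 2 * ((ρ t / 24 + ρ2 t / 16) + (ρ1 t / 40 + ρ3 t / 60) * z.1))
        (by fun_prop) (by simp), fun h => ?_⟩
    have a := hU h
    have b := hs h
    have a' : U x y t h = (ρ t / 2 * h ^ 2 + ρ1 t / 3 * h ^ 3
      + (ρ2 t / 8 - ρ t / 24) * h ^ 4 + (ρ3 t / 30 - ρ1 t / 30) * h ^ 5) + eU h * h ^ 5 := by
      linarith
    have b' : Real.cos h = 1 - h ^ 2 / 2 + h ^ 4 / 24 + es h * h ^ 4 := by linarith
    simp only
    rw [a', b']
    ring
  · filter_upwards [tendsto_one_add_cos.eventually_ne two_ne_zero] with h hh _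
    field_simp

lemma sm_Lam (t : ℝ) : Sm 6 (fun h => Lam x y ρ t h - (ρ t / 12 * h ^ 3 + ρ1 t / 24 * h ^ 4
    + (ρ t / 120 + ρ2 t / 80) * h ^ 5 + (ρ1 t / 240 + ρ3 t / 360) * h ^ 6)) := by
  refine Sm.integrate' ?_ (by simp [Lam, U, V]) (sm_Lam' hx hy h1 h2 h3 hc t)
  have hρ : Continuous ρ := continuous_iff_continuousAt.mpr fun t => (h1 t).continuousAt
  filter_upwards [tendsto_one_add_cos.eventually_ne two_ne_zero] with h hh
  refine ((hasDerivAt_Lam hx hy hρ t hh).sub (((((hasDerivAt_pow 3 h).const_mul _).add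
    ((hasDerivAt_pow 4 h).const_mul _)).add ((hasDerivAt_pow 5 h).const_mul _)).add
    ((hasDerivAt_pow 6 h).const_mul _))).congr_deriv ?_
  simp
  ring

end

end Pool.Agent.X179.PI

namespace Pool.Agent.X179.PI

lemma ode_of_rel_str {r0 r1 r2 r3 κ c α β : ℝ} (h0 : 0 < r0) (hκ : 0 < κ)
    (e1 : (r0 / 2) ^ 2 = α * κ)
    (e2 : 2 * (r0 / 2) * (r1 / 6) = α * (κ * (r1 / (3 * r0)) + c * (r0 / 2 * κ)))
    (e3 : (r1 / 6) ^ 2 + 2 * (r0 / 2) * (r0 / 24 + r2 / 24)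
      = α * (κ * (1 / 15 + r2 / (10 * r0) - r1 ^ 2 / (36 * r0 ^ 2))
      + c * (r0 / 2 * (κ * (r1 / (3 * r0))) + r1 / 6 * κ)) + β * κ ^ 2)
    (e4 : 2 * (r0 / 2) * (7 * r1 / 360 + r3 / 120) + 2 * (r1 / 6) * (r0 / 24 + r2 / 24)
      = α * (κ * (r1 / (45 * r0) + r3 / (45 * r0) - r1 * r2 / (60 * r0 ^ 2)
          + r1 ^ 3 / (162 * r0 ^ 3))
        + c * (r0 / 2 * (κ * (1 / 15 + r2 / (10 * r0) - r1 ^ 2 / (36 * r0 ^ 2)))
          + r1 / 6 * (κ * (r1 / (3 * r0))) + (r0 / 24 + r2 / 24) * κ))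
        + β * (2 * κ * (κ * (r1 / (3 * r0))) + c * (r0 / 2) * κ ^ 2)) :
    18 * r0 ^ 2 * r3 = 63 * r0 ^ 2 * r1 + 90 * r0 * r1 * r2 - 80 * r1 ^ 3 := by
  have hα : α = (r0 / 2) ^ 2 / κ := by
    rw [eq_div_iff hκ.ne']; linarith
  subst hα
  have hcc : c = 2 * r1 / (3 * r0 ^ 2) := by
    rw [eq_div_iff (by positivity)]
    field_simp at e2
    linarith
  subst hcc
  obtain ⟨b, rfl⟩ : ∃ b, β = b / κ ^ 2 := ⟨β * κ ^ 2, by field_simp⟩
  have hb : b = (r1 / 6) ^ 2 + 2 * (r0 / 2) * (r0 / 24 + r2 / 24)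
      - (r0 / 2) ^ 2 * ((1 / 15 + r2 / (10 * r0) - r1 ^ 2 / (36 * r0 ^ 2))
      + 2 * r1 / (3 * r0 ^ 2) * (r0 / 2 * (r1 / (3 * r0)) + r1 / 6)) := by
    rw [e3]
    field_simp
    ring
  subst hb
  field_simp at e4
  ring_nf at e4 ⊢
  linarith

end Pool.Agent.X179.PI

namespace Pool.Agent.X179.PI

/-- a third order zero has the sign of `h` -/
lemma sign_of_cubic {f : ℝ → ℝ} {m a b c : ℝ} (hm : 0 < m)
    (hf : Sm 6 fun h => f h - (m * h ^ 3 + a * h ^ 4 + b * h ^ 5 + c * h ^ 6)) :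
    ∀ᶠ h in 𝓝 (0 : ℝ), (h < 0 → f h < 0) ∧ (0 < h → 0 < f h) := by
  obtain ⟨e, he, hfe⟩ := hf
  have l1 : Tendsto (fun h => a * h + b * h ^ 2 + c * h ^ 3 + e h * h ^ 3) (𝓝 0) (𝓝 0) :=
    lim2 he he (fun z => a * z.1 + b * z.1 ^ 2 + c * z.1 ^ 3 + z.2.1 * z.1 ^ 3)
      (by fun_prop) (by simp)
  have q1 := (tendsto_order.1 l1).1 (-m) (by linarith)
  filter_upwards [q1] with h hq
  have hf' : f h = h ^ 3 * (m + (a * h + b * h ^ 2 + c * h ^ 3 + e h * h ^ 3)) := by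
    have := hfe h
    simp only at this
    linear_combination this
  refine ⟨fun h0 => ?_, fun h0 => ?_⟩
  · rw [hf']
    have : h ^ 3 < 0 := Odd.pow_neg (by decide) h0
    exact mul_neg_of_neg_of_pos this (by linarith)
  · rw [hf']
    exact mul_pos (by positivity) (by linarith)

theorem string_const {x y ρ : ℝ → ℝ} (ho : Oval x y ρ)
    (hp : ∀ t, ProjectiveAt x y (stringCurve x y ρ) t) : ∀ t s, ρ t = ρ s := by
  obtain ⟨ρ1, ρ2, ρ3, h1, h2, h3, hc⟩ := ho.derivs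
  refine ode_string (ρ1 := ρ1) (ρ2 := ρ2) (ρ3 := ρ3) Real.two_pi_pos ho.per_rho ho.pos h1 h2 h3
    fun t => ?_
  have hpos := ho.pos t
  have hρ : Continuous ρ := continuous_iff_continuousAt.mpr fun t => (h1 t).continuousAt
  have hm : 0 < ρ t / 12 := by positivity
  have hκ : 0 < ((ρ t / 12) ^ 2) ^ ((1 : ℝ) / 3) := Real.rpow_pos_of_pos (by positivity) _
  have hLam := sm_Lam ho.dx ho.dy h1 h2 h3 hc t
  have hLam' : Sm 6 fun h => Lam x y ρ t h - (ρ t / 12 * h ^ 3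
      + ρ t / 12 * (ρ1 t / (2 * ρ t)) * h ^ 4
      + ρ t / 12 * (1 / 10 + 3 * ρ2 t / (20 * ρ t)) * h ^ 5
      + ρ t / 12 * (ρ1 t / (20 * ρ t) + ρ3 t / (30 * ρ t)) * h ^ 6) := by
    refine hLam.congr fun h => ?_
    field_simp
    ring
  have hD := cube_exp hκ (cbrt_cube (ρ t / 12)) hLam'
    (δ1 := ρ1 t / (3 * ρ t))
    (δ2 := 1 / 15 + ρ2 t / (10 * ρ t) - ρ1 t ^ 2 / (36 * ρ t ^ 2))
    (δ3 := ρ1 t / (45 * ρ t) + ρ3 t / (45 * ρ t) - ρ1 t * ρ2 t / (60 * ρ t ^ 2)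
          + ρ1 t ^ 3 / (162 * ρ t ^ 3))
    (by field_simp)
    (by field_simp; ring)
    (by field_simp; ring)
  obtain ⟨c, α, β, e1, e2, e3, e4⟩ := rel_of_leaves (hp t)
    (D := fun h => (Lam x y ρ t h ^ 2) ^ ((1 : ℝ) / 3)) (s := S x y t)
    (g := fun D => Real.sqrt (D ^ 3)) hκ
    (by positivity : 0 < ρ t / 2)
    (by
      filter_upwards [tendsto_one_add_cos.eventually_ne two_ne_zero] with h hh
      exact cbrt_continuous (hasDerivAt_Lam ho.dx ho.dy hρ t hh).continuousAt)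
    hD (sm_S ho.dx ho.dy h1 h2 h3 hc t)
    (by
      filter_upwards [sin_ne_zero_near, Metric.ball_mem_nhds (0 : ℝ) Real.pi_pos,
        sign_of_cubic hm hLam] with h hs hb hsign h0 hD
      rw [Metric.mem_ball, Real.dist_eq, sub_zero, abs_lt] at hb
      have hsh := hs h0
      rw [sqrt_cbrt]
      have hSR := S_add_R x y t hsh
      rcases lt_or_gt_of_ne h0 with k | k
      · have hn := hsign.1 k
        refine ⟨abs_pos.2 hn.ne, t + h, t, -R x y t h, -S x y t h, by linarith, by linarith,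
          tanPt_S x y t h hsh, by rw [neg_neg], ?_⟩
        rw [abs_of_neg hn, intervalIntegral.integral_symm t (t + h), Lam]
        linarith
      · have hn := hsign.2 k
        refine ⟨abs_pos.2 hn.ne', t, t + h, S x y t h, R x y t h, by linarith, by linarith,
          rfl, tanPt_S x y t h hsh, ?_⟩
        rw [abs_of_pos hn, Lam]
        linarith)
  exact ode_of_rel_str hpos hκ e1 e2 e3 e4

/-- the excess for a circle, as a function of `s = tan (τ / 2)` -/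
lemma excess_mono : StrictMonoOn (fun s : ℝ => s - Real.arctan s) (Ici 0) := by
  have hd : ∀ s : ℝ, HasDerivAt (fun s : ℝ => s - Real.arctan s) (1 - 1 / (1 + s ^ 2)) s :=
    fun s => (hasDerivAt_id' s).sub (Real.hasDerivAt_arctan s)
  refine strictMonoOn_of_deriv_pos (convex_Ici 0)
    (continuous_iff_continuousAt.mpr fun s => (hd s).continuousAt).continuousOn fun s hs => ?_
  rw [interior_Ici] at hs
  rw [(hd s).deriv]
  have hs' : 0 < s := hs
  have : 1 / (1 + s ^ 2) < 1 := by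
    rw [div_lt_one (by positivity)]
    nlinarith
  linarith

lemma excess_exists {a : ℝ} (ha : 0 < a) : ∃ s : ℝ, 0 < s ∧ s - Real.arctan s = a := by
  have hcont : Continuous (fun s : ℝ => s - Real.arctan s) :=
    continuous_id.sub Real.continuous_arctan
  have hb : 0 ≤ a + Real.pi / 2 := by positivity
  have hmem : a ∈ Icc ((fun s : ℝ => s - Real.arctan s) 0)
      ((fun s : ℝ => s - Real.arctan s) (a + Real.pi / 2)) := by
    constructor
    · simp [ha.le]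
    · have := Real.arctan_lt_pi_div_two (a + Real.pi / 2)
      simp only
      linarith
  obtain ⟨s, hs, hsa⟩ := intermediate_value_Icc hb hcont.continuousOn hmem
  refine ⟨s, lt_of_le_of_ne hs.1 ?_, hsa⟩
  rintro rfl
  simp at hsa
  linarith

theorem string_main {x y ρ : ℝ → ℝ} (ho : Oval x y ρ)
    (hp : ∀ t, ProjectiveAt x y (stringCurve x y ρ) t) :
    ∃ u v R : ℝ, 0 < R ∧ (∀ θ, x θ = u + R * Real.cos θ ∧ y θ = v + R * Real.sin θ) ∧
      ∀ ℓ > 0, ∃ R' > R, stringCurve x y ρ ℓ = {z | (z.1 - u) ^ 2 + (z.2 - v) ^ 2 = R' ^ 2} := by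
  have hconst := string_const ho hp
  obtain ⟨u, v, R, hR, hcirc⟩ := ho.circle hconst
  have hρR : ∀ θ, ρ θ = R := by
    intro θ
    have a1 := (ho.dy 0).unique
      (((Real.hasDerivAt_sin 0).const_mul R).const_add v |>.congr_of_eventuallyEq
        (Eventually.of_forall fun θ => (hcirc θ).2))
    simp at a1
    rw [hconst θ 0, a1]
  refine ⟨u, v, R, hR, hcirc, fun ℓ hℓ => ?_⟩
  obtain ⟨s, hs0, hs⟩ := excess_exists (a := ℓ / (2 * R)) (by positivity)
  have hsq : 1 < Real.sqrt (1 + s ^ 2) := by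
    rw [Real.lt_sqrt (by norm_num)]
    nlinarith
  refine ⟨R * Real.sqrt (1 + s ^ 2), by nlinarith, ?_⟩
  have hcos : ∀ τ : ℝ, Real.tan (τ / 2) = s → 0 < Real.cos (τ / 2) →
      R / Real.cos (τ / 2) = R * Real.sqrt (1 + s ^ 2) := by
    intro τ h1 h2
    have h3 : Real.sqrt (1 + s ^ 2) = 1 / Real.cos (τ / 2) := by
      rw [← h1, Real.tan_eq_sin_div_cos]
      rw [show (1 : ℝ) + (Real.sin (τ / 2) / Real.cos (τ / 2)) ^ 2 = (1 / Real.cos (τ / 2)) ^ 2 by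
        have := Real.sin_sq_add_cos_sq (τ / 2)
        field_simp
        linarith]
      exact Real.sqrt_sq (by positivity)
    rw [h3]
    field_simp
  ext z
  constructor
  · rintro ⟨θ₁, θ₂, a, a', h1, h2, hz, hz', hL⟩
    obtain ⟨τ, rfl⟩ : ∃ τ, θ₂ = θ₁ + τ := ⟨θ₂ - θ₁, by ring⟩
    have hτ0 : 0 < τ := by linarith
    have hτ : τ < Real.pi := by linarith
    obtain ⟨ha, ha', hzz⟩ := circ_uniq hcirc hτ0 hτ hz hz'
    have hint : ∫ θ in θ₁..(θ₁ + τ), ρ θ = R * τ := by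
      simp only [hρR]
      rw [intervalIntegral.integral_const]
      simp
      ring
    rw [hint, ha, ha'] at hL
    have hc0 : 0 < Real.cos (τ / 2) := Real.cos_pos_of_mem_Ioo ⟨by linarith, by linarith⟩
    have hat : Real.arctan (Real.tan (τ / 2)) = τ / 2 :=
      Real.arctan_tan (by linarith) (by linarith)
    have htan0 : 0 < Real.tan (τ / 2) := Real.tan_pos_of_pos_of_lt_pi_div_two (by linarith)
      (by linarith)
    have hts : Real.tan (τ / 2) = s := by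
      refine excess_mono.injOn (mem_Ici.2 htan0.le) (mem_Ici.2 hs0.le) ?_
      rw [hs, hat, ← hL]
      field_simp
      ring
    rw [hzz, hcos τ hts hc0]
    show (u + R * Real.sqrt (1 + s ^ 2) * Real.cos (θ₁ + τ / 2) - u) ^ 2
      + (v + R * Real.sqrt (1 + s ^ 2) * Real.sin (θ₁ + τ / 2) - v) ^ 2
      = (R * Real.sqrt (1 + s ^ 2)) ^ 2
    have := Real.sin_sq_add_cos_sq (θ₁ + τ / 2)
    linear_combination (R * Real.sqrt (1 + s ^ 2)) ^ 2 * this
  · intro hz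
    obtain ⟨φ, rfl⟩ := exists_angle' (by positivity : 0 < R * Real.sqrt (1 + s ^ 2)) hz
    set τ := 2 * Real.arctan s with hτdef
    have hτ0 : 0 < τ := by
      have := Real.arctan_pos.2 hs0
      linarith
    have hτ : τ < Real.pi := by
      have := Real.arctan_lt_pi_div_two s
      linarith
    have hhalf : τ / 2 = Real.arctan s := by rw [hτdef]; ring
    have hts : Real.tan (τ / 2) = s := by rw [hhalf, Real.tan_arctan]
    have hc0 : 0 < Real.cos (τ / 2) := by rw [hhalf]; exact Real.cos_arctan_pos s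
    have hint : ∫ θ in (φ - τ / 2)..(φ - τ / 2 + τ), ρ θ = R * τ := by
      simp only [hρR]
      rw [intervalIntegral.integral_const]
      simp
      ring
    refine ⟨φ - τ / 2, φ - τ / 2 + τ, R * Real.tan (τ / 2), R * Real.tan (τ / 2), by linarith,
      by linarith, ?_, ?_, ?_⟩
    · rw [circ_pt hcirc hτ0 hτ, hcos τ hts hc0, sub_add_cancel]
    · rw [circ_pt' hcirc hτ0 hτ, hcos τ hts hc0, sub_add_cancel]
    · rw [hint, hts, hτdef]
      have : s - Real.arctan s = ℓ / (2 * R) := hs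
      have h2 : ℓ = (s - Real.arctan s) * (2 * R) := by rw [this]; field_simp
      rw [h2]; ring

end Pool.Agent.X179.PI
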