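import Pool.Agent.X179.PI.Par

/-!
Tangent lengths.
-/

set_option autoImplicit false

open Filter Topology Set

namespace Pool.Agent.X179.PI

lemma Sm.of_ev {n : ℕ} {f e : ℝ → ℝ} (he : Tendsto e (𝓝 0) (𝓝 0)) (h0 : f 0 = 0)
    (h : ∀ᶠ x in 𝓝 (0 : ℝ), x ≠ 0 → f x = e x * x ^ n) : Sm n f := by
  have e0 : e 0 = 0 := tendsto_nhds_unique (tendsto_pure_nhds e 0) (he.mono_left (pure_le_nhds 0))
  refine ⟨fun x => if x = 0 then 0 else f x / x ^ n, ?_, fun x => ?_⟩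
  · refine he.congr' ?_
    filter_upwards [h] with x hx
    by_cases x0 : x = 0
    · simp [x0, e0]
    · simp only [x0, if_false]
      rw [hx x0]
      field_simp
  · by_cases x0 : x = 0
    · simp [x0, h0]
    · simp only [x0, if_false]
      field_simp

lemma sin_ne_zero_near : ∀ᶠ h in 𝓝 (0 : ℝ), h ≠ 0 → Real.sin h ≠ 0 := by
  filter_upwards [Metric.ball_mem_nhds (0 : ℝ) Real.pi_pos] with h hh h0
  rw [Metric.mem_ball, Real.dist_eq, sub_zero, abs_lt] at hh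
  rcases lt_or_gt_of_ne h0 with k | k
  · exact (Real.sin_neg_of_neg_of_neg_pi_lt k hh.1).ne
  · exact (Real.sin_pos_of_pos_of_lt_pi k hh.2).ne'

lemma sm_div_sin {n : ℕ} {f Q : ℝ → ℝ} (hQ : Sm (n + 1) Q) (h0 : f 0 = 0)
    (h : ∀ᶠ x in 𝓝 (0 : ℝ), x ≠ 0 → f x * Real.sin x = Q x) : Sm n f := by
  obtain ⟨e, he, hQe⟩ := hQ
  have l : Tendsto (fun x => (Real.sinc x)⁻¹) (𝓝 0) (𝓝 1) := by
    have := (Real.continuous_sinc.tendsto 0).inv₀ (by simp)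
    simpa using this
  refine Sm.of_ev (e := fun x => e x * (Real.sinc x)⁻¹) (by simpa using he.mul l) h0 ?_
  filter_upwards [h, sin_ne_zero_near] with x hx hs x0
  have h1 := hx x0
  have h2 := hs x0
  rw [hQe] at h1
  rw [Real.sinc_of_ne_zero x0]
  field_simp
  linear_combination h1

/-- the tangential coordinate, on the tangent line at `γ(t)`, of its point on the tangent line at
`γ(t + h)` -/
noncomputable def S (x y : ℝ → ℝ) (t h : ℝ) : ℝ := V x y t h - U x y t h * Real.cos h / Real.sin h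

/-- the corresponding length on the tangent line at `γ(t + h)` -/
noncomputable def R (x y : ℝ → ℝ) (t h : ℝ) : ℝ := U x y t h / Real.sin h

lemma tanPt_S (x y : ℝ → ℝ) (t h : ℝ) (hs : Real.sin h ≠ 0) :
    tanPt x y t (S x y t h) = tanPt x y (t + h) (-R x y t h) := by
  have e := Real.sin_sq_add_cos_sq t
  have hR : R x y t h * Real.sin h = U x y t h := by rw [R]; field_simp
  have hS : S x y t h = V x y t h - R x y t h * Real.cos h := by rw [S, R]; ring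
  refine Prod.ext ?_ ?_
  · simp only [tanPt]
    rw [hS, Real.sin_add]
    simp only [U] at hR
    simp only [V]
    linear_combination (-Real.cos t) * hR + (x (t + h) - x t) * e
  · simp only [tanPt]
    rw [hS, Real.cos_add]
    simp only [U] at hR
    simp only [V]
    linear_combination (-Real.sin t) * hR + (y (t + h) - y t) * e

section
variable {x y ρ ρ1 ρ2 ρ3 : ℝ → ℝ} (hx : ∀ t, HasDerivAt x (-(ρ t * Real.sin t)) t)
  (hy : ∀ t, HasDerivAt y (ρ t * Real.cos t) t) (h1 : ∀ t, HasDerivAt ρ (ρ1 t) t)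
  (h2 : ∀ t, HasDerivAt ρ1 (ρ2 t) t) (h3 : ∀ t, HasDerivAt ρ2 (ρ3 t) t) (hc : Continuous ρ3)
include hx hy h1 h2 h3 hc

lemma sm_R (t : ℝ) : Sm 4 (fun h => R x y t h - (ρ t / 2 * h + ρ1 t / 3 * h ^ 2
    + (ρ t / 24 + ρ2 t / 8) * h ^ 3 + (ρ1 t / 45 + ρ3 t / 30) * h ^ 4)) := by
  obtain ⟨eU, heU, hU⟩ := sm_U hx hy h1 h2 h3 hc t
  obtain ⟨es, hes, hs⟩ := sm_sin5
  refine sm_div_sin (Q := fun h => U x y t h - (ρ t / 2 * h + ρ1 t / 3 * h ^ 2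
    + (ρ t / 24 + ρ2 t / 8) * h ^ 3 + (ρ1 t / 45 + ρ3 t / 30) * h ^ 4) * Real.sin h) ?_
    (by simp [R]) ?_
  · refine ⟨_, lim2 heU hes (fun z => z.2.1 - z.2.2 * z.1 * (ρ t / 2 + ρ1 t / 3 * z.1
      + (ρ t / 24 + ρ2 t / 8) * z.1 ^ 2 + (ρ1 t / 45 + ρ3 t / 30) * z.1 ^ 3)
      - (z.1 / 120 * (ρ t / 2 + ρ1 t / 3 * z.1
      + (ρ t / 24 + ρ2 t / 8) * z.1 ^ 2 + (ρ1 t / 45 + ρ3 t / 30) * z.1 ^ 3))
      + z.1 / 6 * ((ρ t / 24 + ρ2 t / 8) + (ρ1 t / 45 + ρ3 t / 30) * z.1))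
        (by fun_prop) (by simp), fun h => ?_⟩
    have a := hU h
    have b := hs h
    have a' : U x y t h = (ρ t / 2 * h ^ 2 + ρ1 t / 3 * h ^ 3
      + (ρ2 t / 8 - ρ t / 24) * h ^ 4 + (ρ3 t / 30 - ρ1 t / 30) * h ^ 5) + eU h * h ^ 5 := by
      linarith
    have b' : Real.sin h = h - h ^ 3 / 6 + h ^ 5 / 120 + es h * h ^ 5 := by linarith
    simp only
    rw [a', b']
    ring
  · filter_upwards [sin_ne_zero_near] with h hs' h0
    have := hs' h0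
    rw [R]
    field_simp

lemma sm_S (t : ℝ) : Sm 4 (fun h => S x y t h - (ρ t / 2 * h + ρ1 t / 6 * h ^ 2
    + (ρ t / 24 + ρ2 t / 24) * h ^ 3 + (7 * ρ1 t / 360 + ρ3 t / 120) * h ^ 4)) := by
  obtain ⟨eR, heR, hR⟩ := sm_R hx hy h1 h2 h3 hc t
  obtain ⟨es, hes, hs⟩ := sm_cos4
  have e4 : Sm 4 (fun h => R x y t h * Real.cos h - (ρ t / 2 * h + ρ1 t / 3 * h ^ 2
    + (ρ2 t / 8 + ρ t / 24 - ρ t / 4) * h ^ 3
    + (ρ1 t / 45 + ρ3 t / 30 - ρ1 t / 6) * h ^ 4)) := by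
    refine ⟨_, lim2 heR hes (fun z => z.2.1 * (1 - z.1 ^ 2 / 2 + z.1 ^ 4 / 24 + z.2.2 * z.1 ^ 4)
      + z.2.2 * z.1 * (ρ t / 2 + ρ1 t / 3 * z.1
        + (ρ t / 24 + ρ2 t / 8) * z.1 ^ 2 + (ρ1 t / 45 + ρ3 t / 30) * z.1 ^ 3)
      + z.1 / 24 * (ρ t / 2 + ρ1 t / 3 * z.1
        + (ρ t / 24 + ρ2 t / 8) * z.1 ^ 2 + (ρ1 t / 45 + ρ3 t / 30) * z.1 ^ 3)
      - z.1 / 2 * ((ρ t / 24 + ρ2 t / 8) + (ρ1 t / 45 + ρ3 t / 30) * z.1))
        (by fun_prop) (by simp), fun h => ?_⟩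
    have a := hR h
    have b := hs h
    have a' : R x y t h = (ρ t / 2 * h + ρ1 t / 3 * h ^ 2
      + (ρ t / 24 + ρ2 t / 8) * h ^ 3 + (ρ1 t / 45 + ρ3 t / 30) * h ^ 4) + eR h * h ^ 4 := by
      linarith
    have b' : Real.cos h = 1 - h ^ 2 / 2 + h ^ 4 / 24 + es h * h ^ 4 := by linarith
    simp only
    rw [a', b']
    ring
  refine ((sm_V hx hy h1 h2 h3 hc t).sub e4).congr fun h => ?_
  rw [S, R]
  ring

end

end Pool.Agent.X179.PI
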